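import Pool.Agent.Work.MP_2738db_nt_B.WPart1

set_option autoImplicit false

/-!
# The product theorem: part 1 with logarithms
-/

namespace Pool.Agent.Work.MP_2738db_nt_B

open Pool.Agent.Work.MP_2738db_nt_T

/-- an integral weight -/
lemma exists_weight {N u : ℕ} (hN : 3 ≤ N) (hu : 0 < u) :
    ∃ r : ℕ, 1 ≤ r ∧ u ≤ N ^ r ∧ (r : ℝ) ≤ 2 * (max (Real.log u) (Real.log N) / Real.log N) := by
  have hNpos : (0 : ℝ) < N := by exact_mod_cast (by omega : 0 < N)
  have hu0 : (0 : ℝ) < u := by exact_mod_cast hu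
  have hl0 : 0 < Real.log N := Real.log_pos (by exact_mod_cast (by omega : 1 < N))
  set x : ℝ := max (Real.log u) (Real.log N) / Real.log N with hx
  have hx1 : 1 ≤ x := by
    rw [hx, le_div_iff₀ hl0, one_mul]
    exact le_max_right _ _
  have hxu : Real.log u / Real.log N ≤ x := by
    rw [hx]
    exact div_le_div_of_nonneg_right (le_max_left _ _) hl0.le
  refine ⟨⌈x⌉₊, Nat.ceil_pos.mpr (by linarith), ?_, ?_⟩
  · have h1 : x ≤ ⌈x⌉₊ := Nat.le_ceil _
    have h2 : Real.log u / Real.log N ≤ ⌈x⌉₊ := hxu.trans h1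
    rw [div_le_iff₀ hl0] at h2
    have h3 : (u : ℝ) ≤ (N : ℝ) ^ ⌈x⌉₊ := by
      rw [← Real.log_le_log_iff hu0 (by positivity), Real.log_pow]
      exact h2
    exact_mod_cast h3
  · have h1 : ((⌈x⌉₊ : ℕ) : ℝ) < x + 1 := Nat.ceil_lt_add_one (by linarith)
    linarith

/-- the value triples counted in the product theorem -/
def VP (δ : ℝ) (N : ℕ) : Set (ℕ × ℕ × ℕ) :=
  {τ : ℕ × ℕ × ℕ | ∃ a b c m n k : ℕ, 0 < a ∧ 0 < b ∧ 0 < c ∧
      (a : ℝ) ≤ Real.exp ((N : ℝ) ^ δ) ∧ (b : ℝ) ≤ Real.exp ((N : ℝ) ^ δ) ∧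
      (c : ℝ) ≤ Real.exp ((N : ℝ) ^ δ) ∧
      Nat.Coprime a b ∧ Nat.Coprime b c ∧ Nat.Coprime a c ∧ 2 ≤ m ∧ 2 ≤ n ∧ 2 ≤ k ∧
      a ^ m + b ^ n = c ^ k ∧
      (max (Real.log a) (Real.log N) * max (Real.log b) (Real.log N) *
          max (Real.log c) (Real.log N) < δ * Real.log N ^ 2 * Real.log ((c : ℝ) ^ k) ∨
        (a ≤ N ∧ b ≤ N ∧ c ≤ N ∧ (1 / δ ≤ m ∨ 1 / δ ≤ n ∨ 1 / δ ≤ k))) ∧
      τ = (a ^ m, b ^ n, c ^ k)}

/-- the product theorem -/
theorem product : ∀ ε : ℝ, 0 < ε → ∃ (δ : ℝ) (N0 : ℕ), 0 < δ ∧ ∀ N : ℕ, N0 ≤ N →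
    (VP δ N).Finite ∧ ((VP δ N).ncard : ℝ) ≤ (N : ℝ) ^ ε := by
  intro ε hε
  obtain ⟨A, δ1, N1, hδ1, h1⟩ := part1 ε hε
  obtain ⟨δ, hδ⟩ : ∃ e : ℝ, e = min (δ1 / 2) (1 / (8 * ((A : ℝ) + 1))) := ⟨_, rfl⟩
  have hA0 : (0 : ℝ) ≤ A := Nat.cast_nonneg _
  have hδ0 : 0 < δ := by rw [hδ]; exact lt_min (by positivity) (by positivity)
  have hδ2 : 2 * δ ≤ δ1 := by
    have : δ ≤ δ1 / 2 := by rw [hδ]; exact min_le_left _ _
    linarith
  have hδA : 8 * δ * (A + 1) ≤ 1 := by
    have : δ ≤ 1 / (8 * ((A : ℝ) + 1)) := by rw [hδ]; exact min_le_right _ _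
    rw [le_div_iff₀ (by positivity)] at this
    linarith
  obtain ⟨N2, hN2⟩ := large_rpow hδ0 2
  obtain ⟨N3, hN3⟩ := large_log hδ0
  refine ⟨δ, N1 + N2 + N3 + 3, hδ0, ?_⟩
  intro N hN
  have hN3' : 3 ≤ N := by omega
  have hN1 : 1 ≤ N := by omega
  have hN1r : (1 : ℝ) ≤ N := by exact_mod_cast hN1
  have hNpos : (0 : ℝ) < N := by linarith
  have hl1 : 1 ≤ Real.log N := by
    rw [Real.le_log_iff_exp_le hNpos]
    have := Real.exp_one_lt_d9
    have h8 : (3 : ℝ) ≤ N := by exact_mod_cast hN3'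
    linarith
  have hl0 : 0 < Real.log N := by linarith
  have h2δ := hN2 N (by omega)
  have hlogδ := hN3 N (by omega)
  obtain ⟨hF, hC⟩ := h1 N (by omega)
  have hsub : VP δ N ⊆ VW A δ1 N := by
    rintro τ ⟨a, b, c, m, n, k, ha, hb, hc, hae, hbe, hce, hab, hbc, hac, hm, hn, hk, heq, hor, rfl⟩
    have hwle : ∀ u : ℕ, 0 < u → (u : ℝ) ≤ Real.exp ((N : ℝ) ^ δ) → ∀ r : ℕ,
        (r : ℝ) ≤ 2 * (max (Real.log u) (Real.log N) / Real.log N) → (r : ℝ) ≤ (N : ℝ) ^ δ1 := by
      intro u hu hue r hr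
      have hu0 : (0 : ℝ) < u := by exact_mod_cast hu
      have h4 : Real.log u ≤ (N : ℝ) ^ δ := by
        have := Real.log_le_log hu0 hue
        rwa [Real.log_exp] at this
      have h5 : max (Real.log u) (Real.log N) ≤ (N : ℝ) ^ δ := max_le h4 hlogδ
      have h6 : max (Real.log u) (Real.log N) / Real.log N ≤ (N : ℝ) ^ δ := by
        rw [div_le_iff₀ hl0]
        refine h5.trans ?_
        exact le_mul_of_one_le_right (by positivity) hl1
      calc (r : ℝ) ≤ 2 * (max (Real.log u) (Real.log N) / Real.log N) := hr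
        _ ≤ (N : ℝ) ^ δ * (N : ℝ) ^ δ := by gcongr
        _ = (N : ℝ) ^ (δ + δ) := by rw [Real.rpow_add hNpos]
        _ ≤ (N : ℝ) ^ δ1 := Real.rpow_le_rpow_of_exponent_le hN1r (by linarith)
    rcases hor with hlt | ⟨haN, hbN, hcN, hK⟩
    · obtain ⟨r, hr1, har, hr⟩ := exists_weight hN3' ha
      obtain ⟨s, hs1, hbs, hs⟩ := exists_weight hN3' hb
      obtain ⟨t, ht1, hct, ht⟩ := exists_weight hN3' hc
      refine ⟨a, b, c, m, n, k, r, s, t, ha, hb, hc, hab, hbc, hac, hm, hn, hk, hr1, hs1, ht1,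
        hwle a ha hae r hr, hwle b hb hbe s hs, hwle c hc hce t ht, har, hbs, hct, heq, Or.inl ?_,
        rfl⟩
      set La := max (Real.log a) (Real.log N) with hLa
      set Lb := max (Real.log b) (Real.log N) with hLb
      set Lc := max (Real.log c) (Real.log N) with hLc
      have hLa0 : 0 < La := lt_of_lt_of_le hl0 (le_max_right _ _)
      have hLb0 : 0 < Lb := lt_of_lt_of_le hl0 (le_max_right _ _)
      have hLc0 : 0 < Lc := lt_of_lt_of_le hl0 (le_max_right _ _)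
      have hprod : (r : ℝ) * s * t ≤ 8 * (La * Lb * Lc) / Real.log N ^ 3 := by
        calc (r : ℝ) * s * t ≤ (2 * (La / Real.log N)) * (2 * (Lb / Real.log N))
              * (2 * (Lc / Real.log N)) := by gcongr
          _ = 8 * (La * Lb * Lc) / Real.log N ^ 3 := by field_simp; ring
      have hlog0 : 0 < Real.log ((c : ℝ) ^ k) := by
        by_contra hcon
        push Not at hcon
        have h5 : 0 < La * Lb * Lc := by positivity
        have h6 : δ * Real.log N ^ 2 * Real.log ((c : ℝ) ^ k) ≤ 0 :=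
          mul_nonpos_of_nonneg_of_nonpos (by positivity) hcon
        linarith
      have hlt2 : (r : ℝ) * s * t * Real.log N < 8 * δ * Real.log ((c : ℝ) ^ k) := by
        have h5 : (r : ℝ) * s * t * Real.log N ≤ 8 * (La * Lb * Lc) / Real.log N ^ 2 := by
          have h6 := mul_le_mul_of_nonneg_right hprod hl0.le
          refine h6.trans (le_of_eq ?_)
          field_simp
        refine lt_of_le_of_lt h5 ?_
        rw [div_lt_iff₀ (by positivity)]
        nlinarith
      have hlt3 : (A : ℝ) * (r * s * t) * Real.log N < Real.log ((c : ℝ) ^ k) := by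
        have h5 : 0 < (r : ℝ) * s * t * Real.log N := by
          have hr0 : (0 : ℝ) < r := by exact_mod_cast hr1
          have hs0 : (0 : ℝ) < s := by exact_mod_cast hs1
          have ht0 : (0 : ℝ) < t := by exact_mod_cast ht1
          positivity
        calc (A : ℝ) * (r * s * t) * Real.log N = A * (r * s * t * Real.log N) := by ring
          _ ≤ (A + 1) * (r * s * t * Real.log N) := by
              apply mul_le_mul_of_nonneg_right (by linarith) h5.le
          _ < (A + 1) * (8 * δ * Real.log ((c : ℝ) ^ k)) :=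
              mul_lt_mul_of_pos_left hlt2 (by linarith)
          _ = (8 * δ * (A + 1)) * Real.log ((c : ℝ) ^ k) := by ring
          _ ≤ 1 * Real.log ((c : ℝ) ^ k) := mul_le_mul_of_nonneg_right hδA hlog0.le
          _ = Real.log ((c : ℝ) ^ k) := one_mul _
      have hc0 : (0 : ℝ) < c := by exact_mod_cast hc
      have hfin : ((N ^ (A * (r * s * t)) : ℕ) : ℝ) < ((c ^ k : ℕ) : ℝ) := by
        rw [← Real.log_lt_log_iff (by positivity) (by positivity)]
        rw [Nat.cast_pow, Nat.cast_pow, Real.log_pow]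
        push_cast
        exact hlt3
      exact_mod_cast hfin
    · refine ⟨a, b, c, m, n, k, 1, 1, 1, ha, hb, hc, hab, hbc, hac, hm, hn, hk, le_rfl, le_rfl, le_rfl,
        ?_, ?_, ?_, by rw [pow_one]; exact haN, by rw [pow_one]; exact hbN,
        by rw [pow_one]; exact hcN, heq, Or.inr ⟨rfl, rfl, rfl, ?_⟩, rfl⟩
      · push_cast
        exact Real.one_le_rpow hN1r hδ1.le
      · push_cast
        exact Real.one_le_rpow hN1r hδ1.le
      · push_cast
        exact Real.one_le_rpow hN1r hδ1.le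
      · have hAδ : (A : ℝ) ≤ 1 / δ := by
          rw [le_div_iff₀ hδ0]
          nlinarith
        rcases hK with h | h | h
        · exact Or.inl (by exact_mod_cast hAδ.trans h)
        · exact Or.inr (Or.inl (by exact_mod_cast hAδ.trans h))
        · exact Or.inr (Or.inr (by exact_mod_cast hAδ.trans h))
  refine ⟨hF.subset hsub, le_trans ?_ hC⟩
  exact_mod_cast Set.ncard_le_ncard hsub hF

end Pool.Agent.Work.MP_2738db_nt_B
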