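import Mathlib
import Pool.Agent.Work.MP_2738db_nt_B.WProd

/-!
MP_2738db_nt (the Fermat-Catalan conjecture).

Product theorem.  Write `L(x) = max (log x) (log N)`.  For every `ε > 0` there are `δ > 0` and `N₀`
such that for every `N ≥ N₀` all but at most `N ^ ε` of the value triples `(a ^ m, b ^ n, c ^ k)` of
solutions of `a ^ m + b ^ n = c ^ k` (pairwise coprime bases at most `exp (N ^ δ)`, exponents at
least `2`) satisfy `L(a) L(b) L(c) ≥ δ (log N) ^ 2 log (c ^ k)`, and are not such that all three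
bases are at most `N` and one of the exponents is at least `1 / δ`.
-/

set_option autoImplicit false

namespace Pool.Agent.Work.MP_2738db_nt_B.ProductTheoremFile

theorem product_theorem :
    ∀ ε : ℝ, 0 < ε → ∃ (δ : ℝ) (N₀ : ℕ), 0 < δ ∧ ∀ N : ℕ, N₀ ≤ N →
      {τ : ℕ × ℕ × ℕ | ∃ a b c m n k : ℕ, 0 < a ∧ 0 < b ∧ 0 < c ∧
        (a : ℝ) ≤ Real.exp ((N : ℝ) ^ δ) ∧ (b : ℝ) ≤ Real.exp ((N : ℝ) ^ δ) ∧
        (c : ℝ) ≤ Real.exp ((N : ℝ) ^ δ) ∧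
        Nat.Coprime a b ∧ Nat.Coprime b c ∧ Nat.Coprime a c ∧ 2 ≤ m ∧ 2 ≤ n ∧ 2 ≤ k ∧
        a ^ m + b ^ n = c ^ k ∧
        (max (Real.log a) (Real.log N) * max (Real.log b) (Real.log N) *
            max (Real.log c) (Real.log N) < δ * Real.log N ^ 2 * Real.log ((c : ℝ) ^ k) ∨
          (a ≤ N ∧ b ≤ N ∧ c ≤ N ∧ (1 / δ ≤ m ∨ 1 / δ ≤ n ∨ 1 / δ ≤ k))) ∧
        τ = (a ^ m, b ^ n, c ^ k)}.Finite ∧
      ({τ : ℕ × ℕ × ℕ | ∃ a b c m n k : ℕ, 0 < a ∧ 0 < b ∧ 0 < c ∧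
        (a : ℝ) ≤ Real.exp ((N : ℝ) ^ δ) ∧ (b : ℝ) ≤ Real.exp ((N : ℝ) ^ δ) ∧
        (c : ℝ) ≤ Real.exp ((N : ℝ) ^ δ) ∧
        Nat.Coprime a b ∧ Nat.Coprime b c ∧ Nat.Coprime a c ∧ 2 ≤ m ∧ 2 ≤ n ∧ 2 ≤ k ∧
        a ^ m + b ^ n = c ^ k ∧
        (max (Real.log a) (Real.log N) * max (Real.log b) (Real.log N) *
            max (Real.log c) (Real.log N) < δ * Real.log N ^ 2 * Real.log ((c : ℝ) ^ k) ∨
          (a ≤ N ∧ b ≤ N ∧ c ≤ N ∧ (1 / δ ≤ m ∨ 1 / δ ≤ n ∨ 1 / δ ≤ k))) ∧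
        τ = (a ^ m, b ^ n, c ^ k)}.ncard : ℝ) ≤ (N : ℝ) ^ ε :=
  Pool.Agent.Work.MP_2738db_nt_B.product

end Pool.Agent.Work.MP_2738db_nt_B.ProductTheoremFile
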