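import Pool.Agent.Work.MP_2738db_nt_T.LevL01

set_option autoImplicit false

/-!
# Weighted boxes: base file

Points `(x, y, z)` on `x ^ m + y ^ n = z ^ k` with `x ≤ N ^ θ₀`, `y ≤ N ^ θ₁`, `z ≤ N ^ θ₂`, all three
weights `θ i ≥ 1` arbitrary, and `z ^ (k - 1) > N ^ (A θ₀ θ₁ θ₂)`.
-/

namespace Pool.Agent.Work.MP_2738db_nt_B

open MvPolynomial Pool.Agent.Work.MP_2738db_nt_T

/-- the product of the weights -/
def Th (θ : Fin 3 → ℕ) : ℕ := θ 0 * θ 1 * θ 2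

/-- the sizes of the coordinates -/
def szW (N : ℕ) (θ : Fin 3 → ℕ) : Fin 3 → ℕ := fun i => N ^ θ i

/-- the points counted for one signature and one triple of weights -/
structure GoodW (N : ℕ) (θ : Fin 3 → ℕ) (A m n k : ℕ) (P : Pt) : Prop where
  pos : ∀ i, 0 < P i
  le : ∀ i, P i ≤ (N : ℤ) ^ θ i
  c01 : IsCoprime (P 0) (P 1)
  c12 : IsCoprime (P 1) (P 2)
  c02 : IsCoprime (P 0) (P 2)
  eq : P 0 ^ m + P 1 ^ n = P 2 ^ k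
  big : (N : ℤ) ^ (A * Th θ) < P 2 ^ (k - 1)

/-- bounds for weights and exponents -/
structure Small (W M Q : ℕ) (θ : Fin 3 → ℕ) (m n k : ℕ) : Prop where
  hW1 : 1 ≤ W
  hWM : W ^ 4 ≤ M
  hMM : M * M ≤ Q
  θ1 : ∀ i, 1 ≤ θ i
  θW : ∀ i, θ i ≤ W
  m1 : 1 ≤ m
  mW : m ≤ W
  n1 : 1 ≤ n
  nW : n ≤ W
  k1 : 1 ≤ k
  kW : k ≤ W

lemma Small.W_le_M {W M Q : ℕ} {θ : Fin 3 → ℕ} {m n k : ℕ} (h : Small W M Q θ m n k) : W ≤ M :=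
  (Nat.le_self_pow (by norm_num) W).trans h.hWM

lemma Small.Th_pos {W M Q : ℕ} {θ : Fin 3 → ℕ} {m n k : ℕ} (h : Small W M Q θ m n k) : 1 ≤ Th θ :=
  Nat.mul_pos (Nat.mul_pos (h.θ1 0) (h.θ1 1)) (h.θ1 2)

lemma Small.Th_le {W M Q : ℕ} {θ : Fin 3 → ℕ} {m n k : ℕ} (h : Small W M Q θ m n k) : Th θ ≤ W ^ 3 := by
  have := h.θW 0
  have := h.θW 1
  have := h.θW 2
  calc Th θ = θ 0 * θ 1 * θ 2 := rfl
    _ ≤ W * W * W := by gcongr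
    _ = W ^ 3 := by ring

lemma Small.Th_le_M {W M Q : ℕ} {θ : Fin 3 → ℕ} {m n k : ℕ} (h : Small W M Q θ m n k) : Th θ ≤ M :=
  h.Th_le.trans ((Nat.pow_le_pow_right h.hW1 (by norm_num)).trans h.hWM)

/-- each product of two weights is at most the product of all weights -/
lemma Small.pair01 {W M Q : ℕ} {θ : Fin 3 → ℕ} {m n k : ℕ} (h : Small W M Q θ m n k) :
    θ 0 * θ 1 ≤ Th θ := Nat.le_mul_of_pos_right _ (h.θ1 2)

lemma Small.pair02 {W M Q : ℕ} {θ : Fin 3 → ℕ} {m n k : ℕ} (h : Small W M Q θ m n k) :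
    θ 0 * θ 2 ≤ Th θ := by
  have h1 := h.θ1 1
  calc θ 0 * θ 2 = θ 0 * 1 * θ 2 := by ring
    _ ≤ θ 0 * θ 1 * θ 2 := by gcongr
    _ = Th θ := rfl

lemma Small.pair12 {W M Q : ℕ} {θ : Fin 3 → ℕ} {m n k : ℕ} (h : Small W M Q θ m n k) :
    θ 1 * θ 2 ≤ Th θ := by
  have h1 := h.θ1 0
  calc θ 1 * θ 2 = 1 * θ 1 * θ 2 := by ring
    _ ≤ θ 0 * θ 1 * θ 2 := by gcongr
    _ = Th θ := rfl

lemma GoodW.abs_le {N : ℕ} {θ : Fin 3 → ℕ} {A m n k : ℕ} {P : Pt} (h : GoodW N θ A m n k P) :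
    ∀ i, |P i| ≤ (szW N θ i : ℤ) := by
  intro i
  rw [abs_of_pos (h.pos i)]
  show P i ≤ ((N ^ θ i : ℕ) : ℤ)
  rw [Nat.cast_pow]
  exact h.le i

lemma one_le_szW {N : ℕ} {θ : Fin 3 → ℕ} (hN : 1 ≤ N) : ∀ i, 1 ≤ szW N θ i :=
  fun _ => Nat.one_le_pow _ _ hN

lemma GoodW.eval_FL {N : ℕ} {θ : Fin 3 → ℕ} {A m n k : ℕ} {P : Pt} (h : GoodW N θ A m n k P) :
    eval P (FL m n k 1 1) = 0 := by
  rw [Pool.Agent.Work.MP_2738db_nt_T.eval_FL, one_mul, one_mul, h.eq, sub_self]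

lemma GoodW.mono {N : ℕ} {θ : Fin 3 → ℕ} {A A' m n k : ℕ} {P : Pt} (h : GoodW N θ A m n k P)
    (hN : 1 ≤ N) (hA : A' ≤ A) : GoodW N θ A' m n k P :=
  ⟨h.pos, h.le, h.c01, h.c12, h.c02, h.eq,
    lt_of_le_of_lt (pow_le_pow_right₀ (by exact_mod_cast hN) (Nat.mul_le_mul_right _ hA)) h.big⟩

/-- smallness with respect to `N` -/
lemma small_mul {L E N Q M : ℕ} {PP : Finset ℕ} (h : Env L E N Q M PP) (hL : 1 ≤ L) (hMM : M * M ≤ Q)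
    {c t : ℕ} (ht : t ≤ M) (hN : 4 * (c + 1) ^ 2 * 2 ^ L ≤ N) : t * c + 1 ≤ N :=
  h.small hL hMM ht hN

/-- terms of the gradient -/
lemma gradW_le {N W : ℕ} {e t : ℕ} {x : ℤ} (he : e ≤ W) (ht : t ≤ W) (hN : 1 ≤ N)
    (hx0 : 0 < x) (hx : x ≤ (N : ℤ) ^ t) (hWN : W ≤ N) :
    |(e : ℤ) * x ^ (e - 1)| ≤ (N : ℤ) ^ (W ^ 2 + 2) := by
  rw [abs_of_nonneg (by positivity)]
  have hN1 : (1 : ℤ) ≤ N := by exact_mod_cast hN
  have h1 : (e : ℤ) ≤ (N : ℤ) ^ 2 := by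
    calc (e : ℤ) ≤ N := by exact_mod_cast he.trans hWN
      _ ≤ (N : ℤ) ^ 2 := le_self_pow₀ hN1 (by norm_num)
  have h2 : x ^ (e - 1) ≤ (N : ℤ) ^ (W ^ 2) := by
    calc x ^ (e - 1) ≤ ((N : ℤ) ^ t) ^ (e - 1) := pow_le_pow_left₀ hx0.le hx _
      _ = (N : ℤ) ^ (t * (e - 1)) := by rw [← pow_mul]
      _ ≤ (N : ℤ) ^ (W ^ 2) := by
          apply pow_le_pow_right₀ hN1
          calc t * (e - 1) ≤ W * W := Nat.mul_le_mul ht (by omega)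
            _ = W ^ 2 := by ring
  calc (e : ℤ) * x ^ (e - 1) ≤ (N : ℤ) ^ 2 * (N : ℤ) ^ (W ^ 2) :=
        mul_le_mul h1 h2 (by positivity) (by positivity)
    _ = (N : ℤ) ^ (W ^ 2 + 2) := by rw [← pow_add, add_comm]

/-- general auxiliary polynomial lemma in a box `d`, coefficients at most `N ^ w` -/
lemma auxCoreW (hA : Stmt_AuxGen) {L E N Q M : ℕ} {PP : Finset ℕ} (hEnv : Env L E N Q M PP)
    (hL : 1 ≤ L) {p : ℕ} (hp : p ∈ PP) (hN6 : 6 ^ L ≤ N) {r : ℕ}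
    (piv : Fin r → Fin 3) (hpiv : Function.Injective piv) (F : Fin r → MvPolynomial (Fin 3) ℤ)
    (S : Finset Pt) (θ : Fin 3 → ℕ) (hbox : ∀ P ∈ S, ∀ i, |P i| ≤ (szW N θ i : ℤ))
    (hcong : ∀ P ∈ S, ∀ Q ∈ S, ∀ i, (p : ℤ) ∣ P i - Q i)
    (hvan : ∀ P ∈ S, ∀ ρ, eval P (F ρ) = 0)
    (hdet : ∀ P ∈ S, ¬ (p : ℤ) ∣ (Matrix.of fun ρ σ => eval P (pderiv (piv σ) (F ρ))).det)
    (d : Fin 3 → ℕ) (w e : ℕ) (he : θ 0 * d 0 + θ 1 * d 1 + θ 2 * d 2 ≤ e)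
    (hc : (d 0 + 1) * (d 1 + 1) * (d 2 + 1) ≤ N ^ 2)
    (hcount : 2 * (w + e + 2) * (L * (w + e + 2)) ^ (3 - r) ≤ w * ((d 0 + 1) * (d 1 + 1) * (d 2 + 1))) :
    ∃ φ : MvPolynomial (Fin 3) ℤ, φ ≠ 0 ∧ BddB d (N ^ w) φ ∧ ∀ P ∈ S, eval P φ = 0 := by
  have hN1 : 1 ≤ N := le_trans (Nat.one_le_pow _ _ (by norm_num)) hN6
  obtain ⟨G, h1, h2, h3, h4⟩ := hA r piv F p (L * (w + e + 2)) (N ^ w) (N ^ e) (S : Set Pt)
    (boxM d) hpiv (hEnv.prime p hp) (Nat.mul_pos hL (by positivity))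
    (fun P hP Q hQ => hcong P hP Q hQ) (fun P hP => hvan P hP)
    (fun P hP => hdet P hP)
    (fun P hP β hβ => by
      refine (abs_mono_le (one_le_szW hN1) (hbox P hP) (mem_boxM hβ)).trans ?_
      have : szW N θ 0 ^ d 0 * szW N θ 1 ^ d 1 * szW N θ 2 ^ d 2 ≤ N ^ e := by
        have e1 : szW N θ 0 ^ d 0 * szW N θ 1 ^ d 1 * szW N θ 2 ^ d 2
            = N ^ (θ 0 * d 0 + θ 1 * d 1 + θ 2 * d 2) := by
          show (N ^ θ 0) ^ d 0 * (N ^ θ 1) ^ d 1 * (N ^ θ 2) ^ d 2 = _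
          rw [← pow_mul, ← pow_mul, ← pow_mul, ← pow_add, ← pow_add]
        rw [e1]
        exact Nat.pow_le_pow_right hN1 he
      exact_mod_cast this)
    (by
      rw [card_boxM]
      have e1 : (p ^ (L * (w + e + 2))) ^ ((L * (w + e + 2)) ^ (3 - r))
          = (p ^ L) ^ ((w + e + 2) * (L * (w + e + 2)) ^ (3 - r)) := by
        rw [← pow_mul, ← pow_mul]; congr 1; ring
      rw [e1]
      calc (p ^ L) ^ ((w + e + 2) * (L * (w + e + 2)) ^ (3 - r))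
            ≤ (N ^ 2) ^ ((w + e + 2) * (L * (w + e + 2)) ^ (3 - r)) :=
            Nat.pow_le_pow_left (hEnv.p_pow_leL hp hN6) _
        _ = N ^ (2 * (w + e + 2) * (L * (w + e + 2)) ^ (3 - r)) := by rw [← pow_mul]; congr 1; ring
        _ ≤ N ^ (w * ((d 0 + 1) * (d 1 + 1) * (d 2 + 1))) := Nat.pow_le_pow_right hN1 hcount
        _ = (N ^ w) ^ ((d 0 + 1) * (d 1 + 1) * (d 2 + 1)) := by rw [pow_mul]
        _ < (N ^ w + 1) ^ ((d 0 + 1) * (d 1 + 1) * (d 2 + 1)) :=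
            Nat.pow_lt_pow_left (Nat.lt_succ_self _) (by positivity))
    (by
      rw [card_boxM]
      have e2 := hEnv.sizeL hp hL (c := (d 0 + 1) * (d 1 + 1) * (d 2 + 1)) (e := w + e) hc
      refine lt_of_eq_of_lt ?_ e2
      rw [mul_assoc, ← pow_add])
  exact ⟨G, h1, ⟨fun β hβ i => mem_boxM (h2 β hβ) i, h3⟩, h4⟩

/-- value bound for polynomials in a box -/
lemma evalW_le (hE : Stmt_BddBEval) {d : Fin 3 → ℕ} {H h e N : ℕ} {θ : Fin 3 → ℕ}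
    {G : MvPolynomial (Fin 3) ℤ}
    {P : Pt} (hG : BddB d H G) (hN : 1 ≤ N) (hP : ∀ i, |P i| ≤ (szW N θ i : ℤ)) (hH : H ≤ N ^ h)
    (hc : (d 0 + 1) * (d 1 + 1) * (d 2 + 1) ≤ N ^ 2)
    (he : θ 0 * d 0 + θ 1 * d 1 + θ 2 * d 2 ≤ e) :
    |eval P G| ≤ (N : ℤ) ^ (2 + h + e) := by
  refine (hE d (szW N θ) H G P hG (one_le_szW hN) hP).trans ?_
  have e1 : szW N θ 0 ^ d 0 * szW N θ 1 ^ d 1 * szW N θ 2 ^ d 2
      = N ^ (θ 0 * d 0 + θ 1 * d 1 + θ 2 * d 2) := by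
    show (N ^ θ 0) ^ d 0 * (N ^ θ 1) ^ d 1 * (N ^ θ 2) ^ d 2 = _
    rw [← pow_mul, ← pow_mul, ← pow_mul, ← pow_add, ← pow_add]
  have : (d 0 + 1) * (d 1 + 1) * (d 2 + 1) * H * (szW N θ 0 ^ d 0 * szW N θ 1 ^ d 1 * szW N θ 2 ^ d 2)
      ≤ N ^ (2 + h + e) := by
    rw [e1]
    calc _ ≤ N ^ 2 * N ^ h * N ^ e := by
          apply Nat.mul_le_mul (Nat.mul_le_mul hc hH)
          exact Nat.pow_le_pow_right hN he
      _ = N ^ (2 + h + e) := by rw [pow_add, pow_add]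
  exact_mod_cast this

/-- the box at level 0 -/
def box0 (θ : Fin 3 → ℕ) (D : ℕ) : Fin 3 → ℕ := ![θ 1 * θ 2 * D, θ 0 * θ 2 * D, θ 0 * θ 1 * D]

lemma box0_size (θ : Fin 3 → ℕ) (D : ℕ) :
    θ 0 * box0 θ D 0 + θ 1 * box0 θ D 1 + θ 2 * box0 θ D 2 = 3 * (Th θ * D) := by
  show θ 0 * (θ 1 * θ 2 * D) + θ 1 * (θ 0 * θ 2 * D) + θ 2 * (θ 0 * θ 1 * D) = _
  unfold Th
  ring

/-- a box with entries `a D, b D, c D` with `a b c` at most `M ^ 2`, has few monomials. -/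
lemma cnt_le {L E N Q M : ℕ} {PP : Finset ℕ} (h : Env L E N Q M PP) (hL : 1 ≤ L) (hMM : M * M ≤ Q)
    {a b c D : ℕ} (ha : 1 ≤ a) (hb : 1 ≤ b) (hc : 1 ≤ c) (habc : a * b * c ≤ M * M)
    (hN : 8 ^ L * (D + 1) ^ 6 ≤ N) :
    (a * D + 1) * (b * D + 1) * (c * D + 1) ≤ N ^ 2 := by
  have hQ := h.Q_le hL
  have e1 : ∀ t : ℕ, 1 ≤ t → t * D + 1 ≤ t * (D + 1) := fun t ht => by rw [mul_add]; omega
  have h1 : (a * D + 1) * (b * D + 1) * (c * D + 1) ≤ (a * b * c) * (D + 1) ^ 3 := by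
    calc (a * D + 1) * (b * D + 1) * (c * D + 1) ≤ (a * (D + 1)) * (b * (D + 1)) * (c * (D + 1)) := by
          gcongr
          · exact e1 a ha
          · exact e1 b hb
          · exact e1 c hc
      _ = (a * b * c) * (D + 1) ^ 3 := by ring
  have h2 : (a * b * c) * (D + 1) ^ 3 ≤ (2 ^ L * N) * (D + 1) ^ 3 :=
    Nat.mul_le_mul_right _ (habc.trans (hMM.trans hQ))
  have h3 : 2 ^ L * (D + 1) ^ 3 ≤ 8 ^ L * (D + 1) ^ 6 := by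
    apply Nat.mul_le_mul
    · exact Nat.pow_le_pow_left (by norm_num) _
    · exact Nat.pow_le_pow_right (by omega) (by norm_num)
  calc (a * D + 1) * (b * D + 1) * (c * D + 1) ≤ (2 ^ L * N) * (D + 1) ^ 3 := h1.trans h2
    _ = (2 ^ L * (D + 1) ^ 3) * N := by ring
    _ ≤ N * N := Nat.mul_le_mul_right _ (h3.trans hN)
    _ = N ^ 2 := by ring

end Pool.Agent.Work.MP_2738db_nt_B
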