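import Pool.Agent.Work.MP_2738db_nt_B.WPart1

set_option autoImplicit false

/-!
# Part 2, case of two large exponents
-/

namespace Pool.Agent.Work.MP_2738db_nt_B

open MvPolynomial Pool.Agent.Work.MP_2738db_nt_T

/-- the choice of the weights -/
lemma weights {N b c n k V A K : ℕ} {κ : ℝ} (hN : 2 ≤ N) (hb : 2 ≤ b) (hc : 2 ≤ c) (hK : 1 ≤ K)
    (hKn : K ≤ n) (hKk : K ≤ k) (hκ : 0 < κ) (hA : 2 * (A : ℝ) * (κ + 3 / K) < 1)
    (hbV : b ^ n ≤ V) (hcV : c ^ k ≤ V) (hV : (V : ℝ) ≤ (N : ℝ) ^ (κ * n * k))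
    (hor : N < b ∨ N < c) :
    ∃ s t : ℕ, 1 ≤ s ∧ 1 ≤ t ∧ b ≤ N ^ s ∧ c ≤ N ^ t ∧ (s : ℝ) ≤ κ * k + 1 ∧ (t : ℝ) ≤ κ * n + 1 ∧
      N ^ (2 * A * (s * t)) < V := by
  have hNr : (2 : ℝ) ≤ N := by exact_mod_cast hN
  have hNpos : (0 : ℝ) < N := by linarith
  set l : ℝ := Real.log N with hl
  have hl0 : 0 < l := Real.log_pos (by linarith)
  have hn1 : 1 ≤ n := hK.trans hKn
  have hk1 : 1 ≤ k := hK.trans hKk
  have hn0 : (0 : ℝ) < n := by exact_mod_cast hn1
  have hk0 : (0 : ℝ) < k := by exact_mod_cast hk1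
  have hK0 : (0 : ℝ) < K := by exact_mod_cast hK
  have hKn' : (K : ℝ) ≤ n := by exact_mod_cast hKn
  have hKk' : (K : ℝ) ≤ k := by exact_mod_cast hKk
  have hV1 : 1 ≤ V := le_trans (Nat.one_le_pow _ _ (by omega)) hbV
  have hV0 : (0 : ℝ) < V := by exact_mod_cast hV1
  have hb0 : (0 : ℝ) < b := by exact_mod_cast (by omega : 0 < b)
  have hc0 : (0 : ℝ) < c := by exact_mod_cast (by omega : 0 < c)
  set β : ℝ := Real.log b / l with hβ
  set γ : ℝ := Real.log c / l with hγ
  set lam : ℝ := Real.log V / l with hlam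
  have hlogb : 0 < Real.log b := Real.log_pos (by exact_mod_cast (by omega : 1 < b))
  have hlogc : 0 < Real.log c := Real.log_pos (by exact_mod_cast (by omega : 1 < c))
  have hβ0 : 0 < β := div_pos hlogb hl0
  have hγ0 : 0 < γ := div_pos hlogc hl0
  have hnβ : n * β ≤ lam := by
    rw [hβ, hlam, mul_div_assoc']
    apply div_le_div_of_nonneg_right _ hl0.le
    rw [← Real.log_pow]
    apply Real.log_le_log (by positivity)
    exact_mod_cast hbV
  have hkγ : k * γ ≤ lam := by
    rw [hγ, hlam, mul_div_assoc']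
    apply div_le_div_of_nonneg_right _ hl0.le
    rw [← Real.log_pow]
    apply Real.log_le_log (by positivity)
    exact_mod_cast hcV
  have hlamle : lam ≤ κ * n * k := by
    rw [hlam, div_le_iff₀ hl0]
    have h1 := Real.log_le_log hV0 hV
    rwa [Real.log_rpow hNpos] at h1
  have hlamK : (K : ℝ) < lam := by
    rcases hor with h | h
    · have h1 : 1 < β := by
        rw [hβ, one_lt_div hl0]
        apply Real.log_lt_log hNpos
        exact_mod_cast h
      nlinarith
    · have h1 : 1 < γ := by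
        rw [hγ, one_lt_div hl0]
        apply Real.log_lt_log hNpos
        exact_mod_cast h
      nlinarith
  have hlam0 : 0 < lam := hK0.trans hlamK
  have hβle : β ≤ lam / n := by
    rw [le_div_iff₀ hn0]
    linarith
  have hγle : γ ≤ lam / k := by
    rw [le_div_iff₀ hk0]
    linarith
  have hs1 : ((⌈β⌉₊ : ℕ) : ℝ) < β + 1 := Nat.ceil_lt_add_one hβ0.le
  have ht1 : ((⌈γ⌉₊ : ℕ) : ℝ) < γ + 1 := Nat.ceil_lt_add_one hγ0.le
  have hsz : ∀ u : ℕ, (0 : ℝ) < u → u ≤ N ^ ⌈Real.log u / l⌉₊ := by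
    intro u hu
    have h1 : Real.log u / l ≤ ⌈Real.log u / l⌉₊ := Nat.le_ceil _
    rw [div_le_iff₀ hl0] at h1
    have h2 : (u : ℝ) ≤ (N : ℝ) ^ ⌈Real.log u / l⌉₊ := by
      rw [← Real.log_le_log_iff hu (by positivity), Real.log_pow]
      exact h1
    exact_mod_cast h2
  refine ⟨⌈β⌉₊, ⌈γ⌉₊, ?_, ?_, hsz b hb0, hsz c hc0, ?_, ?_, ?_⟩
  · exact Nat.ceil_pos.mpr hβ0
  · exact Nat.ceil_pos.mpr hγ0
  · have h1 : lam / n ≤ κ * k := by
      rw [div_le_iff₀ hn0]
      linarith
    linarith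
  · have h1 : lam / k ≤ κ * n := by
      rw [div_le_iff₀ hk0]
      linarith
    linarith
  · have hprod : ((⌈β⌉₊ : ℕ) : ℝ) * ((⌈γ⌉₊ : ℕ) : ℝ) ≤ lam * (κ + 3 / K) := by
      have h1 : ((⌈β⌉₊ : ℕ) : ℝ) * ((⌈γ⌉₊ : ℕ) : ℝ) ≤ (lam / n + 1) * (lam / k + 1) := by
        apply mul_le_mul (by linarith) (by linarith) (by positivity) (by positivity)
      have h2 : (lam / n) * (lam / k) ≤ κ * lam := by
        have h3 : (lam / n) * (lam / k) = lam * (lam / (n * k)) := by field_simp
        rw [h3]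
        have h4 : lam / (n * k) ≤ κ := by
          rw [div_le_iff₀ (by positivity)]
          linarith
        nlinarith
      have h5 : lam / n ≤ lam / K := div_le_div_of_nonneg_left hlam0.le hK0 hKn'
      have h6 : lam / k ≤ lam / K := div_le_div_of_nonneg_left hlam0.le hK0 hKk'
      have h7 : 1 ≤ lam / K := by
        rw [le_div_iff₀ hK0]
        linarith
      have h8 : lam * (κ + 3 / K) = κ * lam + 3 * (lam / K) := by
        field_simp
      rw [h8]
      nlinarith
    have hlt : 2 * (A : ℝ) * (((⌈β⌉₊ : ℕ) : ℝ) * ((⌈γ⌉₊ : ℕ) : ℝ)) < lam := by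
      have h1 : 2 * (A : ℝ) * (((⌈β⌉₊ : ℕ) : ℝ) * ((⌈γ⌉₊ : ℕ) : ℝ))
          ≤ 2 * (A : ℝ) * (lam * (κ + 3 / K)) := by gcongr
      have h2 : 2 * (A : ℝ) * (lam * (κ + 3 / K)) = lam * (2 * (A : ℝ) * (κ + 3 / K)) := by ring
      rw [h2] at h1
      nlinarith
    have hfin : ((N ^ (2 * A * (⌈β⌉₊ * ⌈γ⌉₊)) : ℕ) : ℝ) < V := by
      rw [← Real.log_lt_log_iff (by positivity) hV0]
      rw [Nat.cast_pow, Real.log_pow]
      push_cast
      rw [hlam, lt_div_iff₀ hl0] at hlt
      linarith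
    exact_mod_cast hfin

/-- the three forms of the equation -/
def Eq3 (a b c m n k : ℕ) : Prop :=
  a ^ m + b ^ n = c ^ k ∨ b ^ n + c ^ k = a ^ m ∨ c ^ k + a ^ m = b ^ n

/-- Case of two large exponents: only few values of `a`. -/
theorem caseA (ε : ℝ) (hε : 0 < ε) : ∃ (K : ℕ) (κ η : ℝ) (N0 : ℕ), 1 ≤ K ∧ 0 < κ ∧ 0 < η ∧
    ∀ N : ℕ, N0 ≤ N → ∃ S : Finset ℕ, (S.card : ℝ) ≤ (N : ℝ) ^ ε ∧
      ∀ a b c m n k : ℕ, 2 ≤ a → a ≤ N → 2 ≤ b → 2 ≤ c → Nat.Coprime a b → Nat.Coprime b c →
        Nat.Coprime a c → 2 ≤ m → 2 ≤ n → 2 ≤ k → K ≤ n → K ≤ k → (n : ℝ) ≤ (N : ℝ) ^ η →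
        (k : ℝ) ≤ (N : ℝ) ^ η → Eq3 a b c m n k → ((a ^ m : ℕ) : ℝ) ≤ (N : ℝ) ^ (κ * n * k) →
        ((b ^ n : ℕ) : ℝ) ≤ (N : ℝ) ^ (κ * n * k) → ((c ^ k : ℕ) : ℝ) ≤ (N : ℝ) ^ (κ * n * k) →
        a ∈ S := by
  obtain ⟨K1, CB, hB⟩ := main_box (ε / 4) (by positivity)
  obtain ⟨A, C, δ1, N1, hδ1, hC0, hcore⟩ := core (ε / 4) (by positivity)
  set K : ℕ := K1 + 16 * A + 1 with hK
  set κ : ℝ := 1 / (8 * ((A : ℝ) + 1)) with hκ
  set η : ℝ := min (δ1 / 4) (ε / 16) with hη
  have hκ0 : 0 < κ := by positivity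
  have hκ1 : κ ≤ 1 := by
    rw [hκ, div_le_one (by positivity)]
    have : (0 : ℝ) ≤ A := Nat.cast_nonneg _
    linarith
  have hη0 : 0 < η := lt_min (by positivity) (by positivity)
  have hη1 : 4 * η ≤ δ1 := by
    have := min_le_left (δ1 / 4) (ε / 16)
    rw [← hη] at this
    linarith
  have hη2 : 4 * η ≤ ε / 4 := by
    have := min_le_right (δ1 / 4) (ε / 16)
    rw [← hη] at this
    linarith
  have hA : 2 * (A : ℝ) * (κ + 3 / K) < 1 := by
    have hA0 : (0 : ℝ) ≤ A := Nat.cast_nonneg _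
    have h1 : 2 * (A : ℝ) * κ ≤ 1 / 4 := by
      rw [hκ, mul_one_div, div_le_iff₀ (by positivity)]
      linarith
    have h2 : 2 * (A : ℝ) * (3 / K) ≤ 3 / 8 := by
      have hKr : (16 * (A : ℝ) + 1) ≤ K := by
        rw [hK]; push_cast
        have : (0 : ℝ) ≤ K1 := Nat.cast_nonneg _
        linarith
      have hK0 : (0 : ℝ) < K := by linarith
      have h3 : 2 * (A : ℝ) * (3 / K) = (6 * A) / K := by ring
      rw [h3, div_le_iff₀ hK0]
      linarith
    calc 2 * (A : ℝ) * (κ + 3 / K) = 2 * (A : ℝ) * κ + 2 * (A : ℝ) * (3 / K) := by ring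
      _ < 1 := by linarith
  obtain ⟨N2, hN2⟩ := large_rpow hη0 2
  obtain ⟨N3, hN3⟩ := large_log hη0
  obtain ⟨N4, hN4⟩ := large_rpow (show 0 < ε / 4 by positivity) (3 * |CB| + 3 * C)
  refine ⟨K, κ, η, N1 + N2 + N3 + N4 + 3, by omega, hκ0, hη0, ?_⟩
  intro N hN
  classical
  have hN1 : 1 ≤ N := by omega
  have hNge2 : 2 ≤ N := by omega
  have hN1r : (1 : ℝ) ≤ N := by exact_mod_cast hN1
  have hNpos : (0 : ℝ) < N := by linarith
  obtain ⟨F, hFc, hF⟩ := hcore N (by omega)
  obtain ⟨hVF, hVC⟩ : (V K1 N).Finite ∧ ((V K1 N).ncard : ℝ) ≤ CB * (N : ℝ) ^ (ε / 4) := hB N hN1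
  have h2η := hN2 N (by omega)
  have hlogη := hN3 N (by omega)
  set y : ℝ := (N : ℝ) ^ η with hy
  have hy1 : 1 ≤ y := by linarith
  have hy4 : y ^ 4 ≤ (N : ℝ) ^ δ1 := by
    rw [hy, ← Real.rpow_natCast, ← Real.rpow_mul hNpos.le]
    apply Real.rpow_le_rpow_of_exponent_le hN1r
    push_cast
    linarith
  have hyδ : y * y ≤ (N : ℝ) ^ δ1 := by
    refine le_trans ?_ hy4
    calc y * y = y ^ 2 := by ring
      _ ≤ y ^ 4 := pow_le_pow_right₀ hy1 (by norm_num)
  have hy4' : y ^ 4 ≤ (N : ℝ) ^ (ε / 4) := by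
    rw [hy, ← Real.rpow_natCast, ← Real.rpow_mul hNpos.le]
    apply Real.rpow_le_rpow_of_exponent_le hN1r
    push_cast
    linarith
  set M : ℕ := ⌊y ^ 4⌋₊ with hM
  -- the labels for the small box
  set T : Finset ((ℕ × ℕ × ℕ) × ℕ) := hVF.toFinset ×ˢ Finset.Icc 1 M with hT
  set Sb : Finset ℕ := (Finset.Icc 1 N).filter (fun a => ∃ l ∈ T,
    a ^ l.2 = l.1.1 ∨ a ^ l.2 = l.1.2.1 ∨ a ^ l.2 = l.1.2.2) with hSb
  have hSbc : Sb.card ≤ T.card * 3 := by
    apply card_le_of_rel Sb T (fun a l => 1 ≤ l.2 ∧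
      (a ^ l.2 = l.1.1 ∨ a ^ l.2 = l.1.2.1 ∨ a ^ l.2 = l.1.2.2)) 3
    · intro a ha
      obtain ⟨-, l, hl, hl2⟩ := Finset.mem_filter.mp ha
      refine ⟨l, hl, ?_, hl2⟩
      rw [hT, Finset.mem_product, Finset.mem_Icc] at hl
      exact hl.2.1
    · intro l hl S' _ hR
      by_cases hl2 : 1 ≤ l.2
      · have hsub : S'.image (fun a => a ^ l.2) ⊆ {l.1.1, l.1.2.1, l.1.2.2} := by
          intro v hv
          obtain ⟨a, ha, rfl⟩ := Finset.mem_image.mp hv
          have := (hR a ha).2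
          simp only [Finset.mem_insert, Finset.mem_singleton]
          exact this
        have hinj : Set.InjOn (fun a : ℕ => a ^ l.2) (S' : Set ℕ) := by
          intro u _ v _ huv
          exact Nat.pow_left_injective (Nat.one_le_iff_ne_zero.mp hl2) huv
        calc S'.card = (S'.image (fun a => a ^ l.2)).card := (Finset.card_image_of_injOn hinj).symm
          _ ≤ ({l.1.1, l.1.2.1, l.1.2.2} : Finset ℕ).card := Finset.card_le_card hsub
          _ ≤ 3 := Finset.card_le_three
      · have : S' = ∅ := by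
          rw [Finset.eq_empty_iff_forall_notMem]
          intro a ha
          exact hl2 (hR a ha).1
        rw [this, Finset.card_empty]
        exact Nat.zero_le _
  refine ⟨F.image (fun x => (x.1 0).toNat) ∪ (F.image (fun x => (x.1 1).toNat) ∪
    (F.image (fun x => (x.1 2).toNat) ∪ Sb)), ?_, ?_⟩
  · have h1 := Finset.card_union_le (F.image (fun x => (x.1 0).toNat))
      (F.image (fun x => (x.1 1).toNat) ∪ (F.image (fun x => (x.1 2).toNat) ∪ Sb))
    have h2 := Finset.card_union_le (F.image (fun x => (x.1 1).toNat))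
      (F.image (fun x => (x.1 2).toNat) ∪ Sb)
    have h3 := Finset.card_union_le (F.image (fun x => (x.1 2).toNat)) Sb
    have h4 := Finset.card_image_le (s := F) (f := fun x => (x.1 0).toNat)
    have h5 := Finset.card_image_le (s := F) (f := fun x => (x.1 1).toNat)
    have h6 := Finset.card_image_le (s := F) (f := fun x => (x.1 2).toNat)
    have h7 : T.card = (V K1 N).ncard * M := by
      rw [hT, Finset.card_product, Nat.card_Icc, Nat.add_sub_cancel,
        Set.ncard_eq_toFinset_card _ hVF]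
    have h8 : (F.image (fun x => (x.1 0).toNat) ∪ (F.image (fun x => (x.1 1).toNat) ∪
        (F.image (fun x => (x.1 2).toNat) ∪ Sb))).card ≤ 3 * F.card + 3 * ((V K1 N).ncard * M) := by
      rw [← h7]
      omega
    have h9 : (((F.image (fun x => (x.1 0).toNat) ∪ (F.image (fun x => (x.1 1).toNat) ∪
        (F.image (fun x => (x.1 2).toNat) ∪ Sb))).card : ℕ) : ℝ)
        ≤ 3 * (F.card : ℝ) + 3 * (((V K1 N).ncard : ℝ) * M) := by exact_mod_cast h8
    have hMle : (M : ℝ) ≤ (N : ℝ) ^ (ε / 4) := (Nat.floor_le (by positivity)).trans hy4'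
    have h0 : 0 ≤ (N : ℝ) ^ (ε / 4) := by positivity
    have h01 : 1 ≤ (N : ℝ) ^ (ε / 4) := Real.one_le_rpow hN1r (by positivity)
    have h10 : ((V K1 N).ncard : ℝ) ≤ |CB| * (N : ℝ) ^ (ε / 4) :=
      hVC.trans (mul_le_mul_of_nonneg_right (le_abs_self _) h0)
    have h11 := hN4 N (by omega)
    refine h9.trans ?_
    calc 3 * (F.card : ℝ) + 3 * (((V K1 N).ncard : ℝ) * M)
        ≤ 3 * (C * (N : ℝ) ^ (ε / 4)) + 3 * ((|CB| * (N : ℝ) ^ (ε / 4)) * (N : ℝ) ^ (ε / 4)) := by
          gcongr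
      _ ≤ 3 * (C * (N : ℝ) ^ (ε / 4) * (N : ℝ) ^ (ε / 4))
          + 3 * ((|CB| * (N : ℝ) ^ (ε / 4)) * (N : ℝ) ^ (ε / 4)) := by
          have : C * (N : ℝ) ^ (ε / 4) ≤ C * (N : ℝ) ^ (ε / 4) * (N : ℝ) ^ (ε / 4) :=
            le_mul_of_one_le_right (by positivity) h01
          linarith
      _ = (3 * |CB| + 3 * C) * ((N : ℝ) ^ (ε / 4) * (N : ℝ) ^ (ε / 4)) := by ring
      _ ≤ (N : ℝ) ^ (ε / 4) * ((N : ℝ) ^ (ε / 4) * (N : ℝ) ^ (ε / 4)) := by gcongr
      _ = (N : ℝ) ^ (ε / 4 + (ε / 4 + ε / 4)) := by rw [Real.rpow_add hNpos, Real.rpow_add hNpos]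
      _ ≤ (N : ℝ) ^ ε := by
          apply Real.rpow_le_rpow_of_exponent_le hN1r
          linarith
  · intro a b c m n k ha haN hb hc hab hbc hac hm hn hk hKn hKk hnη hkη heq hVa hVb hVc
    have hn0 : (0 : ℝ) < n := by exact_mod_cast (by omega : 0 < n)
    have hk0 : (0 : ℝ) < k := by exact_mod_cast (by omega : 0 < k)
    -- the exponent of `a`
    have hmy : (m : ℝ) ≤ y ^ 4 := by
      have ha0 : (0 : ℝ) < a := by exact_mod_cast (by omega : 0 < a)
      have ha2 : (2 : ℝ) ≤ a := by exact_mod_cast ha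
      have h1 : (m : ℝ) * Real.log a ≤ κ * n * k * Real.log N := by
        have h2 := Real.log_le_log (by positivity) hVa
        rw [Real.log_rpow hNpos, Nat.cast_pow, Real.log_pow] at h2
        exact h2
      have h3 : 1 / 2 ≤ Real.log a := by
        have h4 : Real.log 2 ≤ Real.log a := Real.log_le_log (by norm_num) ha2
        have := Real.log_two_gt_d9
        linarith
      have hlog0 : 0 ≤ Real.log N := Real.log_nonneg hN1r
      have h5 : (m : ℝ) * (1 / 2) ≤ 1 * y * y * y := by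
        calc (m : ℝ) * (1 / 2) ≤ m * Real.log a := by gcongr
          _ ≤ κ * n * k * Real.log N := h1
          _ ≤ 1 * y * y * y := by gcongr
      calc (m : ℝ) ≤ 2 * (y * y * y) := by linarith
        _ ≤ y * (y * y * y) := by gcongr
        _ = y ^ 4 := by ring
    have hm1 : (m : ℝ) ≤ (N : ℝ) ^ δ1 := hmy.trans hy4
    have hyδ1 : y ≤ (N : ℝ) ^ δ1 := le_trans (by nlinarith) hyδ
    have hn1 : (n : ℝ) ≤ (N : ℝ) ^ δ1 := hnη.trans hyδ1
    have hk1 : (k : ℝ) ≤ (N : ℝ) ^ δ1 := hkη.trans hyδ1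
    have h1δ : (((1 : ℕ) : ℕ) : ℝ) ≤ (N : ℝ) ^ δ1 := by
      push_cast
      exact hy1.trans hyδ1
    by_cases hall : b ≤ N ∧ c ≤ N
    · -- all bases are small
      apply Finset.mem_union_right
      apply Finset.mem_union_right
      apply Finset.mem_union_right
      rw [hSb, Finset.mem_filter, Finset.mem_Icc]
      refine ⟨⟨by omega, haN⟩, ?_⟩
      have hmM : m ∈ Finset.Icc 1 M := by
        rw [Finset.mem_Icc]
        exact ⟨by omega, Nat.le_floor hmy⟩
      have hKn1 : K1 ≤ n := by omega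
      rcases heq with h | h | h
      · refine ⟨((a ^ m, b ^ n, c ^ k), m), ?_, Or.inl rfl⟩
        rw [hT, Finset.mem_product, Set.Finite.mem_toFinset]
        exact ⟨⟨a, b, c, m, n, k, by omega, haN, by omega, hall.1, by omega, hall.2, hab, hbc, hac,
          hm, hn, hk, Or.inr (Or.inl hKn1), h, rfl⟩, hmM⟩
      · refine ⟨((b ^ n, c ^ k, a ^ m), m), ?_, Or.inr (Or.inr rfl)⟩
        rw [hT, Finset.mem_product, Set.Finite.mem_toFinset]
        exact ⟨⟨b, c, a, n, k, m, by omega, hall.1, by omega, hall.2, by omega, haN, hbc, hac.symm,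
          hab.symm, hn, hk, hm, Or.inl hKn1, h, rfl⟩, hmM⟩
      · refine ⟨((c ^ k, a ^ m, b ^ n), m), ?_, Or.inr (Or.inl rfl)⟩
        rw [hT, Finset.mem_product, Set.Finite.mem_toFinset]
        exact ⟨⟨c, a, b, k, m, n, by omega, hall.2, by omega, haN, by omega, hall.1, hac.symm, hab,
          hbc.symm, hk, hm, hn, Or.inr (Or.inr hKn1), h, rfl⟩, hmM⟩
    · have hor : N < b ∨ N < c := by
        by_contra hcon
        push Not at hcon
        exact hall hcon
      have haN1 : a ≤ N ^ 1 := by rw [pow_one]; exact haN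
      have hwt : ∀ s : ℕ, ∀ e : ℕ, (e : ℝ) ≤ y → (s : ℝ) ≤ κ * e + 1 → (s : ℝ) ≤ (N : ℝ) ^ δ1 := by
        intro s e he hs
        refine le_trans ?_ hyδ
        have he0 : (0 : ℝ) ≤ e := Nat.cast_nonneg _
        calc (s : ℝ) ≤ κ * e + 1 := hs
          _ ≤ 1 * y + y := by
              have : κ * e ≤ 1 * y := by gcongr
              linarith
          _ = 2 * y := by ring
          _ ≤ y * y := by gcongr
      rcases heq with h | h | h
      · -- `c ^ k` is the largest
        obtain ⟨s, t, hs, ht, hbs, hct, hsk, htn, hbig⟩ := weights (A := A) (V := c ^ k) hNge2 hb hc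
          (by omega) hKn hKk hκ0 hA (by omega) le_rfl hVc hor
        have hG : GoodW N ![1, s, t] A m n k ![(a : ℤ), (b : ℤ), (c : ℤ)] := by
          apply mk_goodW (by omega) (by omega) (by omega) haN1 hbs hct hab hbc hac hk _ h
          refine lt_of_eq_of_lt ?_ hbig
          congr 1
          show 2 * A * (1 * s * t) = 2 * A * (s * t)
          ring
        apply Finset.mem_union_left
        rw [Finset.mem_image]
        refine ⟨((![(a : ℤ), (b : ℤ), (c : ℤ)] : Pt), (![m, n, k] : Fin 3 → ℕ)), ?_, by simp⟩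
        apply hF ![1, s, t] ![m, n, k] _ _ _ _ _ hG
        · intro i
          fin_cases i
          · exact le_rfl
          · exact hs
          · exact ht
        · intro i
          fin_cases i
          · exact h1δ
          · exact hwt s k hkη hsk
          · exact hwt t n hnη htn
        · intro i
          fin_cases i
          · show 1 ≤ m
            omega
          · show 1 ≤ n
            omega
          · show 1 ≤ k
            omega
        · intro i
          fin_cases i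
          · exact hm1
          · exact hn1
          · exact hk1
      · -- `a ^ m` is the largest
        obtain ⟨s, t, hs, ht, hbs, hct, hsk, htn, hbig⟩ := weights (A := A) (V := a ^ m) hNge2 hb hc
          (by omega) hKn hKk hκ0 hA (by omega) (by omega) hVa hor
        have hG : GoodW N ![s, t, 1] A n k m ![(b : ℤ), (c : ℤ), (a : ℤ)] := by
          apply mk_goodW (by omega) (by omega) (by omega) hbs hct haN1 hbc hac.symm hab.symm hm _ h
          refine lt_of_eq_of_lt ?_ hbig
          congr 1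
          show 2 * A * (s * t * 1) = 2 * A * (s * t)
          ring
        apply Finset.mem_union_right
        apply Finset.mem_union_right
        apply Finset.mem_union_left
        rw [Finset.mem_image]
        refine ⟨((![(b : ℤ), (c : ℤ), (a : ℤ)] : Pt), (![n, k, m] : Fin 3 → ℕ)), ?_, by simp⟩
        apply hF ![s, t, 1] ![n, k, m] _ _ _ _ _ hG
        · intro i
          fin_cases i
          · exact hs
          · exact ht
          · exact le_rfl
        · intro i
          fin_cases i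
          · exact hwt s k hkη hsk
          · exact hwt t n hnη htn
          · exact h1δ
        · intro i
          fin_cases i
          · show 1 ≤ n
            omega
          · show 1 ≤ k
            omega
          · show 1 ≤ m
            omega
        · intro i
          fin_cases i
          · exact hn1
          · exact hk1
          · exact hm1
      · -- `b ^ n` is the largest
        obtain ⟨s, t, hs, ht, hbs, hct, hsk, htn, hbig⟩ := weights (A := A) (V := b ^ n) hNge2 hb hc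
          (by omega) hKn hKk hκ0 hA le_rfl (by omega) hVb hor
        have hG : GoodW N ![t, 1, s] A k m n ![(c : ℤ), (a : ℤ), (b : ℤ)] := by
          apply mk_goodW (by omega) (by omega) (by omega) hct haN1 hbs hac.symm hab hbc.symm hn _ h
          refine lt_of_eq_of_lt ?_ hbig
          congr 1
          show 2 * A * (t * 1 * s) = 2 * A * (s * t)
          ring
        apply Finset.mem_union_right
        apply Finset.mem_union_left
        rw [Finset.mem_image]
        refine ⟨((![(c : ℤ), (a : ℤ), (b : ℤ)] : Pt), (![k, m, n] : Fin 3 → ℕ)), ?_, by simp⟩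
        apply hF ![t, 1, s] ![k, m, n] _ _ _ _ _ hG
        · intro i
          fin_cases i
          · exact ht
          · exact le_rfl
          · exact hs
        · intro i
          fin_cases i
          · exact hwt t n hnη htn
          · exact h1δ
          · exact hwt s k hkη hsk
        · intro i
          fin_cases i
          · show 1 ≤ k
            omega
          · show 1 ≤ m
            omega
          · show 1 ≤ n
            omega
        · intro i
          fin_cases i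
          · exact hk1
          · exact hm1
          · exact hn1

end Pool.Agent.Work.MP_2738db_nt_B
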