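import Pool.Agent.Work.MP_2738db_nt_B.WLev2
import Pool.Agent.Work.MP_2738db_nt_T.Main

set_option autoImplicit false

/-!
# Weighted boxes: the count over all signatures and all weights
-/

namespace Pool.Agent.Work.MP_2738db_nt_B

open MvPolynomial Pool.Agent.Work.MP_2738db_nt_T

noncomputable def goodPtsW (N : ℕ) (θ : Fin 3 → ℕ) (A m n k : ℕ) : Finset Pt := by
  classical
  exact (Fintype.piFinset fun i => Finset.Icc (1 : ℤ) (szW N θ i)).filter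
    (fun P => GoodW N θ A m n k P)

lemma mem_goodPtsW {N A m n k : ℕ} {θ : Fin 3 → ℕ} {P : Pt} :
    P ∈ goodPtsW N θ A m n k ↔ GoodW N θ A m n k P := by
  classical
  simp only [goodPtsW, Finset.mem_filter, Fintype.mem_piFinset, Finset.mem_Icc]
  constructor
  · exact fun h => h.2
  · intro h
    refine ⟨fun i => ⟨h.pos i, ?_⟩, h⟩
    have := h.abs_le i
    rwa [abs_of_pos (h.pos i)] at this

/-- all points, with their exponents, for weights and exponents at most `W` -/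
noncomputable def famW (N A W : ℕ) : Finset (Pt × (Fin 3 → ℕ)) := by
  classical
  exact ((Fintype.piFinset (fun _ : Fin 3 => Finset.Icc 1 W)) ×ˢ
    (Fintype.piFinset (fun _ : Fin 3 => Finset.Icc 1 W))).biUnion
    (fun q => (goodPtsW N q.1 A (q.2 0) (q.2 1) (q.2 2)).image (fun P => (P, q.2)))

lemma card_famW {N A W B : ℕ}
    (h : ∀ θ e : Fin 3 → ℕ, (∀ i, 1 ≤ θ i) → (∀ i, θ i ≤ W) → (∀ i, 1 ≤ e i) → (∀ i, e i ≤ W) →
      (goodPtsW N θ A (e 0) (e 1) (e 2)).card ≤ B) : (famW N A W).card ≤ W ^ 6 * B := by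
  classical
  calc (famW N A W).card
      ≤ ∑ q ∈ ((Fintype.piFinset (fun _ : Fin 3 => Finset.Icc 1 W)) ×ˢ
        (Fintype.piFinset (fun _ : Fin 3 => Finset.Icc 1 W))),
        ((goodPtsW N q.1 A (q.2 0) (q.2 1) (q.2 2)).image (fun P => (P, q.2))).card :=
          Finset.card_biUnion_le
    _ ≤ ∑ _q ∈ ((Fintype.piFinset (fun _ : Fin 3 => Finset.Icc 1 W)) ×ˢ
        (Fintype.piFinset (fun _ : Fin 3 => Finset.Icc 1 W))), B := by
        apply Finset.sum_le_sum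
        intro q hq
        simp only [Finset.mem_product, Fintype.mem_piFinset, Finset.mem_Icc] at hq
        exact Finset.card_image_le.trans (h _ _ (fun i => (hq.1 i).1) (fun i => (hq.1 i).2)
          (fun i => (hq.2 i).1) (fun i => (hq.2 i).2))
    _ = W ^ 6 * B := by
        rw [Finset.sum_const, Finset.card_product, Fintype.card_piFinset]
        simp only [Nat.card_Icc, Nat.add_sub_cancel, Finset.prod_const, Finset.card_univ,
          Fintype.card_fin, smul_eq_mul]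
        ring

lemma mem_famW {N A W : ℕ} {θ e : Fin 3 → ℕ} {P : Pt} (h1 : ∀ i, 1 ≤ θ i) (h2 : ∀ i, θ i ≤ W)
    (h3 : ∀ i, 1 ≤ e i) (h4 : ∀ i, e i ≤ W) (hP : GoodW N θ A (e 0) (e 1) (e 2) P) :
    (P, e) ∈ famW N A W := by
  classical
  simp only [famW, Finset.mem_biUnion]
  refine ⟨(θ, e), ?_, Finset.mem_image.mpr ⟨P, mem_goodPtsW.mpr hP, rfl⟩⟩
  simp only [Finset.mem_product, Fintype.mem_piFinset, Finset.mem_Icc]
  exact ⟨fun i => ⟨h1 i, h2 i⟩, fun i => ⟨h3 i, h4 i⟩⟩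

/-- making a good point -/
lemma mk_goodW {N A x y z m n k : ℕ} {θ : Fin 3 → ℕ} (hx : 0 < x) (hy : 0 < y)
    (hz : 0 < z) (hxθ : x ≤ N ^ θ 0) (hyθ : y ≤ N ^ θ 1) (hzθ : z ≤ N ^ θ 2)
    (hxy : Nat.Coprime x y) (hyz : Nat.Coprime y z) (hxz : Nat.Coprime x z)
    (hk : 2 ≤ k) (hbig : N ^ (2 * A * Th θ) < z ^ k) (heq : x ^ m + y ^ n = z ^ k) :
    GoodW N θ A m n k ![(x : ℤ), (y : ℤ), (z : ℤ)] := by
  have hbig' : N ^ (A * Th θ) < z ^ (k - 1) := by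
    have h1 : (N ^ (A * Th θ)) ^ 2 < (z ^ (k - 1)) ^ 2 := by
      calc (N ^ (A * Th θ)) ^ 2 = N ^ (2 * A * Th θ) := by rw [← pow_mul]; congr 1; ring
        _ < z ^ k := hbig
        _ ≤ z ^ ((k - 1) * 2) := Nat.pow_le_pow_right hz (by omega)
        _ = (z ^ (k - 1)) ^ 2 := pow_mul _ _ _
    exact lt_of_pow_lt_pow_left₀ 2 (by positivity) h1
  refine ⟨?_, ?_, ?_, ?_, ?_, ?_, ?_⟩
  · intro i
    fin_cases i
    · show (0 : ℤ) < (x : ℤ)
      exact_mod_cast hx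
    · show (0 : ℤ) < (y : ℤ)
      exact_mod_cast hy
    · show (0 : ℤ) < (z : ℤ)
      exact_mod_cast hz
  · intro i
    fin_cases i
    · show (x : ℤ) ≤ (N : ℤ) ^ θ 0
      exact_mod_cast hxθ
    · show (y : ℤ) ≤ (N : ℤ) ^ θ 1
      exact_mod_cast hyθ
    · show (z : ℤ) ≤ (N : ℤ) ^ θ 2
      exact_mod_cast hzθ
  · exact Nat.isCoprime_iff_coprime.mpr hxy
  · exact Nat.isCoprime_iff_coprime.mpr hyz
  · exact Nat.isCoprime_iff_coprime.mpr hxz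
  · show (x : ℤ) ^ m + (y : ℤ) ^ n = (z : ℤ) ^ k
    exact_mod_cast heq
  · show (N : ℤ) ^ (A * Th θ) < (z : ℤ) ^ (k - 1)
    exact_mod_cast hbig'

/-- the finite family of all big points -/
theorem core (ε : ℝ) (hε : 0 < ε) : ∃ (A : ℕ) (C δ : ℝ) (N0 : ℕ), 0 < δ ∧ 0 ≤ C ∧
    ∀ N : ℕ, N0 ≤ N → ∃ F : Finset (Pt × (Fin 3 → ℕ)), (F.card : ℝ) ≤ C * (N : ℝ) ^ ε ∧
      ∀ (θ e : Fin 3 → ℕ) (P : Pt), (∀ i, 1 ≤ θ i) → (∀ i, (θ i : ℝ) ≤ (N : ℝ) ^ δ) →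
        (∀ i, 1 ≤ e i) → (∀ i, (e i : ℝ) ≤ (N : ℝ) ^ δ) → GoodW N θ A (e 0) (e 1) (e 2) P →
        (P, e) ∈ F := by
  set L : ℕ := ⌈15 / ε⌉₊ + 1 with hLdef
  have hL1 : 1 ≤ L := by omega
  have hLε : 15 / ε ≤ L := by
    have := Nat.le_ceil (15 / ε)
    rw [hLdef]; push_cast; linarith
  have hLpos : (0 : ℝ) < L := by exact_mod_cast hL1
  have hL1r : (1 : ℝ) ≤ L := by exact_mod_cast hL1
  have hLε' : 15 / (L : ℝ) ≤ ε := by
    rw [div_le_iff₀ hε] at hLε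
    rw [div_le_iff₀ hLpos]
    linarith
  obtain ⟨A, E, C, N0, hS⟩ := sigW L hL1
  obtain ⟨N1, hP⟩ := primes L E hL1
  set δ : ℝ := 1 / (8 * (L : ℝ)) with hδ
  have hδ0 : 0 < δ := by positivity
  refine ⟨A, C * 2 ^ 15, δ, N0 + N1 + 1, hδ0, by positivity, ?_⟩
  intro N hN
  have hN1 : 1 ≤ N := by omega
  have hN1r : (1 : ℝ) ≤ N := by exact_mod_cast hN1
  have hNpos : (0 : ℝ) < N := by linarith
  obtain ⟨Q, PP, hEnv⟩ := hP N (by omega)
  set M := Nat.sqrt Q with hM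
  have hMM : M * M ≤ Q := Nat.sqrt_le Q
  set y : ℝ := (N : ℝ) ^ δ with hy
  have hy1 : 1 ≤ y := Real.one_le_rpow hN1r hδ0.le
  have hyQ : y ^ 8 ≤ Q := by
    have h1 : (N : ℝ) ≤ (Q : ℝ) ^ L := by exact_mod_cast hEnv.hN
    have h2 : (y ^ 8) ^ L = N := by
      rw [hy, ← Real.rpow_natCast, ← Real.rpow_natCast, ← Real.rpow_mul (by positivity),
        ← Real.rpow_mul (by positivity)]
      have : δ * (((8 : ℕ) : ℝ) * (L : ℝ)) = 1 := by
        rw [hδ]; push_cast; field_simp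
      rw [this, Real.rpow_one]
    rw [← h2] at h1
    exact le_of_pow_le_pow_left₀ (by omega) (by positivity) h1
  set W : ℕ := ⌊y⌋₊ with hW
  have hW1 : 1 ≤ W := Nat.le_floor (by exact_mod_cast hy1)
  have hWy : (W : ℝ) ≤ y := Nat.floor_le (by linarith)
  have hW8 : W ^ 8 ≤ Q := by
    have : (W : ℝ) ^ 8 ≤ Q := (pow_le_pow_left₀ (by positivity) hWy 8).trans hyQ
    exact_mod_cast this
  have hWM : W ^ 4 ≤ M := by
    rw [hM, Nat.le_sqrt]
    calc W ^ 4 * W ^ 4 = W ^ 8 := by ring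
      _ ≤ Q := hW8
  have hQ15 : ((Q : ℝ)) ^ 15 ≤ 2 ^ 15 * (N : ℝ) ^ ε := by
    have h1 : (Q : ℝ) ^ L ≤ 2 ^ L * N := by exact_mod_cast hEnv.hQ
    have h2 : (Q : ℝ) ≤ 2 * (N : ℝ) ^ (1 / (L : ℝ)) := by
      have h3 : (2 * (N : ℝ) ^ (1 / (L : ℝ))) ^ L = 2 ^ L * N := by
        rw [mul_pow, ← Real.rpow_natCast ((N : ℝ) ^ (1 / (L : ℝ))), ← Real.rpow_mul (by positivity)]
        rw [one_div, inv_mul_cancel₀ hLpos.ne', Real.rpow_one]
      rw [← h3] at h1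
      exact le_of_pow_le_pow_left₀ (by omega) (by positivity) h1
    calc (Q : ℝ) ^ 15 ≤ (2 * (N : ℝ) ^ (1 / (L : ℝ))) ^ 15 := pow_le_pow_left₀ (by positivity) h2 _
      _ = 2 ^ 15 * (N : ℝ) ^ (15 / (L : ℝ)) := by
          rw [mul_pow, ← Real.rpow_natCast ((N : ℝ) ^ (1 / (L : ℝ))), ← Real.rpow_mul (by positivity)]
          congr 2
          push_cast
          ring
      _ ≤ 2 ^ 15 * (N : ℝ) ^ ε := by
          gcongr
  refine ⟨famW N A W, ?_, ?_⟩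
  · have h1 : (famW N A W).card ≤ W ^ 6 * (C * Q ^ 14) := by
      apply card_famW
      intro θ e a1 a2 a3 a4
      exact hS N Q M PP (by omega) hEnv W θ (e 0) (e 1) (e 2)
        ⟨hW1, hWM, hMM, a1, a2, a3 0, a4 0, a3 1, a4 1, a3 2, a4 2⟩ _
        (fun P hP => mem_goodPtsW.mp hP)
    have h2 : W ^ 6 * (C * Q ^ 14) ≤ C * Q ^ 15 := by
      calc W ^ 6 * (C * Q ^ 14) ≤ W ^ 8 * (C * Q ^ 14) :=
            Nat.mul_le_mul_right _ (Nat.pow_le_pow_right hW1 (by norm_num))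
        _ ≤ Q * (C * Q ^ 14) := Nat.mul_le_mul_right _ hW8
        _ = C * Q ^ 15 := by ring
    have h3 : ((famW N A W).card : ℝ) ≤ C * (Q : ℝ) ^ 15 := by exact_mod_cast h1.trans h2
    calc ((famW N A W).card : ℝ) ≤ C * (Q : ℝ) ^ 15 := h3
      _ ≤ C * (2 ^ 15 * (N : ℝ) ^ ε) := by gcongr
      _ = C * 2 ^ 15 * (N : ℝ) ^ ε := by ring
  · intro θ e P a1 a2 a3 a4 hG
    exact mem_famW a1 (fun i => Nat.le_floor (a2 i)) a3 (fun i => Nat.le_floor (a4 i)) hG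

end Pool.Agent.Work.MP_2738db_nt_B
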