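import Pool.Agent.Work.MP_2738db_nt_B.WBase

set_option autoImplicit false

/-!
# Weighted boxes: levels 0 and 1
-/

namespace Pool.Agent.Work.MP_2738db_nt_B

open MvPolynomial Pool.Agent.Work.MP_2738db_nt_T

/-! ### numerical lemmas -/

lemma box0_big {θ : Fin 3 → ℕ} (h : ∀ i, 1 ≤ θ i) (D : ℕ) :
    (Th θ * D + 1) * (Th θ * D + 1) * (Th θ * D + 1)
      ≤ Th θ * ((box0 θ D 0 + 1) * (box0 θ D 1 + 1) * (box0 θ D 2 + 1)) := by
  have h0 := h 0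
  have h1 := h 1
  have h2 := h 2
  show _ ≤ Th θ * ((θ 1 * θ 2 * D + 1) * (θ 0 * θ 2 * D + 1) * (θ 0 * θ 1 * D + 1))
  have e0 : Th θ * D + 1 ≤ θ 0 * (θ 1 * θ 2 * D + 1) := by
    have : θ 0 * (θ 1 * θ 2 * D + 1) = Th θ * D + θ 0 := by unfold Th; ring
    omega
  have e1 : Th θ * D + 1 ≤ θ 1 * (θ 0 * θ 2 * D + 1) := by
    have : θ 1 * (θ 0 * θ 2 * D + 1) = Th θ * D + θ 1 := by unfold Th; ring
    omega
  have e2 : Th θ * D + 1 ≤ θ 2 * (θ 0 * θ 1 * D + 1) := by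
    have : θ 2 * (θ 0 * θ 1 * D + 1) = Th θ * D + θ 2 := by unfold Th; ring
    omega
  calc (Th θ * D + 1) * (Th θ * D + 1) * (Th θ * D + 1)
      ≤ (θ 0 * (θ 1 * θ 2 * D + 1)) * (θ 1 * (θ 0 * θ 2 * D + 1)) * (θ 2 * (θ 0 * θ 1 * D + 1)) :=
        Nat.mul_le_mul (Nat.mul_le_mul e0 e1) e2
    _ = Th θ * ((θ 1 * θ 2 * D + 1) * (θ 0 * θ 2 * D + 1) * (θ 0 * θ 1 * D + 1)) := by
        unfold Th; ring

/-- the count at level 1 -/
lemma cnt2 {L u v : ℕ} (hu : 1 ≤ u) (hv : 1 ≤ v) :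
    2 * (u * v * (18 * L) + 2 * (u * v * (18 * L)) + 2) *
      (L * (u * v * (18 * L) + 2 * (u * v * (18 * L)) + 2)) ^ (3 - 2)
      ≤ u * v * (18 * L) * ((u * (18 * L) + 1) * (v * (18 * L) + 1)) := by
  obtain ⟨D, hD⟩ : ∃ D, D = 18 * L := ⟨_, rfl⟩
  rw [← hD]
  have e1 : u * v * D + 2 * (u * v * D) + 2 ≤ 3 * (u * v * D + 1) := by omega
  have e2 : u * v * D + 1 ≤ v * (u * D + 1) := by
    have : v * (u * D + 1) = u * v * D + v := by ring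
    omega
  have e3 : u * v * D + 1 ≤ u * (v * D + 1) := by
    have : u * (v * D + 1) = u * v * D + u := by ring
    omega
  calc 2 * (u * v * D + 2 * (u * v * D) + 2) * (L * (u * v * D + 2 * (u * v * D) + 2)) ^ (3 - 2)
      ≤ 2 * (3 * (u * v * D + 1)) * (L * (3 * (u * v * D + 1))) ^ (3 - 2) := by gcongr
    _ = 18 * L * ((u * v * D + 1) * (u * v * D + 1)) := by ring
    _ = D * ((u * v * D + 1) * (u * v * D + 1)) := by rw [← hD]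
    _ ≤ D * ((v * (u * D + 1)) * (u * (v * D + 1))) := by gcongr
    _ = u * v * D * ((u * D + 1) * (v * D + 1)) := by ring

/-- heights after the choice of a derivative -/
lemma sel_height {d : Fin 3 → ℕ} {N t s : ℕ} (hN : 1 ≤ N) (hd : ∀ i, d i ≤ N)
    (hs : d 0 + d 1 + d 2 ≤ s) :
    d 0 ^ d 0 * d 1 ^ d 1 * d 2 ^ d 2 * N ^ t ≤ N ^ (s + t) := by
  have key : ∀ i, d i ^ d i ≤ N ^ d i := fun i => Nat.pow_le_pow_left (hd i) _
  calc d 0 ^ d 0 * d 1 ^ d 1 * d 2 ^ d 2 * N ^ t ≤ N ^ d 0 * N ^ d 1 * N ^ d 2 * N ^ t :=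
        Nat.mul_le_mul_right _ (Nat.mul_le_mul (Nat.mul_le_mul (key 0) (key 1)) (key 2))
    _ = N ^ (d 0 + d 1 + d 2 + t) := by rw [pow_add, pow_add, pow_add]
    _ ≤ N ^ (s + t) := Nat.pow_le_pow_right hN (by omega)

/-- values of the derivatives -/
lemma evPd (hPd : Stmt_BddBPderiv) (hE : Stmt_BddBEval) {d : Fin 3 → ℕ} {N t s e u : ℕ}
    {θ : Fin 3 → ℕ} {G : MvPolynomial (Fin 3) ℤ} {P : Pt} (hN : 1 ≤ N) (hd : ∀ i, d i ≤ N)
    (hs : d 0 + d 1 + d 2 ≤ s)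
    (hG : BddB d (d 0 ^ d 0 * d 1 ^ d 1 * d 2 ^ d 2 * N ^ t) G)
    (hP : ∀ i, |P i| ≤ (szW N θ i : ℤ))
    (hc : (d 0 + 1) * (d 1 + 1) * (d 2 + 1) ≤ N ^ 2)
    (he : θ 0 * d 0 + θ 1 * d 1 + θ 2 * d 2 ≤ e) (hu : 3 + s + t + e ≤ u) (i : Fin 3) :
    |eval P (pderiv i G)| ≤ (N : ℤ) ^ u := by
  have h1 := hPd d _ G i hG
  have h2 : d i * (d 0 ^ d 0 * d 1 ^ d 1 * d 2 ^ d 2 * N ^ t) ≤ N ^ (1 + (s + t)) := by
    rw [pow_add, pow_one]
    exact Nat.mul_le_mul (hd i) (sel_height hN hd hs)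
  refine (evalW_le hE h1 hN hP h2 hc he).trans ?_
  apply pow_le_pow_right₀ (by exact_mod_cast hN)
  omega

/-! ### level 0 -/

def Stmt_Lev0W : Prop :=
  ∀ L : ℕ, 1 ≤ L → ∃ N0 : ℕ, ∀ (N Q M : ℕ) (PP : Finset ℕ), N0 ≤ N → Env L 1 N Q M PP →
    ∀ (W : ℕ) (θ : Fin 3 → ℕ) (m n k : ℕ), Small W M Q θ m n k →
    ∀ (S : Finset Pt), (∀ P ∈ S, GoodW N θ 0 m n k P) → ∀ B : ℕ,
    (∀ S' ⊆ S, (∃ G : MvPolynomial (Fin 3) ℤ, G ≠ 0 ∧
      BddB (box0 θ (128 * L ^ 2)) (N ^ (Th θ * (128 * L ^ 2))) G ∧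
      ∀ P ∈ S', eval P G = 0) → S'.card ≤ B) → S.card ≤ 27 * Q ^ 3 * B

/-- the number of monomials of the box of level 0 -/
lemma cnt0 {L E N Q M W : ℕ} {PP : Finset ℕ} {θ : Fin 3 → ℕ} {m n k : ℕ} (h : Env L E N Q M PP)
    (hL : 1 ≤ L) (hs : Small W M Q θ m n k) {D : ℕ} (hN : 8 ^ L * (D + 1) ^ 6 ≤ N) :
    (box0 θ D 0 + 1) * (box0 θ D 1 + 1) * (box0 θ D 2 + 1) ≤ N ^ 2 := by
  have h0 := hs.θ1 0
  have h1 := hs.θ1 1
  have h2 := hs.θ1 2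
  have hT := hs.Th_le_M
  show (θ 1 * θ 2 * D + 1) * (θ 0 * θ 2 * D + 1) * (θ 0 * θ 1 * D + 1) ≤ N ^ 2
  apply cnt_le h hL hs.hMM (Nat.mul_pos h1 h2) (Nat.mul_pos h0 h2) (Nat.mul_pos h0 h1) _ hN
  calc θ 1 * θ 2 * (θ 0 * θ 2) * (θ 0 * θ 1) = Th θ * Th θ := by unfold Th; ring
    _ ≤ M * M := Nat.mul_le_mul hT hT

theorem lev0W (hA : Stmt_AuxGen) : Stmt_Lev0W := by
  intro L hL
  obtain ⟨D, hD⟩ : ∃ D, D = 128 * L ^ 2 := ⟨_, rfl⟩
  refine ⟨6 ^ L + 8 ^ L * (D + 1) ^ 6, ?_⟩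
  intro N Q M PP hN hEnv W θ m n k hsm S hS B hB
  classical
  rw [← hD] at hB
  have hN6 : 6 ^ L ≤ N := le_trans (Nat.le_add_right _ _) hN
  have hNs : 8 ^ L * (D + 1) ^ 6 ≤ N := le_trans (Nat.le_add_left _ _) hN
  have hPP : PP.Nonempty := by
    rw [← Finset.card_pos]
    refine lt_of_lt_of_le ?_ hEnv.card
    exact Nat.mul_pos (Nat.mul_pos hL one_pos) hEnv.hM1
  obtain ⟨p, hp⟩ := hPP
  have hpp := hEnv.prime p hp
  have hlo := hEnv.lo p hp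
  have hpz : Prime (p : ℤ) := Nat.prime_iff_prime_int.mp hpp
  have hWM := hsm.W_le_M
  have hexp : ∀ e : ℕ, 1 ≤ e → e ≤ W → ¬ (p : ℤ) ∣ (e : ℤ) := by
    intro e he heM hd
    have h1 : p ∣ e := by exact_mod_cast hd
    have := Nat.le_of_dvd (by omega) h1
    have := hEnv.hMQ
    omega
  have hcnt := cnt0 hEnv hL hsm hNs
  have haux : ∀ (i : Fin 3) (S' : Finset Pt), S' ⊆ S →
      (∀ P ∈ S', ∀ P' ∈ S', ∀ i, (p : ℤ) ∣ P i - P' i) →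
      (∀ P ∈ S', ¬ (p : ℤ) ∣ eval P (pderiv i (FL m n k 1 1))) → S'.card ≤ B := by
    intro i S' hS' hcong hd
    apply hB S' hS'
    apply auxCoreW hA hEnv hL hp hN6 (fun _ : Fin 1 => i) (Function.injective_of_subsingleton _)
      (fun _ => FL m n k 1 1) S' θ (fun P hP => (hS P (hS' hP)).abs_le) hcong
      (fun P hP _ => (hS P (hS' hP)).eval_FL)
      (fun P hP => by rw [Matrix.det_fin_one]; exact hd P hP)
      (box0 θ D) (Th θ * D) (3 * (Th θ * D)) (box0_size θ D).le hcnt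
    have h1 : Th θ * D + 3 * (Th θ * D) + 2 ≤ 4 * (Th θ * D + 1) := by omega
    calc 2 * (Th θ * D + 3 * (Th θ * D) + 2) * (L * (Th θ * D + 3 * (Th θ * D) + 2)) ^ (3 - 1)
        ≤ 2 * (4 * (Th θ * D + 1)) * (L * (4 * (Th θ * D + 1))) ^ (3 - 1) := by gcongr
      _ = (128 * L ^ 2) * ((Th θ * D + 1) * (Th θ * D + 1) * (Th θ * D + 1)) := by ring
      _ = D * ((Th θ * D + 1) * (Th θ * D + 1) * (Th θ * D + 1)) := by rw [← hD]
      _ ≤ D * (Th θ * ((box0 θ D 0 + 1) * (box0 θ D 1 + 1) * (box0 θ D 2 + 1))) :=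
          Nat.mul_le_mul_left _ (box0_big hsm.θ1 D)
      _ = Th θ * D * ((box0 θ D 0 + 1) * (box0 θ D 1 + 1) * (box0 θ D 2 + 1)) := by ring
  have h1 := card_le_of_rel S (Finset.range (3 * Q) ×ˢ (Finset.range (3 * Q) ×ˢ Finset.range (3 * Q)))
    (fun P l => res p P = l) B
    (fun P _ => ⟨res p P, res_mem hpp.pos (hEnv.hi p hp) P, rfl⟩)
    (by
      intro l _ S' hS' hR
      rcases S'.eq_empty_or_nonempty with h0 | ⟨P0, hP0⟩
      · rw [h0, Finset.card_empty]; exact Nat.zero_le _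
      have hcong : ∀ P ∈ S', ∀ P' ∈ S', ∀ i, (p : ℤ) ∣ P i - P' i :=
        fun P hP P' hP' => res_eq hpp.pos ((hR P hP).trans (hR P' hP').symm)
      have hG0 := hS P0 (hS' hP0)
      have htrans : ∀ i, ¬ (p : ℤ) ∣ P0 i → ∀ P ∈ S', ¬ (p : ℤ) ∣ P i := by
        intro i h1 P hP h2
        have h3 := hcong P hP P0 hP0 i
        exact h1 ((dvd_sub_right h2).mp h3)
      by_cases h2 : (p : ℤ) ∣ P0 2
      · have h1 : ¬ (p : ℤ) ∣ P0 1 := by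
          intro h1
          have := hG0.c12.isUnit_of_dvd' h1 h2
          exact hpz.not_isUnit this
        apply haux 1 S' hS' hcong
        intro P hP
        rw [eval_FL_1, one_mul]
        intro hd
        rcases hpz.dvd_or_dvd hd with h | h
        · exact hexp n hsm.n1 hsm.nW h
        · exact htrans 1 h1 P hP (hpz.dvd_of_dvd_pow h)
      · apply haux 2 S' hS' hcong
        intro P hP
        rw [eval_FL_2, dvd_neg]
        intro hd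
        rcases hpz.dvd_or_dvd hd with h | h
        · exact hexp k hsm.k1 hsm.kW h
        · exact htrans 2 h2 P hP (hpz.dvd_of_dvd_pow h))
  simp only [Finset.card_product, Finset.card_range] at h1
  calc S.card ≤ _ := h1
    _ = 27 * Q ^ 3 * B := by ring

/-! ### level 1 -/

/-- the boxes at level 1 -/
def boxP (θ : Fin 3 → ℕ) (D : ℕ) : Fin 3 → ℕ := ![θ 1 * D, θ 0 * D, 0]
def boxQ (θ : Fin 3 → ℕ) (D : ℕ) : Fin 3 → ℕ := ![θ 2 * D, 0, θ 0 * D]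
def boxR (θ : Fin 3 → ℕ) (D : ℕ) : Fin 3 → ℕ := ![0, θ 2 * D, θ 1 * D]

def Stmt_Lev1W : Prop :=
  ∀ L D0 h : ℕ, 1 ≤ L → ∃ A E C N0 : ℕ, ∀ (N Q M : ℕ) (PP : Finset ℕ), N0 ≤ N →
    Env L E N Q M PP → ∀ (W : ℕ) (θ : Fin 3 → ℕ) (m n k : ℕ), Small W M Q θ m n k →
    ∀ G : MvPolynomial (Fin 3) ℤ, G ≠ 0 → BddB (box0 θ D0) (N ^ (Th θ * h)) G →
    ∀ (S : Finset Pt), (∀ P ∈ S, GoodW N θ A m n k P) → (∀ P ∈ S, eval P G = 0) → ∀ B : ℕ,
    (∀ S' ⊆ S, (∃ φ ψ χ : MvPolynomial (Fin 3) ℤ, φ ≠ 0 ∧ ψ ≠ 0 ∧ χ ≠ 0 ∧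
      BddB (boxP θ (18 * L)) (N ^ (θ 0 * θ 1 * (18 * L))) φ ∧
      BddB (boxQ θ (18 * L)) (N ^ (θ 0 * θ 2 * (18 * L))) ψ ∧
      BddB (boxR θ (18 * L)) (N ^ (θ 1 * θ 2 * (18 * L))) χ ∧
      ∀ P ∈ S', eval P φ = 0 ∧ eval P ψ = 0 ∧ eval P χ = 0) → S'.card ≤ B) →
    S.card ≤ C * Q ^ 5 * B

/-- two-dimensional boxes have few monomials -/
lemma cntP {L E N Q M W : ℕ} {PP : Finset ℕ} {θ : Fin 3 → ℕ} {m n k : ℕ} (h : Env L E N Q M PP)
    (hL : 1 ≤ L) (hs : Small W M Q θ m n k) {D : ℕ} (hN : 8 ^ L * (D + 1) ^ 6 ≤ N)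
    {u v : ℕ} (hu : 1 ≤ u) (hv : 1 ≤ v) (huv : u * v ≤ Th θ) :
    (u * D + 1) * (v * D + 1) ≤ N ^ 2 := by
  have hT := hs.Th_le_M
  have hM := h.hM1
  have h1 := cnt_le (a := u) (b := v) (c := 1) h hL hs.hMM hu hv le_rfl
    (by
      calc u * v * 1 = u * v := mul_one _
        _ ≤ M := huv.trans hT
        _ ≤ M * M := Nat.le_mul_of_pos_left _ hM) hN
  refine le_trans ?_ h1
  exact Nat.le_mul_of_pos_right _ (by omega)

theorem lev1W (hA : Stmt_AuxGen) (hSel : Stmt_SelB) (hPd : Stmt_BddBPderiv) (hE : Stmt_BddBEval) :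
    Stmt_Lev1W := by
  intro L D0 h hL
  set hg : ℕ := 6 * D0 + h + 3 with hhg
  obtain ⟨w1, hw1⟩ : ∃ w, w = 8 ^ L * (D0 + 1) ^ 6 := ⟨_, rfl⟩
  obtain ⟨w2, hw2⟩ : ∃ w, w = 8 ^ L * (18 * L + 1) ^ 6 := ⟨_, rfl⟩
  obtain ⟨w3, hw3⟩ : ∃ w, w = 4 * (D0 + 1) ^ 2 * 2 ^ L := ⟨_, rfl⟩
  obtain ⟨w4, hw4⟩ : ∃ w, w = 6 ^ L := ⟨_, rfl⟩
  obtain ⟨w5, hw5⟩ : ∃ w, w = 4 * (1 + 1) ^ 2 * 2 ^ L := ⟨_, rfl⟩
  refine ⟨1 + hg, 4 + hg, 162 * (D0 + 1) ^ 3, 2 + w1 + w2 + w3 + w4 + w5, ?_⟩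
  intro N Q M PP hN hEnv W θ m n k hsm G hG bG S hS hvan B hB
  classical
  have hN1 : 1 ≤ N := by omega
  have hN2 : 2 ≤ N := by omega
  have hN6 : 6 ^ L ≤ N := by rw [← hw4]; omega
  have hNw1 : 8 ^ L * (D0 + 1) ^ 6 ≤ N := by rw [← hw1]; omega
  have hNw2 : 8 ^ L * (18 * L + 1) ^ 6 ≤ N := by rw [← hw2]; omega
  have hNw3 : 4 * (D0 + 1) ^ 2 * 2 ^ L ≤ N := by rw [← hw3]; omega
  have hNw5 : 4 * (1 + 1) ^ 2 * 2 ^ L ≤ N := by rw [← hw5]; omega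
  have hT1 := hsm.Th_pos
  have hTM := hsm.Th_le_M
  have hTD0 : Th θ * D0 + 1 ≤ N := hEnv.small hL hsm.hMM hTM hNw3
  have hMN : M ≤ N := by
    have := hEnv.small hL hsm.hMM (le_refl M) hNw5
    omega
  have hWN : W ≤ N := hsm.W_le_M.trans hMN
  have hcnt := cnt0 hEnv hL hsm hNw1
  obtain ⟨DD, hDc, hDB, hDd, hDP⟩ := hSel (box0 θ D0) (N ^ (Th θ * h)) G hG bG
  have hb0 : box0 θ D0 0 ≤ Th θ * D0 := by
    show θ 1 * θ 2 * D0 ≤ _
    exact Nat.mul_le_mul_right _ hsm.pair12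
  have hb1 : box0 θ D0 1 ≤ Th θ * D0 := by
    show θ 0 * θ 2 * D0 ≤ _
    exact Nat.mul_le_mul_right _ hsm.pair02
  have hb2 : box0 θ D0 2 ≤ Th θ * D0 := by
    show θ 0 * θ 1 * D0 ≤ _
    exact Nat.mul_le_mul_right _ hsm.pair01
  have hDc' : DD.card ≤ Q * (D0 + 1) ^ 3 := by
    refine hDc.trans ?_
    have e1 : ∀ t : ℕ, 1 ≤ t → t * D0 + 1 ≤ t * (D0 + 1) := fun t ht => by rw [mul_add]; omega
    have h0 := hsm.θ1 0
    have h1 := hsm.θ1 1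
    have h2 := hsm.θ1 2
    show (θ 1 * θ 2 * D0 + 1) * (θ 0 * θ 2 * D0 + 1) * (θ 0 * θ 1 * D0 + 1) ≤ _
    calc (θ 1 * θ 2 * D0 + 1) * (θ 0 * θ 2 * D0 + 1) * (θ 0 * θ 1 * D0 + 1)
        ≤ (θ 1 * θ 2 * (D0 + 1)) * (θ 0 * θ 2 * (D0 + 1)) * (θ 0 * θ 1 * (D0 + 1)) :=
          Nat.mul_le_mul (Nat.mul_le_mul (e1 _ (Nat.mul_pos h1 h2)) (e1 _ (Nat.mul_pos h0 h2)))
            (e1 _ (Nat.mul_pos h0 h1))
      _ = (Th θ * Th θ) * (D0 + 1) ^ 3 := by unfold Th; ring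
      _ ≤ (M * M) * (D0 + 1) ^ 3 := by gcongr
      _ ≤ Q * (D0 + 1) ^ 3 := by
          have := hsm.hMM
          gcongr
  have hev : ∀ b ∈ DD, ∀ P ∈ S, ∀ i, |eval P (pderiv i b)| ≤ (N : ℤ) ^ (Th θ * hg) := by
    intro b hb P hP i
    refine evPd hPd hE (s := 3 * (Th θ * D0)) (e := 3 * (Th θ * D0)) hN1 ?_ ?_ (hDB b hb)
      (hS P hP).abs_le hcnt (box0_size θ D0).le ?_ i
    · intro i
      fin_cases i
      · exact hb0.trans (by omega)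
      · exact hb1.trans (by omega)
      · exact hb2.trans (by omega)
    · omega
    · rw [hhg]
      have e1 : Th θ * (6 * D0 + h + 3) = 6 * (Th θ * D0) + Th θ * h + 3 * Th θ := by ring
      rw [e1]
      omega
  have hNz : (1 : ℤ) ≤ N := by exact_mod_cast hN1
  have hN2z : (2 : ℤ) ≤ N := by exact_mod_cast hN2
  have hnz : (n : ℤ) ≤ (N : ℤ) := by exact_mod_cast hsm.nW.trans hWN
  have hEM : W ^ 2 + 3 + Th θ * hg ≤ (4 + hg) * M := by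
    have h1 : W ^ 2 ≤ M := (Nat.pow_le_pow_right hsm.hW1 (by norm_num)).trans hsm.hWM
    have h2 := Nat.mul_le_mul_right hg hTM
    have h3 := hEnv.hM1
    have e1 : (4 + hg) * M = 4 * M + M * hg := by ring
    rw [e1]
    omega
  have hcard : S.card ≤ (DD ×ˢ (Finset.range 2 ×ˢ (PP ×ˢ (Finset.range (3 * Q) ×ˢ
      (Finset.range (3 * Q) ×ˢ Finset.range (3 * Q)))))).card * B := by
    apply card_le_of_rel S _ (R1L m n k 1 1) B
    · intro P hP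
      have hGd := hS P hP
      obtain ⟨b, hb, hb0, i, hi⟩ := hDP P (hvan P hP)
      have hne : eval P (pderiv 0 b) ≠ 0 ∨ eval P (pderiv 1 b) ≠ 0 ∨ eval P (pderiv 2 b) ≠ 0 := by
        fin_cases i
        · exact Or.inl hi
        · exact Or.inr (Or.inl hi)
        · exact Or.inr (Or.inr hi)
      have hg0 := hev b hb P hP 0
      have hg1 := hev b hb P hP 1
      have hg2 := hev b hb P hP 2
      have hsmall : |(n : ℤ) * eval P (pderiv 2 b)| < P 2 ^ (k - 1) := by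
        refine lt_of_le_of_lt ?_ hGd.big
        rw [abs_mul, Nat.abs_cast]
        calc (n : ℤ) * |eval P (pderiv 2 b)| ≤ (N : ℤ) * (N : ℤ) ^ (Th θ * hg) :=
              mul_le_mul hnz hg2 (abs_nonneg _) (by positivity)
          _ = (N : ℤ) ^ (1 + Th θ * hg) := by rw [pow_add, pow_one]
          _ ≤ (N : ℤ) ^ ((1 + hg) * Th θ) := by
              apply pow_le_pow_right₀ hNz
              have e1 : (1 + hg) * Th θ = Th θ + Th θ * hg := by ring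
              rw [e1]
              omega
      have k0 := gradW_le hsm.mW (hsm.θW 0) hN1 (hGd.pos 0) (hGd.le 0) hWN
      have k1 := gradW_le hsm.nW (hsm.θW 1) hN1 (hGd.pos 1) (hGd.le 1) hWN
      have k2 := gradW_le hsm.kW (hsm.θW 2) hN1 (hGd.pos 2) (hGd.le 2) hWN
      have hp3 : ∀ u v : ℤ, |u| ≤ (N : ℤ) ^ (W ^ 2 + 2) → |v| ≤ (N : ℤ) ^ (Th θ * hg) →
          |u * v| ≤ (N : ℤ) ^ (W ^ 2 + 2 + Th θ * hg) := by
        intro u v hu hv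
        rw [abs_mul, pow_add _ (W ^ 2 + 2)]
        exact mul_le_mul hu hv (abs_nonneg _) (by positivity)
      have hfin : 2 * (N : ℤ) ^ (W ^ 2 + 2 + Th θ * hg) ≤ (N : ℤ) ^ ((4 + hg) * M) := by
        calc 2 * (N : ℤ) ^ (W ^ 2 + 2 + Th θ * hg) ≤ (N : ℤ) * (N : ℤ) ^ (W ^ 2 + 2 + Th θ * hg) := by
              apply mul_le_mul_of_nonneg_right hN2z (by positivity)
          _ = (N : ℤ) ^ (W ^ 2 + 3 + Th θ * hg) := by rw [← pow_succ']; congr 1; omega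
          _ ≤ (N : ℤ) ^ ((4 + hg) * M) := pow_le_pow_right₀ hNz hEM
      have hsum : ∀ u v : ℤ, |u| ≤ (N : ℤ) ^ (W ^ 2 + 2 + Th θ * hg) →
          |v| ≤ (N : ℤ) ^ (W ^ 2 + 2 + Th θ * hg) → |u + v| ≤ (N : ℤ) ^ ((4 + hg) * M) := by
        intro u v hu hv
        refine (abs_add_le _ _).trans (le_trans ?_ hfin)
        linarith
      have hone : (1 : ℤ) = 1 ∨ (1 : ℤ) = -1 := Or.inl rfl
      rcases ari1L _ _ _ _ _ _ 1 1 m n k (hGd.pos 0) (hGd.pos 1) (hGd.pos 2) hsm.m1 hsm.n1 hsm.k1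
        hone hone hGd.c12 hsmall hne with h1 | h1
      · obtain ⟨p, hpP, hpd⟩ := hEnv.exists_prime hL (by omega) h1
          (hsum _ _ (hp3 _ _ (by rw [one_mul]; exact k0) hg2) (hp3 _ _ k2 hg0))
        refine ⟨(b, 0, p, res p P), ?_, hb0, ?_, rfl⟩
        · simp only [Finset.mem_product]
          refine ⟨hb, by simp, hpP, ?_⟩
          have := res_mem (hEnv.prime p hpP).pos (hEnv.hi p hpP) P
          simpa only [Finset.mem_product] using this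
        · rw [det_pvL0]; exact hpd
      · obtain ⟨p, hpP, hpd⟩ := hEnv.exists_prime hL (by omega) h1
          (hsum _ _ (hp3 _ _ (by rw [one_mul]; exact k1) hg2) (hp3 _ _ k2 hg1))
        refine ⟨(b, 1, p, res p P), ?_, hb0, ?_, rfl⟩
        · simp only [Finset.mem_product]
          refine ⟨hb, by simp, hpP, ?_⟩
          have := res_mem (hEnv.prime p hpP).pos (hEnv.hi p hpP) P
          simpa only [Finset.mem_product] using this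
        · rw [det_pvL1]; exact hpd
    · intro l hl S' hS' hR
      simp only [Finset.mem_product] at hl
      have hpP := hl.2.2.1
      have hpp := hEnv.prime _ hpP
      apply hB S' hS'
      have hbox : ∀ P ∈ S', ∀ i, |P i| ≤ (szW N θ i : ℤ) := fun P hP => (hS P (hS' hP)).abs_le
      have hcong : ∀ P ∈ S', ∀ P' ∈ S', ∀ i, (l.2.2.1 : ℤ) ∣ P i - P' i :=
        fun P hP P' hP' => res_eq hpp.pos ((hR P hP).2.2.trans (hR P' hP').2.2.symm)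
      have hv : ∀ P ∈ S', ∀ ρ, eval P ((![FL m n k 1 1, l.1] : Fin 2 → MvPolynomial (Fin 3) ℤ) ρ) = 0 := by
        intro P hP ρ
        fin_cases ρ
        · exact (hS P (hS' hP)).eval_FL
        · exact (hR P hP).1
      have hd := fun P hP => (hR P hP).2.1
      have t0 := hsm.θ1 0
      have t1 := hsm.θ1 1
      have t2 := hsm.θ1 2
      obtain ⟨φ, f1, f2, f3⟩ := auxCoreW hA hEnv hL hpP hN6 (pvL l.2.1) (pvL_inj _)
        ![FL m n k 1 1, l.1] S' θ hbox hcong hv hd (boxP θ (18 * L)) (θ 0 * θ 1 * (18 * L))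
        (2 * (θ 0 * θ 1 * (18 * L)))
        (by
          show θ 0 * (θ 1 * (18 * L)) + θ 1 * (θ 0 * (18 * L)) + θ 2 * 0 ≤ _
          exact le_of_eq (by ring))
        (by
          show (θ 1 * (18 * L) + 1) * (θ 0 * (18 * L) + 1) * (0 + 1) ≤ N ^ 2
          rw [zero_add, mul_one]
          exact cntP hEnv hL hsm hNw2 t1 t0 ((mul_comm _ _).trans_le hsm.pair01))
        (by
          show 2 * (θ 0 * θ 1 * (18 * L) + 2 * (θ 0 * θ 1 * (18 * L)) + 2) *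
            (L * (θ 0 * θ 1 * (18 * L) + 2 * (θ 0 * θ 1 * (18 * L)) + 2)) ^ (3 - 2)
            ≤ θ 0 * θ 1 * (18 * L) * ((θ 1 * (18 * L) + 1) * (θ 0 * (18 * L) + 1) * (0 + 1))
          refine (cnt2 t0 t1).trans (le_of_eq (by ring)))
      obtain ⟨ψ, g1, g2, g3⟩ := auxCoreW hA hEnv hL hpP hN6 (pvL l.2.1) (pvL_inj _)
        ![FL m n k 1 1, l.1] S' θ hbox hcong hv hd (boxQ θ (18 * L)) (θ 0 * θ 2 * (18 * L))
        (2 * (θ 0 * θ 2 * (18 * L)))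
        (by
          show θ 0 * (θ 2 * (18 * L)) + θ 1 * 0 + θ 2 * (θ 0 * (18 * L)) ≤ _
          exact le_of_eq (by ring))
        (by
          show (θ 2 * (18 * L) + 1) * (0 + 1) * (θ 0 * (18 * L) + 1) ≤ N ^ 2
          rw [zero_add, mul_one]
          exact cntP hEnv hL hsm hNw2 t2 t0 ((mul_comm _ _).trans_le hsm.pair02))
        (by
          show 2 * (θ 0 * θ 2 * (18 * L) + 2 * (θ 0 * θ 2 * (18 * L)) + 2) *
            (L * (θ 0 * θ 2 * (18 * L) + 2 * (θ 0 * θ 2 * (18 * L)) + 2)) ^ (3 - 2)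
            ≤ θ 0 * θ 2 * (18 * L) * ((θ 2 * (18 * L) + 1) * (0 + 1) * (θ 0 * (18 * L) + 1))
          refine (cnt2 t0 t2).trans (le_of_eq (by ring)))
      obtain ⟨χ, c1, c2, c3⟩ := auxCoreW hA hEnv hL hpP hN6 (pvL l.2.1) (pvL_inj _)
        ![FL m n k 1 1, l.1] S' θ hbox hcong hv hd (boxR θ (18 * L)) (θ 1 * θ 2 * (18 * L))
        (2 * (θ 1 * θ 2 * (18 * L)))
        (by
          show θ 0 * 0 + θ 1 * (θ 2 * (18 * L)) + θ 2 * (θ 1 * (18 * L)) ≤ _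
          exact le_of_eq (by ring))
        (by
          show (0 + 1) * (θ 2 * (18 * L) + 1) * (θ 1 * (18 * L) + 1) ≤ N ^ 2
          rw [zero_add, one_mul]
          exact cntP hEnv hL hsm hNw2 t2 t1 ((mul_comm _ _).trans_le hsm.pair12))
        (by
          show 2 * (θ 1 * θ 2 * (18 * L) + 2 * (θ 1 * θ 2 * (18 * L)) + 2) *
            (L * (θ 1 * θ 2 * (18 * L) + 2 * (θ 1 * θ 2 * (18 * L)) + 2)) ^ (3 - 2)
            ≤ θ 1 * θ 2 * (18 * L) * ((0 + 1) * (θ 2 * (18 * L) + 1) * (θ 1 * (18 * L) + 1))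
          refine (cnt2 t1 t2).trans (le_of_eq (by ring)))
      exact ⟨φ, ψ, χ, f1, g1, c1, f2, g2, c2, fun P hP => ⟨f3 P hP, g3 P hP, c3 P hP⟩⟩
  have hPPc := hEnv.card_le
  simp only [Finset.card_product, Finset.card_range] at hcard
  calc S.card ≤ _ := hcard
    _ ≤ (Q * (D0 + 1) ^ 3) * (2 * ((3 * Q) * (3 * Q * (3 * Q * (3 * Q))))) * B := by gcongr
    _ = 162 * (D0 + 1) ^ 3 * Q ^ 5 * B := by ring

end Pool.Agent.Work.MP_2738db_nt_B
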