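import Pool.Agent.Work.MP_2738db_nt_T.Wt
import Pool.Agent.Work.MP_2738db_nt_T.LevL01
import Pool.Agent.Work.MP_2738db_nt_T.LPoly

set_option autoImplicit false

/-!
# The torus, box version
-/

namespace Pool.Agent.Work.MP_2738db_nt_B

open MvPolynomial Pool.Agent.Work.MP_2738db_nt_T

/-- box version of `Stmt_Wt` -/
def Stmt_WtB : Prop :=
  ∀ (d0 d1 H m n : ℕ) (φ : MvPolynomial (Fin 3) ℤ), 1 ≤ m → 1 ≤ n → φ ≠ 0 →
    BddB ![d0, d1, 0] H φ →
    ∃ (WW : Finset (MvPolynomial (Fin 3) ℤ)) (Ex : Finset (ℤ × ℤ)),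
      WW.card ≤ (d0 + 1) * (d1 + 1) + 1 ∧ Ex.card ≤ d0 + d1 ∧
      (∀ η ∈ WW, BddB ![d0, d1, 0] ((n * d0 + m * d1 + 1) ^ ((d0 + 1) * (d1 + 1)) * H) η) ∧
      ∀ P : Pt, 0 < P 0 → 0 < P 1 → IsCoprime (P 0) (P 1) → eval P φ = 0 →
        (P 0, P 1) ∈ Ex ∨ ∃ η ∈ WW, eval P η = 0 ∧
          (n : ℤ) * P 0 * eval P (pderiv 0 η) + (m : ℤ) * P 1 * eval P (pderiv 1 η) ≠ 0

lemma bdd_of_bddB {d0 d1 H : ℕ} {φ : MvPolynomial (Fin 3) ℤ} (h : BddB ![d0, d1, 0] H φ) :
    Bdd (d0 + d1) H φ := by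
  refine ⟨totalDegree_le_of ?_, h.2⟩
  intro β hβ
  have h0 : β 0 ≤ d0 := h.1 β hβ 0
  have h1 : β 1 ≤ d1 := h.1 β hβ 1
  have h2 : β 2 ≤ 0 := h.1 β hβ 2
  omega

lemma bddB_eul {d0 d1 H : ℕ} (m n q : ℕ) {φ : MvPolynomial (Fin 3) ℤ}
    (h : BddB ![d0, d1, 0] H φ) (hq : q ≤ (d0 + 1) * (d1 + 1)) :
    BddB ![d0, d1, 0] ((n * d0 + m * d1 + 1) ^ ((d0 + 1) * (d1 + 1)) * H) (eul m n q φ) := by
  constructor
  · intro β hβ
    apply h.1 β
    rw [mem_support_iff, coeff_eul] at hβ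
    rw [mem_support_iff]
    intro h0
    exact hβ (by rw [h0, mul_zero])
  · intro β
    rw [coeff_eul, abs_mul]
    by_cases h0 : coeff β φ = 0
    · rw [h0, abs_zero, mul_zero]; positivity
    · have h1 := h.1 β (mem_support_iff.mpr h0)
      have h2 : wgt m n β ≤ n * d0 + m * d1 + 1 := by
        unfold wgt
        have h3 : β 0 ≤ d0 := h1 0
        have h4 : β 1 ≤ d1 := h1 1
        have h5 := Nat.mul_le_mul_left n h3
        have h6 := Nat.mul_le_mul_left m h4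
        omega
      have h3 : |((wgt m n β : ℤ)) ^ q| ≤ (((n * d0 + m * d1 + 1) ^ ((d0 + 1) * (d1 + 1)) : ℕ) : ℤ) := by
        rw [abs_of_nonneg (by positivity)]
        have h5 : (wgt m n β) ^ q ≤ (n * d0 + m * d1 + 1) ^ ((d0 + 1) * (d1 + 1)) :=
          (Nat.pow_le_pow_left h2 q).trans (Nat.pow_le_pow_right (by omega) hq)
        exact_mod_cast h5
      have h6 := mul_le_mul h3 (h.2 β) (abs_nonneg _) (by positivity)
      push_cast at h6 ⊢
      exact h6

theorem wtB : Stmt_WtB := by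
  classical
  intro d0 d1 H m n φ hm hn hφ hB
  have h2 : pderiv 2 φ = 0 := hB.pderiv_eq_zero rfl
  have hB' := bdd_of_bddB hB
  obtain ⟨γ, hγ⟩ : φ.support.Nonempty := by
    rwa [Finset.nonempty_iff_ne_empty, Ne, support_eq_empty]
  obtain ⟨Ex, hEx, hEx2⟩ := finite_quasi m n hm hn hB' h2 hγ
  have hcard : φ.support.card ≤ (d0 + 1) * (d1 + 1) := by
    refine (card_support_le_box hB).trans (le_of_eq ?_)
    show (d0 + 1) * (d1 + 1) * (0 + 1) = _
    ring
  refine ⟨(Finset.range ((d0 + 1) * (d1 + 1) + 1)).image (fun q => eul m n q φ), Ex, ?_, hEx, ?_, ?_⟩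
  · exact Finset.card_image_le.trans (by simp)
  · intro η hη
    obtain ⟨q, hq, rfl⟩ := Finset.mem_image.mp hη
    rw [Finset.mem_range] at hq
    exact bddB_eul m n q hB (by omega)
  · intro P hP0 hP1 hc hPφ
    have h0 : eval P (eul m n 0 φ) = 0 := by
      rw [← hPφ]
      congr 1
      ext β
      rw [coeff_eul, pow_zero, one_mul]
    by_cases hall : ∀ q, q ≤ (d0 + 1) * (d1 + 1) → eval P (eul m n q φ) = 0
    · left
      apply hEx2 P hP0 hP1 hc
      apply component_zero φ.support (wgt m n) (fun β => coeff β φ * ∏ i, P i ^ β i)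
        ((d0 + 1) * (d1 + 1)) hcard
      intro q hq
      rw [← hall q hq, eval_eul]
      apply Finset.sum_congr rfl
      intro β _
      ring
    · right
      push Not at hall
      have hex : ∃ q, q ≤ (d0 + 1) * (d1 + 1) ∧ eval P (eul m n q φ) ≠ 0 := hall
      have hspec := Nat.find_spec hex
      have hmin := fun q => Nat.find_min hex (m := q)
      set q := Nat.find hex with hqdef
      have hq0 : q ≠ 0 := by
        intro hq
        rw [hq] at hspec
        exact hspec.2 h0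
      obtain ⟨r, hr⟩ := Nat.exists_eq_succ_of_ne_zero hq0
      refine ⟨eul m n r φ, Finset.mem_image.mpr ⟨r, ?_, rfl⟩, ?_, ?_⟩
      · rw [Finset.mem_range]; omega
      · by_contra hne
        exact hmin r (by omega) ⟨by omega, hne⟩
      · rw [eval_euler]
        have := hspec.2
        rw [hr] at this
        exact this

end Pool.Agent.Work.MP_2738db_nt_B
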