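import Pool.Agent.Work.MP_2738db_nt_T.LevL2
import Pool.Agent.Work.MP_2738db_nt_B.WLev01
import Pool.Agent.Work.MP_2738db_nt_B.WWt
import Pool.Agent.Work.MP_2738db_nt_T.LHen
import Pool.Agent.Work.MP_2738db_nt_T.Hen

set_option autoImplicit false

/-!
# Weighted boxes: level 2 and the count for one signature
-/

namespace Pool.Agent.Work.MP_2738db_nt_B

open MvPolynomial Pool.Agent.Work.MP_2738db_nt_T

lemma lev2W_fibre (hU : Stmt_Uniq) {N A m n k : ℕ} {θ : Fin 3 → ℕ} (S : Finset Pt)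
    (hS : ∀ P ∈ S, GoodW N θ A m n k P)
    (l : MvPolynomial (Fin 3) ℤ × MvPolynomial (Fin 3) ℤ × ℕ × (ℕ × ℕ × ℕ)) (hp : l.2.2.1.Prime)
    (h : ∀ P ∈ S, R2L m n k 1 1 P l) : S.card ≤ 1 := by
  rw [Finset.card_le_one]
  intro P hP P' hP'
  obtain ⟨h1, h2, h3, h4⟩ := h P hP
  obtain ⟨h1', h2', h3', h4'⟩ := h P' hP'
  apply hU (jacL m n k 1 1 l.1 l.2.1) l.2.2.1 P P' hp (res_eq hp.pos (h4.trans h4'.symm))
  · intro ρ
    fin_cases ρ
    · exact (hS P hP).eval_FL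
    · exact h1
    · exact h2
  · intro ρ
    fin_cases ρ
    · exact (hS P' hP').eval_FL
    · exact h1'
    · exact h2'
  · exact h3

/-- points with prescribed first two coordinates -/
lemma lev2W_ex {N A m n k : ℕ} {θ : Fin 3 → ℕ} (hk : 1 ≤ k) (S : Finset Pt)
    (hS : ∀ P ∈ S, GoodW N θ A m n k P)
    (Ex : Finset (ℤ × ℤ)) (h : ∀ P ∈ S, (P 0, P 1) ∈ Ex) : S.card ≤ Ex.card := by
  apply Finset.card_le_card_of_injOn (fun P : Pt => (P 0, P 1)) (fun P hP => h P hP)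
  intro P hP P' hP' heq
  simp only [Prod.mk.injEq] at heq
  have h1 := (hS P hP).eq
  have h2 := (hS P' hP').eq
  rw [heq.1, heq.2, h2] at h1
  have h3 : P' 2 = P 2 :=
    (pow_left_inj₀ ((hS P' hP').pos 2).le ((hS P hP).pos 2).le (by omega)).mp h1
  funext i
  fin_cases i
  · exact heq.1
  · exact heq.2
  · exact h3.symm

/-- values of the derivatives, general height -/
lemma evPd' (hPd : Stmt_BddBPderiv) (hE : Stmt_BddBEval) {d : Fin 3 → ℕ} {N t e u : ℕ}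
    {θ : Fin 3 → ℕ} {G : MvPolynomial (Fin 3) ℤ} {P : Pt} (hN : 1 ≤ N) (hd : ∀ i, d i ≤ N)
    (hG : BddB d (N ^ t) G) (hP : ∀ i, |P i| ≤ (szW N θ i : ℤ))
    (hc : (d 0 + 1) * (d 1 + 1) * (d 2 + 1) ≤ N ^ 2)
    (he : θ 0 * d 0 + θ 1 * d 1 + θ 2 * d 2 ≤ e) (hu : 3 + t + e ≤ u) (i : Fin 3) :
    |eval P (pderiv i G)| ≤ (N : ℤ) ^ u := by
  have h1 := hPd d _ G i hG
  have h2 : d i * N ^ t ≤ N ^ (1 + t) := by
    rw [pow_add, pow_one]
    exact Nat.mul_le_mul_right _ (hd i)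
  refine (evalW_le hE h1 hN hP h2 hc he).trans ?_
  apply pow_le_pow_right₀ (by exact_mod_cast hN)
  omega

def Stmt_Lev2W : Prop :=
  ∀ L D1 h : ℕ, 1 ≤ L → ∃ A E C N0 : ℕ, ∀ (N Q M : ℕ) (PP : Finset ℕ), N0 ≤ N →
    Env L E N Q M PP → ∀ (W : ℕ) (θ : Fin 3 → ℕ) (m n k : ℕ), Small W M Q θ m n k →
    ∀ φ ψ χ : MvPolynomial (Fin 3) ℤ, φ ≠ 0 → ψ ≠ 0 → χ ≠ 0 →
      BddB (boxP θ D1) (N ^ (θ 0 * θ 1 * h)) φ → BddB (boxQ θ D1) (N ^ (θ 0 * θ 2 * h)) ψ →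
      BddB (boxR θ D1) (N ^ (θ 1 * θ 2 * h)) χ →
    ∀ (S : Finset Pt), (∀ P ∈ S, GoodW N θ A m n k P) →
      (∀ P ∈ S, eval P φ = 0 ∧ eval P ψ = 0 ∧ eval P χ = 0) → S.card ≤ C * Q ^ 6

theorem lev2W (hU : Stmt_Uniq) (hW : Stmt_WtB) (hSel : Stmt_SelB) (hPd : Stmt_BddBPderiv)
    (hE : Stmt_BddBEval) : Stmt_Lev2W := by
  intro L D1 h hL
  set e : ℕ := (D1 + 1) ^ 2 with he
  set hη : ℕ := 3 + (e + h) + 2 * D1 with hhη
  set hb : ℕ := 4 * D1 + h + 3 with hhb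
  obtain ⟨w1, hw1⟩ : ∃ w, w = 8 ^ L * (D1 + 1) ^ 6 := ⟨_, rfl⟩
  obtain ⟨w2, hw2⟩ : ∃ w, w = 4 * (2 * D1 + 1) ^ 2 * 2 ^ L := ⟨_, rfl⟩
  obtain ⟨w3, hw3⟩ : ∃ w, w = 4 * (D1 + 1) ^ 2 * 2 ^ L := ⟨_, rfl⟩
  obtain ⟨w4, hw4⟩ : ∃ w, w = 4 * (1 + 1) ^ 2 * 2 ^ L := ⟨_, rfl⟩
  refine ⟨3 + hη + hb, 4 + hη + hb, 2 * D1 + ((e + 1) * (2 * (D1 + 1) ^ 2) * 81),
    4 + w1 + w2 + w3 + w4, ?_⟩
  intro N Q M PP hN hEnv W θ m n k hsm φ ψ χ hφ hψ hχ bφ bψ bχ S hS hvan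
  classical
  have hN1 : 1 ≤ N := by omega
  have hN2 : 2 ≤ N := by omega
  have hN4 : 4 ≤ N := by omega
  have hNw1 : 8 ^ L * (D1 + 1) ^ 6 ≤ N := by rw [← hw1]; omega
  have hNw2 : 4 * (2 * D1 + 1) ^ 2 * 2 ^ L ≤ N := by rw [← hw2]; omega
  have hNw3 : 4 * (D1 + 1) ^ 2 * 2 ^ L ≤ N := by rw [← hw3]; omega
  have hNw4 : 4 * (1 + 1) ^ 2 * 2 ^ L ≤ N := by rw [← hw4]; omega
  have hT1 := hsm.Th_pos
  have hTM := hsm.Th_le_M
  have t0 := hsm.θ1 0
  have t1 := hsm.θ1 1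
  have t2 := hsm.θ1 2
  have p01 := hsm.pair01
  have p02 := hsm.pair02
  have p12 := hsm.pair12
  have hTD : Th θ * D1 + 1 ≤ N := hEnv.small hL hsm.hMM hTM hNw3
  have hM2 : M * (2 * D1) + 1 ≤ N := hEnv.small hL hsm.hMM (le_refl M) hNw2
  have hMN : M ≤ N := by
    have := hEnv.small hL hsm.hMM (le_refl M) hNw4
    omega
  have hWN : W ≤ N := hsm.W_le_M.trans hMN
  have hθT : ∀ i, θ i ≤ Th θ := by
    intro i
    fin_cases i
    · exact le_trans (Nat.le_mul_of_pos_right _ t1) p01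
    · exact le_trans (Nat.le_mul_of_pos_left _ t0) p01
    · exact le_trans (Nat.le_mul_of_pos_left _ t0) p02
  have hθD : ∀ i, θ i * D1 ≤ Th θ * D1 := fun i => Nat.mul_le_mul_right _ (hθT i)
  have hθD0 := hθD 0
  have hθD1 := hθD 1
  have hθD2 := hθD 2
  have hMQ : M ≤ Q := hEnv.hMQ
  have hW2M : W * W ≤ M := by
    have h1 : W ^ 2 ≤ M := (Nat.pow_le_pow_right hsm.hW1 (by norm_num)).trans hsm.hWM
    calc W * W = W ^ 2 := by ring
      _ ≤ M := h1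
  -- block WT
  have dφ : pderiv 2 φ = 0 := bφ.pderiv_eq_zero rfl
  have dψ : pderiv 1 ψ = 0 := bψ.pderiv_eq_zero rfl
  have dχ : pderiv 0 χ = 0 := bχ.pderiv_eq_zero rfl
  obtain ⟨WW, Ex, hWc, hExc, hWB, hWP⟩ := hW (θ 1 * D1) (θ 0 * D1) (N ^ (θ 0 * θ 1 * h)) m n φ
    hsm.m1 hsm.n1 hφ bφ
  obtain ⟨Dψ, hDψc, hDψB, hDψd, hDψP⟩ := hSel _ _ ψ hψ bψ
  obtain ⟨Dχ, hDχc, hDχB, hDχd, hDχP⟩ := hSel _ _ χ hχ bχ
  have hone : ∀ u v : ℕ, 1 ≤ u → 1 ≤ v → (u * D1 + 1) * (v * D1 + 1) ≤ u * v * (D1 + 1) ^ 2 := by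
    intro u v hu hv
    have e1 : ∀ t : ℕ, 1 ≤ t → t * D1 + 1 ≤ t * (D1 + 1) := fun t ht => by rw [mul_add]; omega
    calc (u * D1 + 1) * (v * D1 + 1) ≤ (u * (D1 + 1)) * (v * (D1 + 1)) :=
          Nat.mul_le_mul (e1 u hu) (e1 v hv)
      _ = u * v * (D1 + 1) ^ 2 := by ring
  -- bounds for η
  have hηH : ∀ η ∈ WW, BddB (boxP θ D1) (N ^ (θ 0 * θ 1 * (e + h))) η := by
    intro η hη'
    have hB := hWB η hη'
    refine ⟨hB.1, ?_⟩
    intro β
    refine (hB.2 β).trans ?_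
    have h1 : n * (θ 1 * D1) + m * (θ 0 * D1) + 1 ≤ N := by
      have a1 : n * θ 1 ≤ M := (Nat.mul_le_mul hsm.nW (hsm.θW 1)).trans hW2M
      have a2 : m * θ 0 ≤ M := (Nat.mul_le_mul hsm.mW (hsm.θW 0)).trans hW2M
      have a3 : n * (θ 1 * D1) ≤ M * D1 := by
        rw [← mul_assoc]; exact Nat.mul_le_mul_right _ a1
      have a4 : m * (θ 0 * D1) ≤ M * D1 := by
        rw [← mul_assoc]; exact Nat.mul_le_mul_right _ a2
      have a5 : M * (2 * D1) = M * D1 + M * D1 := by ring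
      omega
    have h3 : (θ 1 * D1 + 1) * (θ 0 * D1 + 1) ≤ θ 0 * θ 1 * e := by
      refine (hone _ _ t1 t0).trans (le_of_eq ?_)
      rw [he]; ring
    have h2 : (n * (θ 1 * D1) + m * (θ 0 * D1) + 1) ^ ((θ 1 * D1 + 1) * (θ 0 * D1 + 1))
        * N ^ (θ 0 * θ 1 * h) ≤ N ^ (θ 0 * θ 1 * (e + h)) := by
      rw [mul_add (θ 0 * θ 1), pow_add]
      refine Nat.mul_le_mul_right _ ?_
      exact (Nat.pow_le_pow_left h1 _).trans (Nat.pow_le_pow_right hN1 h3)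
    exact_mod_cast h2
  have hevη : ∀ η ∈ WW, ∀ P ∈ S, ∀ i, |eval P (pderiv i η)| ≤ (N : ℤ) ^ (Th θ * hη) := by
    intro η hη' P hP i
    refine evPd' hPd hE (e := 2 * (θ 0 * θ 1 * D1)) hN1 ?_ (hηH η hη') (hS P hP).abs_le ?_ ?_ ?_ i
    · intro i
      fin_cases i
      · show θ 1 * D1 ≤ N
        omega
      · show θ 0 * D1 ≤ N
        omega
      · exact Nat.zero_le _
    · show (θ 1 * D1 + 1) * (θ 0 * D1 + 1) * (0 + 1) ≤ N ^ 2
      rw [zero_add, mul_one]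
      exact cntP hEnv hL hsm hNw1 t1 t0 ((mul_comm _ _).trans_le p01)
    · show θ 0 * (θ 1 * D1) + θ 1 * (θ 0 * D1) + θ 2 * 0 ≤ _
      exact le_of_eq (by ring)
    · rw [hhη]
      have e1 : Th θ * (3 + (e + h) + 2 * D1) = 3 * Th θ + Th θ * (e + h) + 2 * (Th θ * D1) := by ring
      have e2 := Nat.mul_le_mul_right (e + h) p01
      have e3 := Nat.mul_le_mul_right D1 p01
      rw [e1]
      omega
  -- bounds for b
  have hNz : (1 : ℤ) ≤ N := by exact_mod_cast hN1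
  have hevb : ∀ b ∈ Dψ ∪ Dχ, ∀ P ∈ S, ∀ i, |eval P (pderiv i b)| ≤ (N : ℤ) ^ (Th θ * hb) := by
    intro b hb' P hP i
    have e1 : Th θ * hb = 4 * (Th θ * D1) + Th θ * h + 3 * Th θ := by rw [hhb]; ring
    rcases Finset.mem_union.mp hb' with h1 | h1
    · refine evPd hPd hE (s := 2 * (Th θ * D1)) (e := 2 * (θ 0 * θ 2 * D1)) hN1 ?_ ?_ (hDψB b h1)
        (hS P hP).abs_le ?_ ?_ ?_ i
      · intro i
        fin_cases i
        · show θ 2 * D1 ≤ N
          omega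
        · exact Nat.zero_le _
        · show θ 0 * D1 ≤ N
          omega
      · show θ 2 * D1 + 0 + θ 0 * D1 ≤ _
        omega
      · show (θ 2 * D1 + 1) * (0 + 1) * (θ 0 * D1 + 1) ≤ N ^ 2
        rw [zero_add, mul_one]
        exact cntP hEnv hL hsm hNw1 t2 t0 ((mul_comm _ _).trans_le p02)
      · show θ 0 * (θ 2 * D1) + θ 1 * 0 + θ 2 * (θ 0 * D1) ≤ _
        exact le_of_eq (by ring)
      · have e2 := Nat.mul_le_mul_right h p02
        have e3 := Nat.mul_le_mul_right D1 p02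
        rw [e1]
        omega
    · refine evPd hPd hE (s := 2 * (Th θ * D1)) (e := 2 * (θ 1 * θ 2 * D1)) hN1 ?_ ?_ (hDχB b h1)
        (hS P hP).abs_le ?_ ?_ ?_ i
      · intro i
        fin_cases i
        · exact Nat.zero_le _
        · show θ 2 * D1 ≤ N
          omega
        · show θ 1 * D1 ≤ N
          omega
      · show 0 + θ 2 * D1 + θ 1 * D1 ≤ _
        omega
      · show (0 + 1) * (θ 2 * D1 + 1) * (θ 1 * D1 + 1) ≤ N ^ 2
        rw [zero_add, one_mul]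
        exact cntP hEnv hL hsm hNw1 t2 t1 ((mul_comm _ _).trans_le p12)
      · show θ 0 * 0 + θ 1 * (θ 2 * D1) + θ 2 * (θ 1 * D1) ≤ _
        exact le_of_eq (by ring)
      · have e2 := Nat.mul_le_mul_right h p12
        have e3 := Nat.mul_le_mul_right D1 p12
        rw [e1]
        omega
  -- split off the exceptional points
  set S1 := S.filter (fun P => (P 0, P 1) ∈ Ex) with hS1
  set S2 := S.filter (fun P => ¬ (P 0, P 1) ∈ Ex) with hS2
  have hsplit : S.card = S1.card + S2.card := (Finset.card_filter_add_card_filter_not _).symm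
  have hcard1 : S1.card ≤ 2 * D1 * Q := by
    refine le_trans (lev2W_ex (N := N) (θ := θ) (A := 3 + hη + hb) (m := m) (n := n)
      hsm.k1 S1 ?_ Ex ?_) (hExc.trans ?_)
    · intro P hP
      exact hS P (Finset.mem_of_mem_filter _ hP)
    · intro P hP
      exact (Finset.mem_filter.mp hP).2
    · have a0 : θ 0 * D1 ≤ Q * D1 := Nat.mul_le_mul_right _ ((hθT 0).trans (hTM.trans hMQ))
      have a1 : θ 1 * D1 ≤ Q * D1 := Nat.mul_le_mul_right _ ((hθT 1).trans (hTM.trans hMQ))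
      have a2 : 2 * D1 * Q = Q * D1 + Q * D1 := by ring
      omega
  have hEM : W ^ 2 + 3 + Th θ * (hη + hb) ≤ (4 + hη + hb) * M := by
    have h1 : W ^ 2 ≤ M := (Nat.pow_le_pow_right hsm.hW1 (by norm_num)).trans hsm.hWM
    have h2 := Nat.mul_le_mul_right (hη + hb) hTM
    have h3 := hEnv.hM1
    have e1 : (4 + hη + hb) * M = 4 * M + M * (hη + hb) := by ring
    rw [e1]
    omega
  have hcard2 : S2.card ≤ (WW ×ˢ ((Dψ ∪ Dχ) ×ˢ (PP ×ˢ (Finset.range (3 * Q) ×ˢ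
      (Finset.range (3 * Q) ×ˢ Finset.range (3 * Q)))))).card * 1 := by
    apply card_le_of_rel S2 _ (R2L m n k 1 1) 1
    · intro P hP
      obtain ⟨hPS, hPEx⟩ := Finset.mem_filter.mp hP
      obtain ⟨hvφ, hvψ, hvχ⟩ := hvan P hPS
      have hG := hS P hPS
      rcases hWP P (hG.pos 0) (hG.pos 1) hG.c01 hvφ with h1 | ⟨η, hηW, hη0, hη1⟩
      · exact absurd h1 hPEx
      have dη : pderiv 2 η = 0 := (hηH η hηW).pderiv_eq_zero rfl
      -- choose b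
      have hchoice : ∃ b ∈ Dψ ∪ Dχ, eval P b = 0 ∧ (eval P (pderiv 2 b) ≠ 0 ∨
          eval P (pderiv 0 η) * eval P (pderiv 1 b) - eval P (pderiv 1 η) * eval P (pderiv 0 b) ≠ 0) := by
        obtain ⟨b, hb1, hb2, i, hi⟩ := hDψP P hvψ
        obtain ⟨b', hb1', hb2', i', hi'⟩ := hDχP P hvχ
        have d1 := hDψd 1 dψ b hb1
        have d2 := hDχd 0 dχ b' hb1'
        by_cases he1 : eval P (pderiv 1 η) = 0
        · -- use b'
          refine ⟨b', Finset.mem_union_right _ hb1', hb2', ?_⟩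
          rw [he1, mul_zero, add_zero] at hη1
          have he0 : eval P (pderiv 0 η) ≠ 0 := fun h0 => hη1 (by rw [h0, mul_zero])
          fin_cases i'
          · exact absurd (by simp [d2]) hi'
          · right
            rw [he1, zero_mul, sub_zero]
            exact mul_ne_zero he0 hi'
          · exact Or.inl hi'
        · refine ⟨b, Finset.mem_union_left _ hb1, hb2, ?_⟩
          fin_cases i
          · right
            rw [d1, map_zero, mul_zero, zero_sub]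
            exact neg_ne_zero.mpr (mul_ne_zero he1 hi)
          · exact absurd (by simp [d1]) hi
          · exact Or.inl hi
      obtain ⟨b, hbm, hb0, hbc⟩ := hchoice
      have hx0 := hevη η hηW P hPS 0
      have hx1 := hevη η hηW P hPS 1
      have hy0 := hevb b hbm P hPS 0
      have hy1 := hevb b hbm P hPS 1
      have hy2 := hevb b hbm P hPS 2
      have hN2z : (2 : ℤ) ≤ N := by exact_mod_cast hN2
      have hN4z : (4 : ℤ) ≤ N := by exact_mod_cast hN4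
      have hmz : (m : ℤ) ≤ (N : ℤ) := by exact_mod_cast hsm.mW.trans hWN
      have hnz : (n : ℤ) ≤ (N : ℤ) := by exact_mod_cast hsm.nW.trans hWN
      have hszl : ((n : ℤ) * P 0 * |eval P (pderiv 0 η)| + (m : ℤ) * P 1 * |eval P (pderiv 1 η)|)
          * |eval P (pderiv 2 b)| < P 2 ^ (k - 1) := by
        refine lt_of_le_of_lt ?_ hG.big
        have hPT : ∀ i, P i ≤ (N : ℤ) ^ Th θ := fun i =>
          (hG.le i).trans (pow_le_pow_right₀ hNz (hθT i))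
        have g0 : (n : ℤ) * P 0 * |eval P (pderiv 0 η)| ≤ (N : ℤ) * (N : ℤ) ^ Th θ * (N : ℤ) ^ (Th θ * hη) := by
          apply mul_le_mul (mul_le_mul hnz (hPT 0) (hG.pos 0).le (by positivity)) hx0 (abs_nonneg _)
          positivity
        have g1 : (m : ℤ) * P 1 * |eval P (pderiv 1 η)| ≤ (N : ℤ) * (N : ℤ) ^ Th θ * (N : ℤ) ^ (Th θ * hη) := by
          apply mul_le_mul (mul_le_mul hmz (hPT 1) (hG.pos 1).le (by positivity)) hx1 (abs_nonneg _)
          positivity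
        calc ((n : ℤ) * P 0 * |eval P (pderiv 0 η)| + (m : ℤ) * P 1 * |eval P (pderiv 1 η)|)
              * |eval P (pderiv 2 b)|
            ≤ ((N : ℤ) * (N : ℤ) ^ Th θ * (N : ℤ) ^ (Th θ * hη)
                + (N : ℤ) * (N : ℤ) ^ Th θ * (N : ℤ) ^ (Th θ * hη)) * (N : ℤ) ^ (Th θ * hb) := by
              apply mul_le_mul (add_le_add g0 g1) hy2 (abs_nonneg _)
              positivity
          _ = 2 * (N : ℤ) ^ (1 + Th θ + Th θ * hη + Th θ * hb) := by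
              rw [pow_add, pow_add, pow_add, pow_one]; ring
          _ ≤ (N : ℤ) * (N : ℤ) ^ (1 + Th θ + Th θ * hη + Th θ * hb) := by
              apply mul_le_mul_of_nonneg_right hN2z (by positivity)
          _ = (N : ℤ) ^ (2 + Th θ + Th θ * hη + Th θ * hb) := by rw [← pow_succ']; congr 1; omega
          _ ≤ (N : ℤ) ^ ((3 + hη + hb) * Th θ) := by
              apply pow_le_pow_right₀ hNz
              have e1 : (3 + hη + hb) * Th θ = 3 * Th θ + Th θ * hη + Th θ * hb := by ring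
              rw [e1]
              omega
      have hdet := det_jacL m n k 1 1 η b dη P
      have hone' : (1 : ℤ) = 1 ∨ (1 : ℤ) = -1 := Or.inl rfl
      have hdet0 : (Matrix.of fun ρ i => eval P (pderiv i (jacL m n k 1 1 η b ρ))).det ≠ 0 := by
        rw [hdet]
        exact ari2L _ _ _ _ _ _ _ _ 1 1 m n k (hG.pos 0) (hG.pos 1) (hG.pos 2) hsm.m1 hsm.n1 hsm.k1
          hone' hone' hG.c12 (by rw [one_mul, one_mul]; exact hG.eq) hη1 hbc hszl
      have hdetB : |(Matrix.of fun ρ i => eval P (pderiv i (jacL m n k 1 1 η b ρ))).det|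
          ≤ (N : ℤ) ^ ((4 + hη + hb) * M) := by
        rw [hdet]
        have k0 := gradW_le hsm.mW (hsm.θW 0) hN1 (hG.pos 0) (hG.le 0) hWN
        have k1 := gradW_le hsm.nW (hsm.θW 1) hN1 (hG.pos 1) (hG.le 1) hWN
        have k2 := gradW_le hsm.kW (hsm.θW 2) hN1 (hG.pos 2) (hG.le 2) hWN
        have hp2 : ∀ u v : ℤ, |u| ≤ (N : ℤ) ^ (Th θ * hη) → |v| ≤ (N : ℤ) ^ (Th θ * hb) →
            |u * v| ≤ (N : ℤ) ^ (Th θ * (hη + hb)) := by
          intro u v hu hv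
          rw [abs_mul, mul_add (Th θ), pow_add]
          exact mul_le_mul hu hv (abs_nonneg _) (by positivity)
        have hp3 : ∀ u v : ℤ, |u| ≤ (N : ℤ) ^ (W ^ 2 + 2) → |v| ≤ (N : ℤ) ^ (Th θ * (hη + hb)) →
            |u * v| ≤ (N : ℤ) ^ (W ^ 2 + 2 + Th θ * (hη + hb)) := by
          intro u v hu hv
          rw [abs_mul, pow_add _ (W ^ 2 + 2)]
          exact mul_le_mul hu hv (abs_nonneg _) (by positivity)
        have q0 := hp3 _ _ k0 (hp2 _ _ hx1 hy2)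
        have q1 := hp3 _ _ k1 (hp2 _ _ hx0 hy2)
        have q2 := hp3 _ _ k2 (hp2 _ _ hx0 hy1)
        have q3 := hp3 _ _ k2 (hp2 _ _ hx1 hy0)
        have hfin : 4 * (N : ℤ) ^ (W ^ 2 + 2 + Th θ * (hη + hb)) ≤ (N : ℤ) ^ ((4 + hη + hb) * M) := by
          calc 4 * (N : ℤ) ^ (W ^ 2 + 2 + Th θ * (hη + hb))
              ≤ (N : ℤ) * (N : ℤ) ^ (W ^ 2 + 2 + Th θ * (hη + hb)) := by
                apply mul_le_mul_of_nonneg_right hN4z (by positivity)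
            _ = (N : ℤ) ^ (W ^ 2 + 3 + Th θ * (hη + hb)) := by rw [← pow_succ']; congr 1; omega
            _ ≤ (N : ℤ) ^ ((4 + hη + hb) * M) := pow_le_pow_right₀ hNz hEM
        refine le_trans ?_ hfin
        rw [abs_le] at q0 q1 q2 q3
        rw [abs_le]
        constructor
        · linarith [q0.1, q0.2, q1.1, q1.2, q2.1, q2.2, q3.1, q3.2]
        · linarith [q0.1, q0.2, q1.1, q1.2, q2.1, q2.2, q3.1, q3.2]
      obtain ⟨p, hpP, hpd⟩ := hEnv.exists_prime hL (by omega) hdet0 hdetB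
      refine ⟨(η, b, p, res p P), ?_, hη0, hb0, hpd, rfl⟩
      simp only [Finset.mem_product]
      refine ⟨hηW, hbm, hpP, ?_⟩
      have := res_mem (hEnv.prime p hpP).pos (hEnv.hi p hpP) P
      simpa only [Finset.mem_product] using this
    · intro l hl S' hS' hR
      apply lev2W_fibre hU (N := N) (θ := θ) (A := 3 + hη + hb) (m := m) (n := n) (k := k) S' ?_ l ?_ hR
      · intro P hP
        exact hS P (Finset.mem_of_mem_filter _ (hS' hP))
      · simp only [Finset.mem_product] at hl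
        exact hEnv.prime _ hl.2.2.1
  -- final count
  have hpairQ : ∀ u v : ℕ, 1 ≤ u → 1 ≤ v → u * v ≤ Th θ →
      (u * D1 + 1) * (v * D1 + 1) ≤ (D1 + 1) ^ 2 * Q := by
    intro u v hu hv huv
    calc (u * D1 + 1) * (v * D1 + 1) ≤ u * v * (D1 + 1) ^ 2 := hone u v hu hv
      _ ≤ Q * (D1 + 1) ^ 2 := Nat.mul_le_mul_right _ (huv.trans (hTM.trans hMQ))
      _ = (D1 + 1) ^ 2 * Q := by ring
  have hcW : WW.card ≤ (e + 1) * Q := by
    refine hWc.trans ?_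
    have a1 := hpairQ (θ 1) (θ 0) t1 t0 ((mul_comm _ _).trans_le p01)
    have a2 : 1 ≤ Q := hEnv.Q_pos
    calc (θ 1 * D1 + 1) * (θ 0 * D1 + 1) + 1 ≤ (D1 + 1) ^ 2 * Q + Q := by omega
      _ = (e + 1) * Q := by rw [he]; ring
  have hcu : (Dψ ∪ Dχ).card ≤ 2 * (D1 + 1) ^ 2 * Q := by
    refine (Finset.card_union_le _ _).trans ?_
    have h1 : Dψ.card ≤ (D1 + 1) ^ 2 * Q := by
      refine hDψc.trans (le_trans (le_of_eq ?_) (hpairQ (θ 2) (θ 0) t2 t0 ((mul_comm _ _).trans_le p02)))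
      show (θ 2 * D1 + 1) * (0 + 1) * (θ 0 * D1 + 1) = _
      ring
    have h2 : Dχ.card ≤ (D1 + 1) ^ 2 * Q := by
      refine hDχc.trans (le_trans (le_of_eq ?_) (hpairQ (θ 2) (θ 1) t2 t1 ((mul_comm _ _).trans_le p12)))
      show (0 + 1) * (θ 2 * D1 + 1) * (θ 1 * D1 + 1) = _
      ring
    calc Dψ.card + Dχ.card ≤ (D1 + 1) ^ 2 * Q + (D1 + 1) ^ 2 * Q := add_le_add h1 h2
      _ = 2 * (D1 + 1) ^ 2 * Q := by ring
  have hPPc := hEnv.card_le
  have hQ := hEnv.Q_pos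
  simp only [Finset.card_product, Finset.card_range, mul_one] at hcard2
  have hQ5 : 1 ≤ Q ^ 5 := Nat.one_le_pow _ _ hQ
  calc S.card = S1.card + S2.card := hsplit
    _ ≤ 2 * D1 * Q + WW.card * ((Dψ ∪ Dχ).card * (PP.card * (3 * Q * (3 * Q * (3 * Q))))) := by gcongr
    _ ≤ 2 * D1 * Q * Q ^ 5
          + ((e + 1) * Q) * ((2 * (D1 + 1) ^ 2 * Q) * ((3 * Q) * (3 * Q * (3 * Q * (3 * Q))))) :=
        add_le_add (Nat.le_mul_of_pos_right _ hQ5)
          (Nat.mul_le_mul hcW (Nat.mul_le_mul hcu (Nat.mul_le_mul_right _ hPPc)))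
    _ = (2 * D1 + ((e + 1) * (2 * (D1 + 1) ^ 2) * 81)) * Q ^ 6 := by ring

/-! ### all together -/

/-- the count for one signature and one triple of weights -/
def Stmt_SigW : Prop :=
  ∀ L : ℕ, 1 ≤ L → ∃ A E C N0 : ℕ, ∀ (N Q M : ℕ) (PP : Finset ℕ), N0 ≤ N →
    Env L E N Q M PP → ∀ (W : ℕ) (θ : Fin 3 → ℕ) (m n k : ℕ), Small W M Q θ m n k →
    ∀ (S : Finset Pt), (∀ P ∈ S, GoodW N θ A m n k P) → S.card ≤ C * Q ^ 14

theorem sigW_of (h0 : Stmt_Lev0W) (h1 : Stmt_Lev1W) (h2 : Stmt_Lev2W) : Stmt_SigW := by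
  intro L hL
  obtain ⟨N0, H0⟩ := h0 L hL
  obtain ⟨A1, E1, C1, N1, H1⟩ := h1 L (128 * L ^ 2) (128 * L ^ 2) hL
  obtain ⟨A2, E2, C2, N2, H2⟩ := h2 L (18 * L) (18 * L) hL
  refine ⟨A1 + A2, E1 + E2 + 1, 27 * C1 * C2, N0 + N1 + N2 + 1, ?_⟩
  intro N Q M PP hN hEnv W θ m n k hsm S hS
  have hN1 : 1 ≤ N := by omega
  have key : S.card ≤ 27 * Q ^ 3 * (C1 * Q ^ 5 * (C2 * Q ^ 6)) := by
    apply H0 N Q M PP (by omega) (hEnv.mono (by omega)) W θ m n k hsm S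
      (fun P hP => (hS P hP).mono hN1 (by omega))
    intro S' hS' hG
    obtain ⟨G, hG0, hGB, hGv⟩ := hG
    apply H1 N Q M PP (by omega) (hEnv.mono (by omega)) W θ m n k hsm
      G hG0 hGB S' (fun P hP => (hS P (hS' hP)).mono hN1 (by omega)) hGv
    intro S'' hS'' hφ
    obtain ⟨φ, ψ, χ, e1, e2, e3, b1, b2, b3, hv⟩ := hφ
    exact H2 N Q M PP (by omega) (hEnv.mono (by omega)) W θ m n k hsm
      φ ψ χ e1 e2 e3 b1 b2 b3 S'' (fun P hP => (hS P (hS' (hS'' hP))).mono hN1 (by omega)) hv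
  calc S.card ≤ _ := key
    _ = 27 * C1 * C2 * Q ^ 14 := by ring

theorem sigW : Stmt_SigW :=
  sigW_of (lev0W stmt_auxGen) (lev1W stmt_auxGen stmt_selB stmt_bddBPderiv stmt_bddBEval)
    (lev2W stmt_uniq wtB stmt_selB stmt_bddBPderiv stmt_bddBEval)

end Pool.Agent.Work.MP_2738db_nt_B
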