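import Pool.Agent.Work.MP_2738db_nt_B.WPart2
import Pool.Agent.Work.MP_2738db_nt_A_helper43.NCFinal

set_option autoImplicit false

/-!
# BALANCE: the two parts together
-/

namespace Pool.Agent.Work.MP_2738db_nt_B

/-- part 1: weighted count of value triples -/
def Stmt_Part1 : Prop :=
  ∀ ε : ℝ, 0 < ε → ∃ (A : ℕ) (δ : ℝ) (N₀ : ℕ), 0 < δ ∧ ∀ N : ℕ, N₀ ≤ N →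
    {τ : ℕ × ℕ × ℕ | ∃ a b c m n k r s t : ℕ, 0 < a ∧ 0 < b ∧ 0 < c ∧
      Nat.Coprime a b ∧ Nat.Coprime b c ∧ Nat.Coprime a c ∧ 2 ≤ m ∧ 2 ≤ n ∧ 2 ≤ k ∧
      1 ≤ r ∧ 1 ≤ s ∧ 1 ≤ t ∧ (r : ℝ) ≤ (N : ℝ) ^ δ ∧ (s : ℝ) ≤ (N : ℝ) ^ δ ∧
      (t : ℝ) ≤ (N : ℝ) ^ δ ∧ a ≤ N ^ r ∧ b ≤ N ^ s ∧ c ≤ N ^ t ∧ a ^ m + b ^ n = c ^ k ∧
      (N ^ (A * (r * s * t)) < c ^ k ∨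
        (r = 1 ∧ s = 1 ∧ t = 1 ∧ (A ≤ m ∨ A ≤ n ∨ A ≤ k))) ∧
      τ = (a ^ m, b ^ n, c ^ k)}.Finite ∧
    ({τ : ℕ × ℕ × ℕ | ∃ a b c m n k r s t : ℕ, 0 < a ∧ 0 < b ∧ 0 < c ∧
      Nat.Coprime a b ∧ Nat.Coprime b c ∧ Nat.Coprime a c ∧ 2 ≤ m ∧ 2 ≤ n ∧ 2 ≤ k ∧
      1 ≤ r ∧ 1 ≤ s ∧ 1 ≤ t ∧ (r : ℝ) ≤ (N : ℝ) ^ δ ∧ (s : ℝ) ≤ (N : ℝ) ^ δ ∧
      (t : ℝ) ≤ (N : ℝ) ^ δ ∧ a ≤ N ^ r ∧ b ≤ N ^ s ∧ c ≤ N ^ t ∧ a ^ m + b ^ n = c ^ k ∧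
      (N ^ (A * (r * s * t)) < c ^ k ∨
        (r = 1 ∧ s = 1 ∧ t = 1 ∧ (A ≤ m ∨ A ≤ n ∨ A ≤ k))) ∧
      τ = (a ^ m, b ^ n, c ^ k)}.ncard : ℝ) ≤ (N : ℝ) ^ ε

/-- part 2: the dichotomy -/
def Stmt_Part2 : Prop :=
  ∀ ε : ℝ, 0 < ε → ∃ (δ : ℝ) (N₀ : ℕ), 0 < δ ∧ ∀ N : ℕ, N₀ ≤ N →
    ({a : ℕ | 1 ≤ a ∧ a ≤ N ∧ ∃ b c m n k : ℕ, 2 ≤ b ∧ 2 ≤ c ∧ Nat.Coprime a b ∧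
      Nat.Coprime b c ∧ Nat.Coprime a c ∧ 2 ≤ m ∧ 2 ≤ n ∧ 2 ≤ k ∧ 1 / δ ≤ n ∧ 1 / δ ≤ k ∧
      (((n : ℝ) ≤ (N : ℝ) ^ δ ∧ (k : ℝ) ≤ (N : ℝ) ^ δ) ∨
        ((b : ℝ) ≤ Real.exp ((N : ℝ) ^ δ) ∧ (c : ℝ) ≤ Real.exp ((N : ℝ) ^ δ))) ∧
      (a ^ m + b ^ n = c ^ k ∨ b ^ n + c ^ k = a ^ m ∨ c ^ k + a ^ m = b ^ n) ∧
      (m : ℝ) < δ * n * k ∧
      ((b : ℝ) < (N : ℝ) ^ (δ * k) ∨ (c : ℝ) < (N : ℝ) ^ (δ * n))}.ncard : ℝ) ≤ (N : ℝ) ^ ε ∧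
    ({a : ℕ | 1 ≤ a ∧ a ≤ N ∧ ∃ b c m n k : ℕ, 2 ≤ b ∧ 2 ≤ c ∧ Nat.Coprime a b ∧
      Nat.Coprime b c ∧ Nat.Coprime a c ∧ 2 ≤ m ∧ 2 ≤ n ∧ 2 ≤ k ∧
      (((n : ℝ) ≤ (N : ℝ) ^ δ ∧ (k : ℝ) ≤ (N : ℝ) ^ δ) ∨
        ((b : ℝ) ≤ Real.exp ((N : ℝ) ^ δ) ∧ (c : ℝ) ≤ Real.exp ((N : ℝ) ^ δ))) ∧
      (a ^ m + b ^ n = c ^ k ∨ b ^ n + c ^ k = a ^ m ∨ c ^ k + a ^ m = b ^ n) ∧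
      (m : ℝ) < δ * n * k ∧
      ((b : ℝ) < (N : ℝ) ^ (δ * k) ∨ (c : ℝ) < (N : ℝ) ^ (δ * n))}.ncard : ℝ)
      ≤ (N : ℝ) ^ (1 - δ)

theorem main1 : Stmt_Part1 := part1

theorem main2 : Stmt_Part2 := by
  intro ε hε
  obtain ⟨δ, N0, hδ, h⟩ := part2 MP_2738db_nt_A_helper43.NC.final_NC ε hε
  refine ⟨δ, N0, hδ, ?_⟩
  intro N hN
  obtain ⟨h1, h2⟩ := h N hN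
  refine ⟨h1, le_trans ?_ h2⟩
  have hfin : (BadD δ 0 N).Finite := (Set.finite_Icc 1 N).subset (fun x hx => ⟨hx.1, hx.2.1⟩)
  have hsub := Set.ncard_le_ncard (s := {a : ℕ | 1 ≤ a ∧ a ≤ N ∧ ∃ b c m n k : ℕ, 2 ≤ b ∧ 2 ≤ c ∧
      Nat.Coprime a b ∧ Nat.Coprime b c ∧ Nat.Coprime a c ∧ 2 ≤ m ∧ 2 ≤ n ∧ 2 ≤ k ∧
      (((n : ℝ) ≤ (N : ℝ) ^ δ ∧ (k : ℝ) ≤ (N : ℝ) ^ δ) ∨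
        ((b : ℝ) ≤ Real.exp ((N : ℝ) ^ δ) ∧ (c : ℝ) ≤ Real.exp ((N : ℝ) ^ δ))) ∧
      (a ^ m + b ^ n = c ^ k ∨ b ^ n + c ^ k = a ^ m ∨ c ^ k + a ^ m = b ^ n) ∧
      (m : ℝ) < δ * n * k ∧
      ((b : ℝ) < (N : ℝ) ^ (δ * k) ∨ (c : ℝ) < (N : ℝ) ^ (δ * n))}) (t := BadD δ 0 N) (by
    rintro a ⟨ha1, haN, b, c, m, n, k, hb, hc, hab, hbc, hac, hm, hn, hk, hrest⟩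
    exact ⟨ha1, haN, b, c, m, n, k, hb, hc, hab, hbc, hac, hm, hn, hk, Nat.cast_nonneg _,
      Nat.cast_nonneg _, hrest⟩) hfin
  exact_mod_cast hsub

end Pool.Agent.Work.MP_2738db_nt_B
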