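import Pool.Agent.Work.MP_2738db_nt_B.WCount

set_option autoImplicit false

/-!
# Part 1: the weighted count of value triples
-/

namespace Pool.Agent.Work.MP_2738db_nt_B

open MvPolynomial Pool.Agent.Work.MP_2738db_nt_T

/-- powers of `N` become large -/
lemma large_rpow {δ : ℝ} (hδ : 0 < δ) (X : ℝ) :
    ∃ N0 : ℕ, ∀ N : ℕ, N0 ≤ N → X ≤ (N : ℝ) ^ δ := by
  have h1 := tendsto_rpow_atTop hδ
  have h2 := h1.comp (tendsto_natCast_atTop_atTop (R := ℝ))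
  have h3 := (h2.eventually_ge_atTop X)
  rw [Filter.eventually_atTop] at h3
  obtain ⟨N2, h4⟩ := h3
  exact ⟨N2, fun N hN => h4 N hN⟩

/-- logarithms are small -/
lemma large_log {δ : ℝ} (hδ : 0 < δ) :
    ∃ N0 : ℕ, ∀ N : ℕ, N0 ≤ N → Real.log N ≤ (N : ℝ) ^ δ := by
  obtain ⟨N3, hN3⟩ := large_rpow (show 0 < δ / 2 by positivity) (2 / δ)
  refine ⟨N3 + 1, ?_⟩
  intro N hN
  have hNpos : (0 : ℝ) < N := by exact_mod_cast (by omega : 0 < N)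
  have h1 : Real.log N ≤ (N : ℝ) ^ (δ / 2) / (δ / 2) :=
    Real.log_le_rpow_div (by positivity) (by positivity)
  have h2 := hN3 N (by omega)
  have h3 : (N : ℝ) ^ δ = (N : ℝ) ^ (δ / 2) * (N : ℝ) ^ (δ / 2) := by
    rw [← Real.rpow_add hNpos]; congr 1; ring
  rw [h3]
  calc Real.log N ≤ (N : ℝ) ^ (δ / 2) / (δ / 2) := h1
    _ = (N : ℝ) ^ (δ / 2) * (2 / δ) := by field_simp
    _ ≤ (N : ℝ) ^ (δ / 2) * (N : ℝ) ^ (δ / 2) := by gcongr

/-- the exponents are bounded -/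
lemma exps_le {C0 δ1 : ℝ} (hδ1 : 0 < δ1)
    (hE : ∀ N a b c m n k : ℕ, 3 ≤ N → 1 ≤ a → a ≤ N → 1 ≤ b → b ≤ N → 1 ≤ c → c ≤ N →
      Nat.Coprime a b → Nat.Coprime b c → Nat.Coprime a c → 2 ≤ m → 2 ≤ n → 2 ≤ k →
      (a = 1 → m = 2) → (b = 1 → n = 2) → a ^ m + b ^ n = c ^ k →
      (m : ℝ) ≤ C0 * (Real.log N) ^ 12 ∧ (n : ℝ) ≤ C0 * (Real.log N) ^ 12 ∧
        (k : ℝ) ≤ C0 * (Real.log N) ^ 12) :
    ∃ N0 : ℕ, ∀ N : ℕ, N0 ≤ N → ∀ N' a b c m n k : ℕ, 3 ≤ N' →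
      Real.log N' ≤ (N : ℝ) ^ (δ1 / 25) → 1 ≤ a → a ≤ N' → 1 ≤ b → b ≤ N' → 1 ≤ c → c ≤ N' →
      Nat.Coprime a b → Nat.Coprime b c → Nat.Coprime a c → 2 ≤ m → 2 ≤ n → 2 ≤ k →
      (a = 1 → m = 2) → (b = 1 → n = 2) → a ^ m + b ^ n = c ^ k →
      (m : ℝ) ≤ (N : ℝ) ^ δ1 ∧ (n : ℝ) ≤ (N : ℝ) ^ δ1 ∧ (k : ℝ) ≤ (N : ℝ) ^ δ1 := by
  obtain ⟨N2, hN2⟩ := large_rpow (show 0 < δ1 / 25 by positivity) (|C0|)
  refine ⟨N2 + 1, ?_⟩
  intro N hN N' a b c m n k hN' hlog h1 h2 h3 h4 h5 h6 h7 h8 h9 h10 h11 h12 h13 h14 h15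
  obtain ⟨b1, b2, b3⟩ := hE N' a b c m n k hN' h1 h2 h3 h4 h5 h6 h7 h8 h9 h10 h11 h12 h13 h14 h15
  have hN1r : (1 : ℝ) ≤ N := by exact_mod_cast (by omega : 1 ≤ N)
  have hNpos : (0 : ℝ) < N := by linarith
  have hlog0 : 0 ≤ Real.log N' := Real.log_nonneg (by exact_mod_cast (by omega : 1 ≤ N'))
  have hC := hN2 N (by omega)
  have key : C0 * (Real.log N') ^ 12 ≤ (N : ℝ) ^ δ1 := by
    calc C0 * (Real.log N') ^ 12 ≤ |C0| * (Real.log N') ^ 12 := by gcongr; exact le_abs_self _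
      _ ≤ (N : ℝ) ^ (δ1 / 25) * ((N : ℝ) ^ (δ1 / 25)) ^ 12 := by gcongr
      _ = (N : ℝ) ^ (δ1 / 25 + δ1 / 25 * 12) := by
          rw [Real.rpow_add hNpos, Real.rpow_mul hNpos.le]
          norm_cast
      _ ≤ (N : ℝ) ^ δ1 := by
          apply Real.rpow_le_rpow_of_exponent_le hN1r
          linarith
  exact ⟨b1.trans key, b2.trans key, b3.trans key⟩

/-- the value triples counted in part 1 -/
def VW (A : ℕ) (δ : ℝ) (N : ℕ) : Set (ℕ × ℕ × ℕ) :=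
  {τ : ℕ × ℕ × ℕ | ∃ a b c m n k r s t : ℕ, 0 < a ∧ 0 < b ∧ 0 < c ∧
      Nat.Coprime a b ∧ Nat.Coprime b c ∧ Nat.Coprime a c ∧ 2 ≤ m ∧ 2 ≤ n ∧ 2 ≤ k ∧
      1 ≤ r ∧ 1 ≤ s ∧ 1 ≤ t ∧ (r : ℝ) ≤ (N : ℝ) ^ δ ∧ (s : ℝ) ≤ (N : ℝ) ^ δ ∧
      (t : ℝ) ≤ (N : ℝ) ^ δ ∧ a ≤ N ^ r ∧ b ≤ N ^ s ∧ c ≤ N ^ t ∧ a ^ m + b ^ n = c ^ k ∧
      (N ^ (A * (r * s * t)) < c ^ k ∨
        (r = 1 ∧ s = 1 ∧ t = 1 ∧ (A ≤ m ∨ A ≤ n ∨ A ≤ k))) ∧
      τ = (a ^ m, b ^ n, c ^ k)}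

/-- values of a point with exponents -/
def valW (x : Pt × (Fin 3 → ℕ)) : ℕ × ℕ × ℕ :=
  ((x.1 0).toNat ^ x.2 0, (x.1 1).toNat ^ x.2 1, (x.1 2).toNat ^ x.2 2)

theorem part1 : ∀ ε : ℝ, 0 < ε → ∃ (A : ℕ) (δ : ℝ) (N0 : ℕ), 0 < δ ∧ ∀ N : ℕ, N0 ≤ N →
    (VW A δ N).Finite ∧ ((VW A δ N).ncard : ℝ) ≤ (N : ℝ) ^ ε := by
  intro ε hε
  obtain ⟨K1, CB, hB⟩ := main_box (ε / 2) (by positivity)
  obtain ⟨A1, C, δ1, N1, hδ1, hC0, hcore⟩ := core (ε / 2) (by positivity)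
  obtain ⟨C0, hE⟩ := MP_2738db_nt_T_helper42.stmt_Exp arch
  obtain ⟨N2, hexp⟩ := exps_le hδ1 hE
  obtain ⟨N3, hN3⟩ := large_log (show 0 < δ1 / 50 by positivity)
  obtain ⟨N4, hN4⟩ := large_rpow (show 0 < ε / 2 by positivity) (|CB| + C)
  refine ⟨K1 + 2 * A1, δ1 / 50, N1 + N2 + N3 + N4 + 3, by positivity, ?_⟩
  intro N hN
  have hN1 : 1 ≤ N := by omega
  have hN1r : (1 : ℝ) ≤ N := by exact_mod_cast hN1
  have hNpos : (0 : ℝ) < N := by linarith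
  obtain ⟨F, hFc, hF⟩ := hcore N (by omega)
  obtain ⟨hVF, hVC⟩ : (V K1 N).Finite ∧ ((V K1 N).ncard : ℝ) ≤ CB * (N : ℝ) ^ (ε / 2) := hB N hN1
  have hδle : (N : ℝ) ^ (δ1 / 50) ≤ (N : ℝ) ^ δ1 :=
    Real.rpow_le_rpow_of_exponent_le hN1r (by linarith)
  classical
  have hsub : VW (K1 + 2 * A1) (δ1 / 50) N ⊆ V K1 N ∪ (F.image valW : Set (ℕ × ℕ × ℕ)) := by
    rintro τ ⟨a, b, c, m, n, k, r, s, t, ha, hb, hc, hab, hbc, hac, hm, hn, hk, hr, hs, ht, hrN, hsN,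
      htN, haN, hbN, hcN, heq, hor, rfl⟩
    rcases hor with hbig | ⟨rfl, rfl, rfl, hK⟩
    · right
      obtain ⟨m', hm2, hm1, hme, -⟩ := norm_exp (u := a) hm
      obtain ⟨n', hn2, hn1, hne, -⟩ := norm_exp (u := b) hn
      have heq' : a ^ m' + b ^ n' = c ^ k := by rw [hme, hne]; exact heq
      set R : ℕ := max r (max s t) with hR
      have hR1 : 1 ≤ R := hr.trans (le_max_left _ _)
      have hRN : (R : ℝ) ≤ (N : ℝ) ^ (δ1 / 50) := by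
        rw [hR]
        push_cast
        exact max_le hrN (max_le hsN htN)
      have hN'3 : 3 ≤ N ^ R := by
        calc 3 ≤ N := by omega
          _ = N ^ 1 := (pow_one N).symm
          _ ≤ N ^ R := Nat.pow_le_pow_right hN1 hR1
      have hlogN' : Real.log ((N ^ R : ℕ) : ℝ) ≤ (N : ℝ) ^ (δ1 / 25) := by
        rw [Nat.cast_pow, Real.log_pow]
        have h1 := hN3 N (by omega)
        have h2 : 0 ≤ Real.log N := Real.log_nonneg hN1r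
        calc (R : ℝ) * Real.log N ≤ (N : ℝ) ^ (δ1 / 50) * (N : ℝ) ^ (δ1 / 50) := by gcongr
          _ = (N : ℝ) ^ (δ1 / 25) := by
              rw [← Real.rpow_add hNpos]; congr 1; ring
      have hpow : ∀ u v : ℕ, v ≤ R → u ≤ N ^ v → u ≤ N ^ R := fun u v h1 h2 =>
        h2.trans (Nat.pow_le_pow_right hN1 h1)
      obtain ⟨e1, e2, e3⟩ := hexp N (by omega) (N ^ R) a b c m' n' k hN'3 hlogN' ha
        (hpow a r (le_max_left _ _) haN) hb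
        (hpow b s ((le_max_left _ _).trans (le_max_right _ _)) hbN) hc
        (hpow c t ((le_max_right _ _).trans (le_max_right _ _)) hcN) hab hbc hac hm2 hn2 hk hm1 hn1
        heq'
      have hbig' : N ^ (2 * A1 * Th ![r, s, t]) < c ^ k := by
        refine lt_of_le_of_lt (Nat.pow_le_pow_right hN1 ?_) hbig
        show 2 * A1 * (r * s * t) ≤ (K1 + 2 * A1) * (r * s * t)
        exact Nat.mul_le_mul_right _ (by omega)
      have hG : GoodW N ![r, s, t] A1 m' n' k ![(a : ℤ), (b : ℤ), (c : ℤ)] :=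
        mk_goodW ha hb hc haN hbN hcN hab hbc hac hk hbig' heq'
      have hmem : ((![(a : ℤ), (b : ℤ), (c : ℤ)] : Pt), (![m', n', k] : Fin 3 → ℕ)) ∈ F := by
        apply hF ![r, s, t] ![m', n', k] _ _ _ _ _ hG
        · intro i
          fin_cases i
          · exact hr
          · exact hs
          · exact ht
        · intro i
          fin_cases i
          · exact hrN.trans hδle
          · exact hsN.trans hδle
          · exact htN.trans hδle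
        · intro i
          fin_cases i
          · show 1 ≤ m'
            omega
          · show 1 ≤ n'
            omega
          · show 1 ≤ k
            omega
        · intro i
          fin_cases i
          · exact e1
          · exact e2
          · exact e3
      rw [Finset.mem_coe, Finset.mem_image]
      refine ⟨_, hmem, ?_⟩
      rw [← hme, ← hne]
      simp [valW]
    · left
      rw [pow_one] at haN hbN hcN
      refine ⟨a, b, c, m, n, k, ha, haN, hb, hbN, hc, hcN, hab, hbc, hac, hm, hn, hk, ?_, heq, rfl⟩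
      rcases hK with h | h | h
      · exact Or.inl (by omega)
      · exact Or.inr (Or.inl (by omega))
      · exact Or.inr (Or.inr (by omega))
  have hfinU : (V K1 N ∪ (F.image valW : Set (ℕ × ℕ × ℕ))).Finite :=
    hVF.union (Finset.finite_toSet _)
  refine ⟨hfinU.subset hsub, ?_⟩
  have h1 : (VW (K1 + 2 * A1) (δ1 / 50) N).ncard ≤ (V K1 N).ncard + F.card := by
    refine (Set.ncard_le_ncard hsub hfinU).trans ((Set.ncard_union_le _ _).trans ?_)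
    rw [Set.ncard_coe_finset]
    have := Finset.card_image_le (s := F) (f := valW)
    omega
  have h2 : ((VW (K1 + 2 * A1) (δ1 / 50) N).ncard : ℝ) ≤ ((V K1 N).ncard : ℝ) + (F.card : ℝ) := by
    exact_mod_cast h1
  have h3 := hN4 N (by omega)
  have h0 : 0 ≤ (N : ℝ) ^ (ε / 2) := by positivity
  calc ((VW (K1 + 2 * A1) (δ1 / 50) N).ncard : ℝ) ≤ ((V K1 N).ncard : ℝ) + (F.card : ℝ) := h2
    _ ≤ |CB| * (N : ℝ) ^ (ε / 2) + C * (N : ℝ) ^ (ε / 2) :=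
        add_le_add (hVC.trans (mul_le_mul_of_nonneg_right (le_abs_self _) h0)) hFc
    _ = (|CB| + C) * (N : ℝ) ^ (ε / 2) := by ring
    _ ≤ (N : ℝ) ^ (ε / 2) * (N : ℝ) ^ (ε / 2) := by gcongr
    _ = (N : ℝ) ^ ε := by rw [← Real.rpow_add hNpos]; congr 1; ring

end Pool.Agent.Work.MP_2738db_nt_B
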