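import Pool.Agent.Work.MP_2738db_nt_B.WCaseA
import Pool.Agent.Work.MP_2738db_nt_A_helper43.NC

set_option autoImplicit false

/-!
# Part 2: the dichotomy for 100 percent of the integers
-/

namespace Pool.Agent.Work.MP_2738db_nt_B

open Pool.Agent.Work.MP_2738db_nt_T

lemma large_loglog : ∃ N0 : ℕ, ∀ N : ℕ, N0 ≤ N →
    Real.exp (Real.log (Real.log N) ^ (1 + (1 / 2 : ℝ))) ≤ N := by
  have h1 := (isLittleO_log_rpow_rpow_atTop (1 + (1 / 2 : ℝ)) (show (0 : ℝ) < 1 by norm_num)).bound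
    (show (0 : ℝ) < 1 by norm_num)
  have h2 : Filter.Tendsto (fun N : ℕ => Real.log (N : ℝ)) Filter.atTop Filter.atTop :=
    Real.tendsto_log_atTop.comp tendsto_natCast_atTop_atTop
  have h3 := h2.eventually h1
  rw [Filter.eventually_atTop] at h3
  obtain ⟨N0, hN0⟩ := h3
  refine ⟨N0 + 3, ?_⟩
  intro N hN
  have h4 := hN0 N (by omega)
  have hNpos : (0 : ℝ) < N := by exact_mod_cast (by omega : 0 < N)
  have hN1 : (1 : ℝ) ≤ N := by exact_mod_cast (by omega : 1 ≤ N)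
  have hlog0 : 0 ≤ Real.log N := Real.log_nonneg hN1
  rw [Real.rpow_one, one_mul, Real.norm_of_nonneg hlog0] at h4
  calc Real.exp (Real.log (Real.log N) ^ (1 + (1 / 2 : ℝ))) ≤ Real.exp (Real.log N) := by
        apply Real.exp_le_exp.mpr
        exact (Real.le_norm_self _).trans h4
    _ = N := Real.exp_log hNpos

/-- the integers `a ≤ N` in a solution which violates the dichotomy -/
def BadD (δ K : ℝ) (N : ℕ) : Set ℕ :=
  {a : ℕ | 1 ≤ a ∧ a ≤ N ∧ ∃ b c m n k : ℕ, 2 ≤ b ∧ 2 ≤ c ∧ Nat.Coprime a b ∧ Nat.Coprime b c ∧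
    Nat.Coprime a c ∧ 2 ≤ m ∧ 2 ≤ n ∧ 2 ≤ k ∧ K ≤ n ∧ K ≤ k ∧
    (((n : ℝ) ≤ (N : ℝ) ^ δ ∧ (k : ℝ) ≤ (N : ℝ) ^ δ) ∨
      ((b : ℝ) ≤ Real.exp ((N : ℝ) ^ δ) ∧ (c : ℝ) ≤ Real.exp ((N : ℝ) ^ δ))) ∧
    (a ^ m + b ^ n = c ^ k ∨ b ^ n + c ^ k = a ^ m ∨ c ^ k + a ^ m = b ^ n) ∧
    (m : ℝ) < δ * n * k ∧ ((b : ℝ) < (N : ℝ) ^ (δ * k) ∨ (c : ℝ) < (N : ℝ) ^ (δ * n))}

/-- the values are bounded if the dichotomy is violated -/
lemma values_le {δ : ℝ} {N a b c m n k : ℕ} (hδ : 0 < δ) (hN : 1 ≤ N) (h2 : 2 ≤ (N : ℝ) ^ δ)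
    (haN : a ≤ N) (hn : 2 ≤ n) (hk : 2 ≤ k)
    (heq : a ^ m + b ^ n = c ^ k ∨ b ^ n + c ^ k = a ^ m ∨ c ^ k + a ^ m = b ^ n)
    (hm : (m : ℝ) < δ * n * k)
    (hor : (b : ℝ) < (N : ℝ) ^ (δ * k) ∨ (c : ℝ) < (N : ℝ) ^ (δ * n)) :
    ((a ^ m : ℕ) : ℝ) ≤ (N : ℝ) ^ (2 * δ * n * k) ∧ ((b ^ n : ℕ) : ℝ) ≤ (N : ℝ) ^ (2 * δ * n * k) ∧
      ((c ^ k : ℕ) : ℝ) ≤ (N : ℝ) ^ (2 * δ * n * k) := by
  have hN1r : (1 : ℝ) ≤ N := by exact_mod_cast hN
  have hNpos : (0 : ℝ) < N := by linarith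
  have hn0 : (2 : ℝ) ≤ n := by exact_mod_cast hn
  have hk0 : (2 : ℝ) ≤ k := by exact_mod_cast hk
  set Y : ℝ := (N : ℝ) ^ (δ * n * k) with hY
  have hY2 : 2 ≤ Y := by
    refine h2.trans ?_
    rw [hY]
    apply Real.rpow_le_rpow_of_exponent_le hN1r
    have h3 : (1 : ℝ) ≤ n * k := by nlinarith
    calc δ = δ * 1 := (mul_one δ).symm
      _ ≤ δ * (n * k) := by gcongr
      _ = δ * n * k := by ring
  have hYY : Y * Y = (N : ℝ) ^ (2 * δ * n * k) := by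
    rw [hY, ← Real.rpow_add hNpos]
    congr 1
    ring
  have h2Y : 2 * Y ≤ (N : ℝ) ^ (2 * δ * n * k) := by
    rw [← hYY]
    gcongr
  have hY1 : Y ≤ (N : ℝ) ^ (2 * δ * n * k) := by linarith
  have ha : ((a ^ m : ℕ) : ℝ) ≤ Y := by
    rw [Nat.cast_pow]
    calc (a : ℝ) ^ m ≤ (N : ℝ) ^ m := by
          apply pow_le_pow_left₀ (by positivity)
          exact_mod_cast haN
      _ = (N : ℝ) ^ (m : ℝ) := (Real.rpow_natCast _ _).symm
      _ ≤ Y := Real.rpow_le_rpow_of_exponent_le hN1r hm.le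
  rcases hor with h | h
  · have hb : ((b ^ n : ℕ) : ℝ) ≤ Y := by
      rw [Nat.cast_pow]
      calc (b : ℝ) ^ n ≤ ((N : ℝ) ^ (δ * k)) ^ n := pow_le_pow_left₀ (by positivity) h.le _
        _ = Y := by
            rw [← Real.rpow_natCast, ← Real.rpow_mul hNpos.le, hY]
            congr 1
            ring
    have hc : ((c ^ k : ℕ) : ℝ) ≤ 2 * Y := by
      have h1 : c ^ k ≤ a ^ m + b ^ n := by omega
      have h2' : ((c ^ k : ℕ) : ℝ) ≤ ((a ^ m : ℕ) : ℝ) + ((b ^ n : ℕ) : ℝ) := by exact_mod_cast h1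
      linarith
    exact ⟨ha.trans hY1, hb.trans hY1, hc.trans h2Y⟩
  · have hc : ((c ^ k : ℕ) : ℝ) ≤ Y := by
      rw [Nat.cast_pow]
      calc (c : ℝ) ^ k ≤ ((N : ℝ) ^ (δ * n)) ^ k := pow_le_pow_left₀ (by positivity) h.le _
        _ = Y := by
            rw [← Real.rpow_natCast, ← Real.rpow_mul hNpos.le, hY]
    have hb : ((b ^ n : ℕ) : ℝ) ≤ 2 * Y := by
      have h1 : b ^ n ≤ a ^ m + c ^ k := by omega
      have h2' : ((b ^ n : ℕ) : ℝ) ≤ ((a ^ m : ℕ) : ℝ) + ((c ^ k : ℕ) : ℝ) := by exact_mod_cast h1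
      linarith
    exact ⟨ha.trans hY1, hb.trans h2Y, hc.trans hY1⟩

/-- roots -/
lemma root_le {δ : ℝ} {N u n k K : ℕ} (hδ : 0 < δ) (hN : 1 ≤ N) (hk : 1 ≤ k) (hnK : n ≤ K)
    (h : ((u ^ k : ℕ) : ℝ) ≤ (N : ℝ) ^ (2 * δ * n * k)) : (u : ℝ) ≤ (N : ℝ) ^ (2 * δ * K) := by
  have hN1r : (1 : ℝ) ≤ N := by exact_mod_cast hN
  have hNpos : (0 : ℝ) < N := by linarith
  rw [Nat.cast_pow] at h
  have h1 : (u : ℝ) ^ k ≤ ((N : ℝ) ^ (2 * δ * K)) ^ k := by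
    refine h.trans ?_
    rw [← Real.rpow_natCast, ← Real.rpow_mul hNpos.le]
    apply Real.rpow_le_rpow_of_exponent_le hN1r
    have h2 : (n : ℝ) ≤ K := by exact_mod_cast hnK
    gcongr
  exact le_of_pow_le_pow_left₀ (by omega) (by positivity) h1

theorem part2 (hNC : MP_2738db_nt_A_helper43.NC.Stmt_NC) :
    ∀ ε : ℝ, 0 < ε → ∃ (δ : ℝ) (N0 : ℕ), 0 < δ ∧ ∀ N : ℕ, N0 ≤ N →
    ((BadD δ (1 / δ) N).ncard : ℝ) ≤ (N : ℝ) ^ ε ∧
    ((BadD δ 0 N).ncard : ℝ) ≤ (N : ℝ) ^ (1 - δ) := by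
  intro ε hε
  obtain ⟨ε', hε'⟩ : ∃ e : ℝ, e = min (ε / 2) (1 / 2) := ⟨_, rfl⟩
  have hε'0 : 0 < ε' := by rw [hε']; exact lt_min (by positivity) (by norm_num)
  have hε'1 : ε' ≤ ε / 2 := by rw [hε']; exact min_le_left _ _
  have hε'2 : ε' ≤ 1 / 2 := by rw [hε']; exact min_le_right _ _
  obtain ⟨K, κ, η, N1, hK1, hκ, hη, hA⟩ := caseA ε' hε'0
  obtain ⟨κ', hκ', hNC1⟩ := hNC (1 / 2) (by norm_num)
  obtain ⟨X0, hNC2⟩ := hNC1 1
  obtain ⟨C0, hE⟩ := MP_2738db_nt_T_helper42.stmt_Exp arch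
  obtain ⟨η', hη'⟩ : ∃ e : ℝ, e = min η (1 / 4) := ⟨_, rfl⟩
  have hη'0 : 0 < η' := by rw [hη']; exact lt_min hη (by norm_num)
  have hη'1 : η' ≤ η := by rw [hη']; exact min_le_left _ _
  have hη'2 : η' ≤ 1 / 4 := by rw [hη']; exact min_le_right _ _
  obtain ⟨N2, hexp⟩ := exps_le hη'0 hE
  have hK1r : (1 : ℝ) ≤ K := by exact_mod_cast hK1
  have hK0 : (0 : ℝ) < K := by linarith
  obtain ⟨δ, hδd⟩ : ∃ e : ℝ, e = min (min (κ / 2) (η' / 25)) (min (κ' / (2 * K)) (1 / (4 * K))) :=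
    ⟨_, rfl⟩
  have hδ0 : 0 < δ := by
    rw [hδd]
    exact lt_min (lt_min (by positivity) (by positivity)) (lt_min (by positivity) (by positivity))
  have hδ1 : 2 * δ ≤ κ := by
    have : δ ≤ κ / 2 := by rw [hδd]; exact (min_le_left _ _).trans (min_le_left _ _)
    linarith
  have hδ2 : δ ≤ η' / 25 := by rw [hδd]; exact (min_le_left _ _).trans (min_le_right _ _)
  have hδ3 : 2 * δ * K ≤ κ' := by
    have : δ ≤ κ' / (2 * K) := by rw [hδd]; exact (min_le_right _ _).trans (min_le_left _ _)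
    rw [le_div_iff₀ (by positivity)] at this
    linarith
  have hδ4 : 4 * δ * K ≤ 1 := by
    have : δ ≤ 1 / (4 * K) := by rw [hδd]; exact (min_le_right _ _).trans (min_le_right _ _)
    rw [le_div_iff₀ (by positivity)] at this
    linarith
  have hδ5 : 2 * δ ≤ κ' := by nlinarith
  have hδ6 : 4 * δ ≤ 1 := by nlinarith
  have hδη : δ ≤ η' := by linarith
  obtain ⟨N3, hN3⟩ := large_rpow hδ0 3
  obtain ⟨N4, hN4⟩ := large_loglog
  obtain ⟨N5, hN5⟩ := large_log hδ0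
  obtain ⟨N6, hN6⟩ := large_rpow hε'0 2
  obtain ⟨N7, hN7⟩ := exists_nat_ge X0
  refine ⟨δ, N1 + N2 + N3 + N4 + N5 + N6 + N7 + 3, hδ0, ?_⟩
  intro N hN
  classical
  have hN1 : 1 ≤ N := by omega
  have hN1r : (1 : ℝ) ≤ N := by exact_mod_cast hN1
  have hNpos : (0 : ℝ) < N := by linarith
  have h3 := hN3 N (by omega)
  have h2' : 2 ≤ (N : ℝ) ^ δ := by linarith
  have hlog := hN5 N (by omega)
  obtain ⟨S, hSc, hS⟩ := hA N (by omega)
  have hδη'N : (N : ℝ) ^ δ ≤ (N : ℝ) ^ η' := Real.rpow_le_rpow_of_exponent_le hN1r hδη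
  have hη'ηN : (N : ℝ) ^ η' ≤ (N : ℝ) ^ η := Real.rpow_le_rpow_of_exponent_le hN1r hη'1
  -- bounds for the exponents
  have hexps : ∀ a b c m n k : ℕ, 1 ≤ a → a ≤ N → 2 ≤ a → 2 ≤ b → 2 ≤ c → Nat.Coprime a b →
      Nat.Coprime b c → Nat.Coprime a c → 2 ≤ m → 2 ≤ n → 2 ≤ k →
      (((n : ℝ) ≤ (N : ℝ) ^ δ ∧ (k : ℝ) ≤ (N : ℝ) ^ δ) ∨
        ((b : ℝ) ≤ Real.exp ((N : ℝ) ^ δ) ∧ (c : ℝ) ≤ Real.exp ((N : ℝ) ^ δ))) →
      (a ^ m + b ^ n = c ^ k ∨ b ^ n + c ^ k = a ^ m ∨ c ^ k + a ^ m = b ^ n) →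
      (n : ℝ) ≤ (N : ℝ) ^ η' ∧ (k : ℝ) ≤ (N : ℝ) ^ η' := by
    intro a b c m n k _ haN ha hb hc hab hbc hac hm hn hk hor heq
    rcases hor with ⟨h4, h5⟩ | ⟨h4, h5⟩
    · exact ⟨h4.trans hδη'N, h5.trans hδη'N⟩
    · set N' : ℕ := ⌊Real.exp ((N : ℝ) ^ δ)⌋₊ with hN'
      have hNN' : N ≤ N' := by
        apply Nat.le_floor
        calc (N : ℝ) = Real.exp (Real.log N) := (Real.exp_log hNpos).symm
          _ ≤ Real.exp ((N : ℝ) ^ δ) := Real.exp_le_exp.mpr hlog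
      have hN'3 : 3 ≤ N' := by omega
      have hlogN' : Real.log N' ≤ (N : ℝ) ^ (η' / 25) := by
        have h6 : (N' : ℝ) ≤ Real.exp ((N : ℝ) ^ δ) := Nat.floor_le (Real.exp_pos _).le
        have h7 : (0 : ℝ) < N' := by exact_mod_cast (by omega : 0 < N')
        calc Real.log N' ≤ Real.log (Real.exp ((N : ℝ) ^ δ)) := Real.log_le_log h7 h6
          _ = (N : ℝ) ^ δ := Real.log_exp _
          _ ≤ (N : ℝ) ^ (η' / 25) := Real.rpow_le_rpow_of_exponent_le hN1r hδ2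
      have hbN' : b ≤ N' := Nat.le_floor h4
      have hcN' : c ≤ N' := Nat.le_floor h5
      have haN' : a ≤ N' := haN.trans hNN'
      rcases heq with h | h | h
      · obtain ⟨-, e2, e3⟩ := hexp N (by omega) N' a b c m n k hN'3 hlogN' (by omega) haN' (by omega)
          hbN' (by omega) hcN' hab hbc hac hm hn hk (by omega) (by omega) h
        exact ⟨e2, e3⟩
      · obtain ⟨e1, e2, -⟩ := hexp N (by omega) N' b c a n k m hN'3 hlogN' (by omega) hbN' (by omega)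
          hcN' (by omega) haN' hbc hac.symm hab.symm hn hk hm (by omega) (by omega) h
        exact ⟨e1, e2⟩
      · obtain ⟨e1, -, e3⟩ := hexp N (by omega) N' c a b k m n hN'3 hlogN' (by omega) hcN' (by omega)
          haN' (by omega) hbN' hac.symm hab hbc.symm hk hm hn (by omega) (by omega) h
        exact ⟨e3, e1⟩
  -- the values
  have hκN : ∀ n k : ℕ, (N : ℝ) ^ (2 * δ * n * k) ≤ (N : ℝ) ^ (κ * n * k) := by
    intro n k
    apply Real.rpow_le_rpow_of_exponent_le hN1r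
    gcongr
  -- large exponents
  have hlargeexp : ∀ a ∈ BadD δ 0 N, 2 ≤ a → (∃ b c m n k : ℕ, 2 ≤ b ∧ 2 ≤ c ∧ Nat.Coprime a b ∧
      Nat.Coprime b c ∧ Nat.Coprime a c ∧ 2 ≤ m ∧ 2 ≤ n ∧ 2 ≤ k ∧ K ≤ n ∧ K ≤ k ∧
      (((n : ℝ) ≤ (N : ℝ) ^ δ ∧ (k : ℝ) ≤ (N : ℝ) ^ δ) ∨
        ((b : ℝ) ≤ Real.exp ((N : ℝ) ^ δ) ∧ (c : ℝ) ≤ Real.exp ((N : ℝ) ^ δ))) ∧
      (a ^ m + b ^ n = c ^ k ∨ b ^ n + c ^ k = a ^ m ∨ c ^ k + a ^ m = b ^ n) ∧
      (m : ℝ) < δ * n * k ∧ ((b : ℝ) < (N : ℝ) ^ (δ * k) ∨ (c : ℝ) < (N : ℝ) ^ (δ * n))) →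
      a ∈ S := by
    rintro a ⟨ha1, haN, -⟩ ha2 ⟨b, c, m, n, k, hb, hc, hab, hbc, hac, hm, hn, hk, hKn, hKk, hex, heq,
      hmlt, hor⟩
    obtain ⟨e2, e3⟩ := hexps a b c m n k ha1 haN ha2 hb hc hab hbc hac hm hn hk hex heq
    obtain ⟨v1, v2, v3⟩ := values_le hδ0 hN1 h2' haN hn hk heq hmlt hor
    exact hS a b c m n k ha2 haN hb hc hab hbc hac hm hn hk hKn hKk (e2.trans hη'ηN)
      (e3.trans hη'ηN) heq (v1.trans (hκN n k)) (v2.trans (hκN n k)) (v3.trans (hκN n k))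
  have hNε' : 2 ≤ (N : ℝ) ^ ε' := hN6 N (by omega)
  constructor
  · -- large exponents
    have hsub : BadD δ (1 / δ) N ⊆ ((insert 1 S : Finset ℕ) : Set ℕ) := by
      rintro a ⟨ha1, haN, b, c, m, n, k, hb, hc, hab, hbc, hac, hm, hn, hk, hKn, hKk, hex, heq, hmlt,
        hor⟩
      rw [Finset.mem_coe, Finset.mem_insert]
      by_cases ha2 : a = 1
      · exact Or.inl ha2
      · right
        have hKδ : (K : ℝ) ≤ 1 / δ := by
          rw [le_div_iff₀ hδ0]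
          linarith
        apply hlargeexp a _ (by omega)
        · exact ⟨b, c, m, n, k, hb, hc, hab, hbc, hac, hm, hn, hk,
            by exact_mod_cast hKδ.trans hKn, by exact_mod_cast hKδ.trans hKk, hex, heq, hmlt, hor⟩
        · exact ⟨ha1, haN, b, c, m, n, k, hb, hc, hab, hbc, hac, hm, hn, hk, Nat.cast_nonneg _,
            Nat.cast_nonneg _, hex, heq, hmlt, hor⟩
    have h4 : (BadD δ (1 / δ) N).ncard ≤ S.card + 1 := by
      refine (Set.ncard_le_ncard hsub (Finset.finite_toSet _)).trans ?_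
      rw [Set.ncard_coe_finset]
      exact Finset.card_insert_le _ _
    have h5 : ((BadD δ (1 / δ) N).ncard : ℝ) ≤ (S.card : ℝ) + 1 := by exact_mod_cast h4
    calc ((BadD δ (1 / δ) N).ncard : ℝ) ≤ (S.card : ℝ) + 1 := h5
      _ ≤ (N : ℝ) ^ ε' * (N : ℝ) ^ ε' := by nlinarith
      _ = (N : ℝ) ^ (ε' + ε') := by rw [Real.rpow_add hNpos]
      _ ≤ (N : ℝ) ^ ε := by
          apply Real.rpow_le_rpow_of_exponent_le hN1r
          linarith
  · -- all exponents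
    set B : Finset ℕ := Finset.Icc 2 ⌊(N : ℝ) ^ (2 * δ * K)⌋₊ with hB
    have hBN : (N : ℝ) ^ (2 * δ * K) ≤ N := by
      calc (N : ℝ) ^ (2 * δ * K) ≤ (N : ℝ) ^ (1 : ℝ) := by
            apply Real.rpow_le_rpow_of_exponent_le hN1r
            nlinarith
        _ = N := Real.rpow_one _
    have hBc : (B.card : ℝ) ≤ (N : ℝ) ^ κ' := by
      have h4 : B.card ≤ ⌊(N : ℝ) ^ (2 * δ * K)⌋₊ := by
        rw [hB, Nat.card_Icc]
        omega
      calc (B.card : ℝ) ≤ (⌊(N : ℝ) ^ (2 * δ * K)⌋₊ : ℝ) := by exact_mod_cast h4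
        _ ≤ (N : ℝ) ^ (2 * δ * K) := Nat.floor_le (by positivity)
        _ ≤ (N : ℝ) ^ κ' := Real.rpow_le_rpow_of_exponent_le hN1r hδ3
    have hBmem : ∀ b ∈ B, 2 ≤ b ∧ b ≤ N := by
      intro b hb
      rw [hB, Finset.mem_Icc] at hb
      refine ⟨hb.1, ?_⟩
      have h4 : (b : ℝ) ≤ N := by
        have h5 : (b : ℝ) ≤ (⌊(N : ℝ) ^ (2 * δ * K)⌋₊ : ℝ) := by exact_mod_cast hb.2
        exact h5.trans ((Nat.floor_le (by positivity)).trans hBN)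
      exact_mod_cast h4
    have hX0N : X0 ≤ N := hN7.trans (by exact_mod_cast (by omega : N7 ≤ N))
    obtain ⟨-, hcount⟩ := hNC2 N N 1 0 B hX0N (hN4 N (by omega)) hBc hBmem le_rfl (by omega)
    have hsub : BadD δ 0 N ⊆ ((insert 1 S : Finset ℕ) : Set ℕ) ∪
        {x : ℕ | 1 ≤ x ∧ x ≤ N ∧ ∃ b ∈ B, Nat.Coprime b (1 * x + 0) ∧ ∃ a m n k : ℕ, 1 ≤ a ∧
        2 ≤ m ∧ 1 ≤ n ∧ 1 ≤ k ∧
        ((Real.log n ≤ (Real.log N) ^ (1 : ℝ) ∧ Real.log k ≤ (Real.log N) ^ (1 : ℝ)) ∨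
          ∃ p : ℕ, p.Prime ∧ Real.log p ≤ (Real.log N) ^ (1 - (1 / 2 : ℝ)) ∧ p ∣ m * b * (1 * x + 0)) ∧
        (a ^ m + b ^ n = (1 * x + 0) ^ k ∨ b ^ n + (1 * x + 0) ^ k = a ^ m ∨
          (1 * x + 0) ^ k + a ^ m = b ^ n)} := by
      intro a haB
      obtain ⟨ha1, haN, b, c, m, n, k, hb, hc, hab, hbc, hac, hm, hn, hk, -, -, hex, heq, hmlt,
        hor⟩ := haB
      by_cases ha2 : a = 1
      · left
        rw [Finset.mem_coe, Finset.mem_insert]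
        exact Or.inl ha2
      by_cases hKK : K ≤ n ∧ K ≤ k
      · left
        rw [Finset.mem_coe, Finset.mem_insert]
        right
        apply hlargeexp a _ (by omega)
        · exact ⟨b, c, m, n, k, hb, hc, hab, hbc, hac, hm, hn, hk, hKK.1, hKK.2, hex, heq, hmlt, hor⟩
        · exact ⟨ha1, haN, b, c, m, n, k, hb, hc, hab, hbc, hac, hm, hn, hk, Nat.cast_nonneg _,
            Nat.cast_nonneg _, hex, heq, hmlt, hor⟩
      · right
        obtain ⟨e2, e3⟩ := hexps a b c m n k ha1 haN (by omega) hb hc hab hbc hac hm hn hk hex heq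
        obtain ⟨v1, v2, v3⟩ := values_le hδ0 hN1 h2' haN hn hk heq hmlt hor
        have hn0 : (0 : ℝ) < n := by exact_mod_cast (by omega : 0 < n)
        have hk0 : (0 : ℝ) < k := by exact_mod_cast (by omega : 0 < k)
        have hm0 : (0 : ℝ) < m := by exact_mod_cast (by omega : 0 < m)
        have hyN : (N : ℝ) ^ η' * (N : ℝ) ^ η' ≤ N := by
          calc (N : ℝ) ^ η' * (N : ℝ) ^ η' = (N : ℝ) ^ (η' + η') := by rw [Real.rpow_add hNpos]
            _ ≤ (N : ℝ) ^ (1 : ℝ) := by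
                apply Real.rpow_le_rpow_of_exponent_le hN1r
                linarith
            _ = N := Real.rpow_one _
        have hy1 : 1 ≤ (N : ℝ) ^ η' := Real.one_le_rpow hN1r hη'0.le
        have hyN' : (N : ℝ) ^ η' ≤ N := le_trans (by nlinarith) hyN
        have hlogN : ∀ e : ℕ, (0 : ℝ) < e → (e : ℝ) ≤ N → Real.log e ≤ (Real.log N) ^ (1 : ℝ) := by
          intro e he0 he
          rw [Real.rpow_one]
          exact Real.log_le_log he0 he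
        have hln := hlogN n hn0 (e2.trans hyN')
        have hlk := hlogN k hk0 (e3.trans hyN')
        have hlm : Real.log m ≤ (Real.log N) ^ (1 : ℝ) := by
          apply hlogN m hm0
          refine hmlt.le.trans ?_
          calc δ * n * k ≤ 1 * (N : ℝ) ^ η' * (N : ℝ) ^ η' := by
                have : δ ≤ 1 := by linarith
                gcongr
            _ = (N : ℝ) ^ η' * (N : ℝ) ^ η' := by ring
            _ ≤ N := hyN
        have e1 : 1 * a + 0 = a := by ring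
        refine ⟨ha1, haN, ?_⟩
        rw [e1]
        by_cases hnK : n < K
        · have hcle := root_le (K := K) hδ0 hN1 (by omega : 1 ≤ k) hnK.le v3
          refine ⟨c, ?_, hac.symm, b, n, k, m, by omega, hn, by omega, by omega, Or.inl ⟨hlk, hlm⟩, ?_⟩
          · rw [hB, Finset.mem_Icc]
            exact ⟨hc, Nat.le_floor hcle⟩
          · rcases heq with h | h | h
            · exact Or.inr (Or.inr h)
            · exact Or.inl h
            · exact Or.inr (Or.inl h)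
        · have hkK : k < K := by
            by_contra hcon
            exact hKK ⟨by omega, by omega⟩
          have hble : (b : ℝ) ≤ (N : ℝ) ^ (2 * δ * K) := by
            apply root_le (n := k) (k := n) (K := K) hδ0 hN1 (by omega : 1 ≤ n) hkK.le
            refine v2.trans (le_of_eq ?_)
            congr 1
            ring
          refine ⟨b, ?_, hab.symm, c, k, n, m, by omega, hk, by omega, by omega, Or.inl ⟨hln, hlm⟩, ?_⟩
          · rw [hB, Finset.mem_Icc]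
            exact ⟨hb, Nat.le_floor hble⟩
          · rcases heq with h | h | h
            · exact Or.inr (Or.inl (by omega))
            · exact Or.inl (by omega)
            · exact Or.inr (Or.inr (by omega))
    have hfinS : (((insert 1 S : Finset ℕ) : Set ℕ) ∪
        {x : ℕ | 1 ≤ x ∧ x ≤ N ∧ ∃ b ∈ B, Nat.Coprime b (1 * x + 0) ∧ ∃ a m n k : ℕ, 1 ≤ a ∧
        2 ≤ m ∧ 1 ≤ n ∧ 1 ≤ k ∧
        ((Real.log n ≤ (Real.log N) ^ (1 : ℝ) ∧ Real.log k ≤ (Real.log N) ^ (1 : ℝ)) ∨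
          ∃ p : ℕ, p.Prime ∧ Real.log p ≤ (Real.log N) ^ (1 - (1 / 2 : ℝ)) ∧ p ∣ m * b * (1 * x + 0)) ∧
        (a ^ m + b ^ n = (1 * x + 0) ^ k ∨ b ^ n + (1 * x + 0) ^ k = a ^ m ∨
          (1 * x + 0) ^ k + a ^ m = b ^ n)}).Finite :=
      (Finset.finite_toSet _).union ((Set.finite_Icc 1 N).subset (fun x hx => ⟨hx.1, hx.2.1⟩))
    have h4 := (Set.ncard_le_ncard hsub hfinS).trans (Set.ncard_union_le _ _)
    rw [Set.ncard_coe_finset] at h4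
    have h5 : (insert 1 S : Finset ℕ).card ≤ S.card + 1 := Finset.card_insert_le _ _
    have h6 : ((BadD δ 0 N).ncard : ℝ) ≤ ((S.card : ℝ) + 1) + (N : ℝ) ^ (1 - κ') := by
      have h4' := (Nat.cast_le (α := ℝ)).mpr h4
      rw [Nat.cast_add] at h4'
      refine h4'.trans (add_le_add ?_ hcount)
      exact_mod_cast h5
    have h7 : (S.card : ℝ) ≤ (N : ℝ) ^ (1 - 2 * δ) := by
      refine hSc.trans ?_
      apply Real.rpow_le_rpow_of_exponent_le hN1r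
      linarith
    have h8 : (N : ℝ) ^ (1 - κ') ≤ (N : ℝ) ^ (1 - 2 * δ) := by
      apply Real.rpow_le_rpow_of_exponent_le hN1r
      linarith
    have h9 : 1 ≤ (N : ℝ) ^ (1 - 2 * δ) := Real.one_le_rpow hN1r (by linarith)
    calc ((BadD δ 0 N).ncard : ℝ) ≤ ((S.card : ℝ) + 1) + (N : ℝ) ^ (1 - κ') := h6
      _ ≤ 3 * (N : ℝ) ^ (1 - 2 * δ) := by linarith
      _ ≤ (N : ℝ) ^ δ * (N : ℝ) ^ (1 - 2 * δ) := by gcongr
      _ = (N : ℝ) ^ (1 - δ) := by rw [← Real.rpow_add hNpos]; congr 1; ring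

end Pool.Agent.Work.MP_2738db_nt_B
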